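import Pool.Agent.H32.T4.B3

/-!
# Quadratic points over a real field: the tuples of CM points
-/

open UpperHalfPlane hiding I
open Complex EisensteinSeries ModularForm MatrixGroups Manifold
open scoped Real Topology
open MvPolynomial Filter

namespace H32.T4

open H32.T3

lemma toNat_spec {a : ℤ} {x : ℝ} (h : (a : ℝ) = x) (hx : 0 < x) :
    ((a.toNat : ℕ) : ℝ) = x ∧ 1 ≤ a.toNat := by
  have ha : 0 < a := by
    have : (0 : ℝ) < a := by rw [h]; exact hx
    exact_mod_cast this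
  have h1 : ((a.toNat : ℕ) : ℤ) = a := Int.toNat_of_nonneg ha.le
  refine ⟨?_, by omega⟩
  rw [← h]
  exact_mod_cast congrArg (fun z : ℤ ↦ (z : ℝ)) h1

namespace Dat

variable {m n b : ℕ} (S : Dat m n b)

theorem step (r : Fin n → Fin n) (hr : ∀ i, S.c (r i) = S.c i) (κ : ℕ) :
    ∃ (κ' : ℕ) (Q0 : ℕ), ∀ (q : ℕ) (p : Fin m → ℤ), Q0 ≤ q →
      (∀ s, |S.t s - p s / q| < Real.exp (-(q : ℝ) ^ κ')) →
      ∃ (H : ℕ) (τ : Fin (n + m) → ℍ), q ≤ H ∧ Tup (n + m) H (exr m r) τ ∧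
        (∀ j, (τ j : ℂ) = ext (fun i ↦ S.φ i (fun s ↦ (((p s : ℝ) / q : ℝ) : ℂ)))
          (fun s ↦ (((p s : ℝ) / q : ℝ) : ℂ)) j) ∧
        ∀ j, ‖ext (fun i ↦ S.φ i S.x) S.x j - τ j‖ < Real.exp (-(H : ℝ) ^ κ) := by
  classical
  obtain ⟨C, L, ε, hC, hL, hε, hnear⟩ := S.near
  set D : ℕ := (∑ i, ((S.pA i).totalDegree + (S.pB i).totalDegree + (S.pW i).totalDegree)) +
    ∑ c, (S.pD c).totalDegree with hD
  have hDi : ∀ i, (S.pA i).totalDegree ≤ D ∧ (S.pB i).totalDegree ≤ D ∧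
      (S.pW i).totalDegree ≤ D := fun i ↦ by
    have := Finset.single_le_sum (f := fun i ↦ (S.pA i).totalDegree + (S.pB i).totalDegree +
      (S.pW i).totalDegree) (fun _ _ ↦ Nat.zero_le _) (Finset.mem_univ i)
    refine ⟨?_, ?_, ?_⟩ <;> omega
  have hDc : ∀ c, (S.pD c).totalDegree ≤ D := fun c ↦ by
    have := Finset.single_le_sum (f := fun c ↦ (S.pD c).totalDegree) (fun _ _ ↦ Nat.zero_le _)
      (Finset.mem_univ c)
    omega
  set E : ℕ := 2 * D + 1 with hE
  refine ⟨E * κ + 1, ⌈(C : ℝ) ^ κ + (L + 1) + 1⌉₊ + ⌈|Real.log ε|⌉₊ + 1, fun q p hq hp ↦ ?_⟩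
  have hqC : (C : ℝ) ^ κ + (L + 1) + 1 ≤ q := by
    refine (Nat.le_ceil _).trans ?_
    exact_mod_cast (by omega : ⌈(C : ℝ) ^ κ + (L + 1) + 1⌉₊ ≤ q)
  have hqε : |Real.log ε| < q := by
    refine lt_of_le_of_lt (Nat.le_ceil _) ?_
    exact_mod_cast (by omega : ⌈|Real.log ε|⌉₊ < q)
  have hq1 : 1 ≤ q := by omega
  have hqr : (1 : ℝ) ≤ q := by exact_mod_cast hq1
  have hq0 : (q : ℝ) ≠ 0 := by positivity
  set y : Fin m → ℝ := fun s ↦ (p s : ℝ) / q with hy
  have hyε : ∀ s, |S.t s - y s| < ε := fun s ↦ by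
    refine (hp s).trans_le ?_
    rw [← Real.le_log_iff_exp_le hε]
    have h1 : (q : ℝ) ≤ (q : ℝ) ^ (E * κ + 1) := le_self_pow₀ hqr (by omega)
    have h2 := neg_abs_le (Real.log ε)
    linarith
  obtain ⟨h1, h2, h3, h4⟩ := hnear y hyε
  have hA := fun i ↦ hom_int (S.pA i) (hDi i).1 hq1 p
  have hB := fun i ↦ hom_int (S.pB i) (hDi i).2.1 hq1 p
  have hW := fun i ↦ hom_int (S.pW i) (hDi i).2.2 hq1 p
  have hN := fun c ↦ hom_int (S.pD c) (hDc c) hq1 p
  choose u' hu' using hA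
  choose v0 hv0 using hB
  choose w0 hw0 using hW
  choose N0 hN0 using hN
  set X : ℝ := (q : ℝ) ^ D with hX
  have hX1 : 1 ≤ X := one_le_pow₀ hqr
  have hX0 : 0 < X := by linarith
  have hC2 : (2 : ℝ) ≤ C := by exact_mod_cast hC
  have hH : ((C * q ^ E : ℕ) : ℝ) = C * (X * X * q) := by
    rw [hX, hE]
    push_cast
    ring
  have hv := fun i ↦ toNat_spec (hv0 i) (mul_pos hX0 (h1 i).1)
  have hw := fun i ↦ toNat_spec (hw0 i) (mul_pos hX0 (h1 i).2.1)
  have hNn := fun c ↦ toNat_spec (hN0 c) (mul_pos hX0 (h2 c).1)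
  set v' : Fin n → ℕ := fun i ↦ (v0 i).toNat with hv'
  set w' : Fin n → ℕ := fun i ↦ (w0 i).toNat with hw'
  set N' : Fin (b + 1) → ℕ := fun c ↦ (N0 c).toNat with hN'
  set d : Fin (n + m) → ℕ := Fin.append (fun i ↦ q ^ D * N' (S.c i)) (fun _ ↦ 1) with hd
  set w : Fin (n + m) → ℕ := Fin.append (fun i ↦ w' i * q ^ D) (fun _ ↦ q) with hwd
  set u : Fin (n + m) → ℤ := Fin.append (fun i ↦ u' i * (q : ℤ) ^ D) p with hud
  set v : Fin (n + m) → ℕ := Fin.append v' (fun _ ↦ q) with hvd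
  set τ : Fin (n + m) → ℂ := ext (fun i ↦ S.φ i (fun s ↦ ((y s : ℝ) : ℂ)))
    (fun s ↦ ((y s : ℝ) : ℂ)) with hτ
  have key : ∀ j, 1 ≤ d j ∧ (d j : ℝ) ≤ C * (X * X * q) ∧ 1 ≤ w j ∧ (w j : ℝ) ≤ C * (X * X * q) ∧
      |(u j : ℝ)| ≤ C * (X * X * q) ∧ 1 ≤ v j ∧ (v j : ℝ) ≤ C * (X * X * q) ∧
      τ j = (u j + v j * (Real.sqrt (d j) * Complex.I)) / w j := by
    have hXX : X * X ≤ X * X * q := le_mul_of_one_le_right (by positivity) hqr
    have hX2 : X ≤ X * X * q := by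
      calc X = X * 1 * 1 := by ring
        _ ≤ X * X * q := by gcongr
    have hq2 : (q : ℝ) ≤ X * X * q := by
      calc (q : ℝ) = 1 * 1 * q := by ring
        _ ≤ X * X * q := by gcongr
    have h12 : (1 : ℝ) ≤ X * X * q := by linarith
    intro j
    refine Fin.addCases (fun i ↦ ?_) (fun s ↦ ?_) j
    · have ed : d (Fin.castAdd m i) = q ^ D * N' (S.c i) := Fin.append_left _ _ _
      have ew : w (Fin.castAdd m i) = w' i * q ^ D := Fin.append_left _ _ _
      have eu : u (Fin.castAdd m i) = u' i * (q : ℤ) ^ D := Fin.append_left _ _ _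
      have ev : v (Fin.castAdd m i) = v' i := Fin.append_left _ _ _
      have eτ : τ (Fin.castAdd m i) = S.φ i (fun s ↦ ((y s : ℝ) : ℂ)) := Fin.append_left _ _ _
      have rd : (d (Fin.castAdd m i) : ℝ) = X * X * aeval y (S.pD (S.c i)) := by
        rw [ed]
        push_cast
        rw [(hNn (S.c i)).1, ← hX]
        ring
      have rw' : (w (Fin.castAdd m i) : ℝ) = X * X * aeval y (S.pW i) := by
        rw [ew]
        push_cast
        rw [(hw i).1, ← hX]
        ring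
      have ru : (u (Fin.castAdd m i) : ℝ) = X * X * aeval y (S.pA i) := by
        rw [eu]
        push_cast
        rw [hu' i]
        ring
      have rv : (v (Fin.castAdd m i) : ℝ) = X * aeval y (S.pB i) := by
        rw [ev]
        exact (hv i).1
      obtain ⟨g1, g2, g3, g4, g5⟩ := h1 i
      obtain ⟨g6, g7⟩ := h2 (S.c i)
      refine ⟨?_, ?_, ?_, ?_, ?_, ?_, ?_, ?_⟩
      · rw [ed]
        exact Nat.mul_pos (Nat.pow_pos hq1) (hNn (S.c i)).2
      · rw [rd, mul_comm (C : ℝ)]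
        gcongr
      · rw [ew]
        exact Nat.mul_pos (hw i).2 (Nat.pow_pos hq1)
      · rw [rw', mul_comm (C : ℝ)]
        gcongr
      · rw [ru, abs_mul, abs_of_pos (by positivity : 0 < X * X), mul_comm (C : ℝ)]
        gcongr
      · rw [ev]
        exact (hv i).2
      · rw [rv, mul_comm (C : ℝ)]
        gcongr
      · have hsq : Real.sqrt (d (Fin.castAdd m i)) = X * Real.sqrt (aeval y (S.pD (S.c i))) := by
          rw [rd, Real.sqrt_mul (by positivity), Real.sqrt_mul_self hX0.le]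
        have cu : (u (Fin.castAdd m i) : ℂ) = (X : ℂ) * X * ((aeval y (S.pA i) : ℝ) : ℂ) := by
          exact_mod_cast congrArg (fun z : ℝ ↦ (z : ℂ)) ru
        have cv : (v (Fin.castAdd m i) : ℂ) = (X : ℂ) * ((aeval y (S.pB i) : ℝ) : ℂ) := by
          exact_mod_cast congrArg (fun z : ℝ ↦ (z : ℂ)) rv
        have cw : (w (Fin.castAdd m i) : ℂ) = (X : ℂ) * X * ((aeval y (S.pW i) : ℝ) : ℂ) := by
          exact_mod_cast congrArg (fun z : ℝ ↦ (z : ℂ)) rw'
        have hXc : (X : ℂ) ≠ 0 := by exact_mod_cast hX0.ne'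
        have hWc : ((aeval y (S.pW i) : ℝ) : ℂ) ≠ 0 := by exact_mod_cast g2.ne'
        rw [eτ, S.φ_real i g6.le, hsq, cu, cv, cw]
        push_cast
        field_simp
    · have ed : d (Fin.natAdd n s) = 1 := Fin.append_right _ _ _
      have ew : w (Fin.natAdd n s) = q := Fin.append_right _ _ _
      have eu : u (Fin.natAdd n s) = p s := Fin.append_right _ _ _
      have ev : v (Fin.natAdd n s) = q := Fin.append_right _ _ _
      have eτ : τ (Fin.natAdd n s) = ((y s : ℝ) : ℂ) + Complex.I := Fin.append_right _ _ _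
      have hps : |(p s : ℝ)| ≤ C * q := by
        have h5 := h3 s
        rw [hy] at h5
        simp only at h5
        rw [abs_div, abs_of_pos (by linarith : (0 : ℝ) < q), div_le_iff₀ (by linarith)] at h5
        exact h5
      rw [ed, ew, eu, ev, eτ]
      refine ⟨le_rfl, ?_, hq1, ?_, ?_, hq1, ?_, ?_⟩
      · push_cast
        nlinarith
      · nlinarith
      · refine hps.trans ?_
        gcongr
      · nlinarith
      · have hqc : (q : ℂ) ≠ 0 := by exact_mod_cast hq0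
        rw [hy]
        push_cast
        rw [Real.sqrt_one]
        field_simp
        push_cast
        ring
  have hcast : ∀ a : ℕ, (a : ℝ) ≤ C * (X * X * q) → a ≤ C * q ^ E := by
    intro a ha
    rw [← hH] at ha
    exact_mod_cast ha
  have him : ∀ j, 0 < (τ j).im := fun j ↦ by
    obtain ⟨k1, k2, k3, k4, k5, k6, k7, k8⟩ := key j
    exact tau_im k1 k3 k6 k8
  have hHq : q ≤ C * q ^ E := by
    calc q = 1 * q ^ 1 := by ring
      _ ≤ C * q ^ E := Nat.mul_le_mul (by omega) (Nat.pow_le_pow_right hq1 (by omega))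
  refine ⟨C * q ^ E, fun j ↦ ⟨τ j, him j⟩, hHq, ⟨?_, d, w, u, v,
    fun j ↦ Real.sqrt (d j) * Complex.I, fun j ↦ ?_, fun j ↦ ?_⟩, fun j ↦ rfl, fun j ↦ ?_⟩
  · calc 2 = 2 * 1 := rfl
      _ ≤ C * q ^ E := Nat.mul_le_mul hC (Nat.one_le_pow _ _ hq1)
  · obtain ⟨k1, k2, k3, k4, k5, k6, k7, k8⟩ := key j
    refine ⟨hcast _ k2, k3, hcast _ k4, ?_, k6, hcast _ k7, ?_, k8⟩
    · rw [← hH] at k5
      exact_mod_cast k5
    · rw [mul_pow, Complex.I_sq, ← Complex.ofReal_pow, Real.sq_sqrt (Nat.cast_nonneg _)]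
      push_cast
      ring
  · have : d (exr m r j) = d j := by
      refine Fin.addCases (fun i ↦ ?_) (fun s ↦ ?_) j
      · rw [exr, Fin.append_left, hd, Fin.append_left, Fin.append_left, hr i]
      · rw [exr, Fin.append_right]
    exact ⟨this, by simp only [this]⟩
  · have hlt : (L + 1) * Real.exp (-(q : ℝ) ^ (E * κ + 1)) <
        Real.exp (-((C * q ^ E : ℕ) : ℝ) ^ κ) := exp_cmp (by linarith) (by omega) hqC
    refine lt_of_le_of_lt ?_ hlt
    have hexp := Real.exp_pos (-(q : ℝ) ^ (E * κ + 1))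
    have hty : ‖S.t - y‖ ≤ Real.exp (-(q : ℝ) ^ (E * κ + 1)) := by
      rw [pi_norm_le_iff_of_nonneg hexp.le]
      intro s
      exact (hp s).le
    change ‖ext (fun i ↦ S.φ i S.x) S.x j - τ j‖ ≤ _
    refine Fin.addCases (fun i ↦ ?_) (fun s ↦ ?_) j
    · rw [hτ, ext, ext, Fin.append_left, Fin.append_left]
      refine (h4 i).trans ?_
      gcongr
      linarith
    · rw [hτ, ext, ext, Fin.append_right, Fin.append_right, add_sub_add_right_eq_sub, x,
        ← Complex.ofReal_sub, Complex.norm_real, Real.norm_eq_abs]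
      refine (hp s).le.trans ?_
      nlinarith

end Dat

end H32.T4
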