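import Pool.Agent.H32.T4.B5

/-!
# Quadratic points over a real field: independence of the values
-/

open UpperHalfPlane hiding I
open Complex EisensteinSeries ModularForm MatrixGroups Manifold
open scoped Real Topology
open Filter

namespace H32.T4

open H32.T3

/-- Sorted approximations. -/
def SHier {m : ℕ} (t : Fin m → ℝ) : Prop :=
  ∀ κ : ℕ, ∃ σ : Equiv.Perm (Fin m), ∀ K : ℕ, ∃ q : ℕ, K ≤ q ∧ ∃ p : Fin m → ℤ,
    (∀ s, 0 < |t s - p s / q| ∧ |t s - p s / q| < Real.exp (-(q : ℝ) ^ κ)) ∧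
    ∀ a b, a < b → |t (σ a) - p (σ a) / q| < |t (σ b) - p (σ b) / q| ^ K

lemma Tup.quad {n H : ℕ} {r : Fin n → Fin n} {t : Fin n → ℍ} (h : Tup n H r t) (i : Fin n) :
    ∃ a b c : ℤ, a ≠ 0 ∧ (a : ℂ) * (t i : ℂ) ^ 2 + (b : ℂ) * (t i : ℂ) + (c : ℂ) = 0 := by
  obtain ⟨-, d, w, u, v, s, h1, -⟩ := h
  obtain ⟨-, hw1, -, -, hv1, -, hs, ht⟩ := h1 i
  have hw0 : (w i : ℂ) ≠ 0 := by
    have : w i ≠ 0 := by omega
    exact_mod_cast this
  refine ⟨(w i : ℤ) ^ 2, -2 * w i * u i, u i ^ 2 + v i ^ 2 * d i, ?_, ?_⟩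
  · have : w i ≠ 0 := by omega
    exact pow_ne_zero 2 (by exact_mod_cast this)
  · have e1 : (w i : ℂ) * (t i : ℂ) = u i + v i * s i := by
      rw [ht, mul_div_cancel₀ _ hw0]
    push_cast
    linear_combination ((w i : ℂ) * (t i : ℂ) - u i + v i * s i) * e1 + (v i : ℂ) ^ 2 * hs

namespace Dat

variable {m n b : ℕ} (S : Dat m n b)

theorem V_indep (hS : SHier S.t)
    (hCM : ∀ i, ¬ ∃ a b c : ℤ, a ≠ 0 ∧ (a : ℂ) * S.φ i S.x ^ 2 + (b : ℂ) * S.φ i S.x + (c : ℂ) = 0)
    (hrel : ∀ i j, i ≠ j → ¬ ∃ a b c d : ℚ, 0 < a * d - b * c ∧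
      S.φ j S.x = ((a : ℂ) * S.φ i S.x + b) / ((c : ℂ) * S.φ i S.x + d))
    (r : Fin n → Fin n) (hr : ∀ i, S.c (r i) = S.c i) (hr2 : ∀ i, r (r i) = r i) (a : Fin n) :
    Gd (fun i ↦ S.φ i S.x) ∧ (∀ i, ¬ IsAlgebraic ℤ (S.φ i S.x)) ∧
    ∃ f : Fin (3 * n + m - ((Finset.univ.image r).erase a).card) → (Fin n × Fin 5) ⊕ Fin m,
      AlgebraicIndependent ℤ (fun j ↦ VV r a (fun i ↦ S.φ i S.x) S.x (f j)) := by
  classical
  obtain ⟨A, hA⟩ := transfer_U (n + m)
  set κ : ℕ := A + 1 with hκ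
  obtain ⟨κ', Q0, hstep⟩ := S.step r hr κ
  obtain ⟨σ, hσ⟩ := hS κ'
  choose q hq p hp1 hp2 using fun k : ℕ ↦ hσ (Q0 + k + 2)
  choose H τ hH hT hτ hlt using fun k ↦ hstep (q k) (p k) (le_trans (by omega) (hq k))
    (fun s ↦ (hp1 k s).2)
  set z' : Fin (n + m) → ℂ := ext (fun i ↦ S.φ i S.x) S.x with hz'
  set y : ℕ → Fin m → ℂ := fun k s ↦ (((p k s : ℝ) / q k : ℝ) : ℂ) with hy
  have hq1 : ∀ k, 1 ≤ q k := fun k ↦ le_trans (by omega) (hq k)
  have him : ∀ j, 0 < (z' j).im := by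
    intro j
    refine Fin.addCases (fun i ↦ ?_) (fun s ↦ ?_) j
    · rw [hz', ext, Fin.append_left]
      exact S.im_φ i
    · rw [hz', ext, Fin.append_right, x]
      simp
  have hynorm : ∀ k s, ‖y k s - S.x s‖ = |S.t s - p k s / q k| := fun k s ↦ by
    rw [hy, x]
    simp only
    rw [← Complex.ofReal_sub, Complex.norm_real, Real.norm_eq_abs, abs_sub_comm]
  set W : ApxN κ (n + m) (exr m r) z' :=
    { H := H
      t := τ
      hH := fun k ↦ le_trans (by omega) ((hq k).trans (hH k))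
      hT := hT
      hlt := hlt
      hne := fun k j ↦ by
        refine Fin.addCases (fun i ↦ ?_) (fun s ↦ ?_) j
        · intro h0
          have h1 := Tup.quad (hT k) (Fin.castAdd m i)
          rw [h0, hz', ext, Fin.append_left] at h1
          exact hCM i h1
        · intro h0
          rw [hτ k, hz', ext, ext, Fin.append_right, Fin.append_right, add_left_inj] at h0
          have h1 := (hp1 k s).1
          rw [← hynorm] at h1
          have h2 : y k s = S.x s := h0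
          rw [h2, sub_self, norm_zero] at h1
          exact lt_irrefl _ h1 } with hW
  obtain ⟨hGz, hG, htr⟩ := hA κ (by omega) (exr m r) (Fin.castAdd m a) z' W him
  have hτe : ∀ k, (fun j ↦ (W.t k j : ℂ)) = ext (fun i ↦ S.φ i (y k)) (y k) := fun k ↦ by
    ext j
    exact hτ k j
  have hGz' : Gd (fun i ↦ S.φ i S.x) := fun i ↦ by
    have h1 := hGz (Fin.castAdd m i)
    rwa [hz', ext, Fin.append_left] at h1
  have hG' : ∀ᶠ k in atTop, Gd (fun i ↦ S.φ i (y k)) := by
    filter_upwards [hG] with k hk i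
    have h1 := hk (Fin.castAdd m i)
    have e1 : (W.t k (Fin.castAdd m i) : ℂ) = S.φ i (y k) := by
      have := congrFun (hτe k) (Fin.castAdd m i)
      rwa [ext, Fin.append_left] at this
    simp only [e1] at h1
    exact h1
  -- the sequence of parameters
  have hle : ∀ k s, |S.t s - p k s / q k| ≤ Real.exp (-(q k : ℝ) ^ κ') := fun k s ↦ (hp1 k s).2.le
  have hle1 : ∀ k s, |S.t s - p k s / q k| ≤ 1 := fun k s ↦ by
    refine (hle k s).trans (Real.exp_le_one_iff.mpr ?_)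
    have : (0 : ℝ) ≤ (q k : ℝ) ^ κ' := by positivity
    linarith
  have hyt : Tendsto y atTop (𝓝 S.x) := by
    have h1 := W.tendsto (by omega)
    rw [tendsto_pi_nhds] at h1 ⊢
    intro s
    have h2 := (h1 (Fin.natAdd n s)).sub_const Complex.I
    have e1 : ∀ k, (W.t k (Fin.natAdd n s) : ℂ) - Complex.I = y k s := fun k ↦ by
      have := congrFun (hτe k) (Fin.natAdd n s)
      rw [ext, Fin.append_right] at this
      rw [this]
      ring
    have e2 : z' (Fin.natAdd n s) - Complex.I = S.x s := by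
      rw [hz', ext, Fin.append_right]
      ring
    rw [e2] at h2
    exact h2.congr e1
  have hX := ult_ind S.x S.φ S.an_φ S.im_φ (S.nonvan_φ hCM hrel) y hyt σ
    (Eventually.of_forall fun k s ↦ by
      rw [hynorm]
      exact (hp1 k s).1) (fun C ↦ by
      filter_upwards [eventually_ge_atTop C] with k hk a b hab
      rw [hynorm, hynorm]
      refine (hp2 k a b hab).le.trans ?_
      exact pow_le_pow_of_le_one (abs_nonneg _) (hle1 k _) (by omega))
  obtain ⟨f, hf⟩ := rank_V (fun k i ↦ S.φ i (y k)) y hG' r a hr2 hX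
  refine ⟨hGz', fun i halg ↦ ?_, f, ?_⟩
  · obtain ⟨P, hP0, hP⟩ := halg
    have e1 : ∀ v : Fin (n + m) → ℂ, MvPolynomial.aeval (H32.T3.UU (exr m r) (Fin.castAdd m a) v)
        (Polynomial.aeval (MvPolynomial.X (Fin.castAdd m i, 0)) P :
          MvPolynomial (Fin (n + m) × Fin 5) ℤ) = Polynomial.aeval (v (Fin.castAdd m i)) P := by
      intro v
      have h1 := Polynomial.map_aeval_eq_aeval_map (R := ℤ) (S := MvPolynomial (Fin (n + m) × Fin 5) ℤ)
        (T := ℤ) (U := ℂ) (φ := RingHom.id ℤ) (ψ := (MvPolynomial.aeval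
          (H32.T3.UU (exr m r) (Fin.castAdd m a) v) : MvPolynomial (Fin (n + m) × Fin 5) ℤ →ₐ[ℤ] ℂ).toRingHom)
        (by ext; simp) P (MvPolynomial.X (Fin.castAdd m i, 0))
      rw [Polynomial.map_id] at h1
      refine h1.trans ?_
      congr 2
      change MvPolynomial.aeval _ (MvPolynomial.X _) = _
      rw [MvPolynomial.aeval_X, H32.T3.UU]
      split_ifs <;> rfl
    have h1 := e1 z'
    have hzi : z' (Fin.castAdd m i) = S.φ i S.x := Fin.append_left _ _ _
    rw [hzi, hP] at h1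
    have h2 := htr _ h1
    set PC : Polynomial ℂ := P.map (Int.castRingHom ℂ) with hPC
    have hPC0 : PC ≠ 0 := (Polynomial.map_ne_zero_iff (RingHom.injective_int _)).mpr hP0
    have h3 : ∀ᶠ k in atTop, (W.t k (Fin.castAdd m i) : ℂ) ∈ PC.roots.toFinset := by
      filter_upwards [h2] with k hk
      rw [e1] at hk
      rw [Multiset.mem_toFinset, Polynomial.mem_roots hPC0, Polynomial.IsRoot, hPC,
        Polynomial.eval_map]
      exact hk
    have h4 : Tendsto (fun k ↦ (W.t k (Fin.castAdd m i) : ℂ)) atTop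
        (𝓝 (z' (Fin.castAdd m i))) :=
      (tendsto_pi_nhds.mp (W.tendsto (by omega))) (Fin.castAdd m i)
    have h5 : IsOpen ((PC.roots.toFinset.erase (z' (Fin.castAdd m i)) : Set ℂ)ᶜ) :=
      (Finset.finite_toSet _).isClosed.isOpen_compl
    have h6 : z' (Fin.castAdd m i) ∈
        ((PC.roots.toFinset.erase (z' (Fin.castAdd m i)) : Set ℂ)ᶜ) := by
      simp
    obtain ⟨k, hk1, hk2⟩ := (h3.and (h4.eventually (h5.mem_nhds h6))).exists
    apply hk2
    rw [Finset.mem_coe, Finset.mem_erase]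
    exact ⟨W.hne k _, hk1⟩
  rw [algebraicIndependent_iff]
  intro P hP
  have h1 : MvPolynomial.aeval (H32.T3.UU (exr m r) (Fin.castAdd m a) z')
      (MvPolynomial.rename (sel ∘ f) P) = 0 := by
    rw [MvPolynomial.aeval_rename, ← hP]
    congr 2
    ext j
    exact UU_ext r a (fun i ↦ S.φ i S.x) S.x (f j)
  have h2 := htr _ h1
  have h3 : MvPolynomial.aeval
      (fun j ↦ mkU (fun k ↦ VV r a (fun i ↦ S.φ i (y k)) (y k) (f j))) P = 0 := by
    rw [aeval_mkUZ']
    refine mkU_zero_of_ev (h2.mono fun k hk ↦ ?_)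
    rw [MvPolynomial.aeval_rename] at hk
    rw [← hk]
    congr 2
    ext j
    rw [Function.comp_apply, Function.comp_apply, hτe k]
    exact (UU_ext r a (fun i ↦ S.φ i (y k)) (y k) (f j)).symm
  have h4 : MvPolynomial.aeval (fun j ↦ mkU (fun k ↦ VV r a (fun i ↦ S.φ i (y k)) (y k) (f j)))
      (MvPolynomial.map (Int.castRingHom ℂ) P) = 0 := by
    rw [← h3, ← algebraMap_int_eq, MvPolynomial.aeval_map_algebraMap]
  have h5 := (algebraicIndependent_iff.mp hf) _ h4
  exact (MvPolynomial.map_injective _ (RingHom.injective_int _)) (by rw [h5, map_zero])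

end Dat

end H32.T4
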