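import Pool.Agent.H32.T4.B6

/-!
# Quadratic points over a real field: the numbers of the problem
-/

open UpperHalfPlane hiding I
open Complex EisensteinSeries ModularForm MatrixGroups Manifold
open scoped Real Topology
open Filter

namespace H32.T4

open H32.T3

lemma alg_mono' {D D' : Subalgebra ℚ ℂ} (h : D ≤ D') {v : ℂ} (hv : IsAlgebraic D v) :
    IsAlgebraic D' v := by
  obtain ⟨p, hp0, hp⟩ := hv
  refine ⟨p.map (Subalgebra.inclusion h).toRingHom, ?_, ?_⟩
  · rwa [Ne, Polynomial.map_eq_zero_iff (Subalgebra.inclusion_injective h)]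
  · rw [← hp, Polynomial.aeval_def, Polynomial.eval₂_map, Polynomial.aeval_def]
    rfl

theorem final_V {E4 E6 J : ℂ → ℂ}
    (h4 : ∀ τ : ℂ, E4 τ = 1 + 240 * ∑' m : ℕ, ((ArithmeticFunction.sigma 3 (m + 1) : ℕ) : ℂ) *
      Complex.exp (2 * (Real.pi : ℂ) * Complex.I * ((m : ℂ) + 1) * τ))
    (h6 : ∀ τ : ℂ, E6 τ = 1 - 504 * ∑' m : ℕ, ((ArithmeticFunction.sigma 5 (m + 1) : ℕ) : ℂ) *
      Complex.exp (2 * (Real.pi : ℂ) * Complex.I * ((m : ℂ) + 1) * τ))
    (hJ : ∀ τ : ℂ, J τ = 1728 * E4 τ ^ 3 / (E4 τ ^ 3 - E6 τ ^ 2))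
    {n m : ℕ} (r : Fin n → Fin n) (a : Fin n) (z : Fin n → ℂ) (x : Fin m → ℂ) (hG : Gd z)
    (hz : ∀ i, IsAlgebraic (Algebra.adjoin ℚ (Set.range x)) (z i))
    (hconj : ∀ i, IsAlgebraic (Algebra.adjoin ℚ (Set.range x)) ((starRingEnd ℂ) (z i)))
    {N : ℕ} (f : Fin N → (Fin n × Fin 5) ⊕ Fin m)
    (hf : AlgebraicIndependent ℚ (fun j ↦ VV r a z x (f j)))
    {ρ : ℕ} (g : Fin ρ → Fin n) (hg : AlgebraicIndependent ℚ (fun k ↦ z (g k))) :
    ∃ f : Fin (N + ρ - m) → Fin n × Fin 4, AlgebraicIndependent ℚ (fun k ↦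
      ![z (f k).1, J (z (f k).1), deriv J (z (f k).1), deriv (deriv J) (z (f k).1)] (f k).2) := by
  classical
  set M := AlgebraicIndependent.matroid ℚ ℂ with hM
  set S : Fin n × Fin 4 → ℂ := fun x ↦
    ![z x.1, J (z x.1), deriv J (z x.1), deriv (deriv J) (z x.1)] x.2 with hS
  set T : Set ℂ := Set.range x with hT
  set D : Subalgebra ℚ ℂ := Algebra.adjoin ℚ (Set.range S ∪ T) with hD
  have hgen : ∀ v ∈ Set.range S ∪ T, IsAlgebraic D v := by
    intro v hv
    exact isAlgebraic_algebraMap (⟨v, Algebra.subset_adjoin hv⟩ : D)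
  have aQ : ∀ q : ℚ, IsAlgebraic D (q : ℂ) := fun q ↦ by
    have : (q : ℂ) = algebraMap D ℂ (algebraMap ℚ D q) := by
      rw [← IsScalarTower.algebraMap_apply]; rfl
    rw [this]
    exact isAlgebraic_algebraMap _
  have aI : IsAlgebraic D Complex.I := by
    refine IsAlgebraic.of_pow (n := 2) two_pos ?_
    rw [Complex.I_sq]
    have := aQ (-1)
    push_cast at this
    exact this
  have hTD : Algebra.adjoin ℚ T ≤ D := Algebra.adjoin_mono Set.subset_union_right
  have aw : ∀ i, IsAlgebraic D (z i) := fun i ↦ hgen _ (Or.inl ⟨(i, 0), rfl⟩)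
  have aJ : ∀ i, IsAlgebraic D (J (z i)) := fun i ↦ hgen _ (Or.inl ⟨(i, 1), rfl⟩)
  have aJ1 : ∀ i, IsAlgebraic D (deriv J (z i)) := fun i ↦ hgen _ (Or.inl ⟨(i, 2), rfl⟩)
  have aJ2 : ∀ i, IsAlgebraic D (deriv (deriv J) (z i)) := fun i ↦ hgen _ (Or.inl ⟨(i, 3), rfl⟩)
  have ax : ∀ i, IsAlgebraic D ((starRingEnd ℂ) (z i)) := fun i ↦ alg_mono' hTD (hconj i)
  have hJv : ∀ i, J (z i) = jc (z i) := fun i ↦ (J_values h4 h6 hJ (hG i).1).1
  have aWψ : ∀ i, IsAlgebraic D (Wf (z i)) ∧ IsAlgebraic D (ps (z i)) := by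
    intro i
    obtain ⟨h0, hB, hC⟩ := hG i
    obtain ⟨v0, v1, v2⟩ := J_values h4 h6 hJ h0
    obtain ⟨f1, f2⟩ := psi_formula hB hC disc_ne v0 v1 v2
    constructor
    · have e1 : Wf (z i) = -deriv J (z i) * (J (z i))⁻¹ := f1
      rw [e1]
      exact (aJ1 i).neg.mul (aJ i).inv
    · have e1 : ps (z i) = ((6 : ℚ) : ℂ) * (((2 / 3 : ℚ) : ℂ) + ((1 / 2 : ℚ) : ℂ) * (J (z i) *
        (J (z i) - ((1728 : ℚ) : ℂ))⁻¹) - deriv (deriv J) (z i) *
          (J (z i) * (deriv J (z i) * (J (z i))⁻¹) ^ 2)⁻¹) := f2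
      rw [e1]
      exact (aQ _).mul (((aQ _).add ((aQ _).mul ((aJ i).mul ((aJ i).sub (aQ _)).inv))).sub
        ((aJ2 i).mul ((aJ i).mul (((aJ1 i).mul (aJ i).inv).pow 2)).inv))
  have aU : ∀ u, IsAlgebraic D (VV r a z x u) := by
    rintro (⟨i, l⟩ | s)
    · change IsAlgebraic D (H32.T3.UU r a z (i, l))
      by_cases hi : r i = a
      · rw [H32.T3.UU, if_pos hi]
        fin_cases l
        · exact aw i
        · change IsAlgebraic D (jc (z i))
          rw [← hJv]
          exact aJ i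
        · exact (aWψ i).1
        · exact (aWψ i).2
        · exact aw i
      · rw [H32.T3.UU, if_neg hi]
        fin_cases l
        · exact aw i
        · change IsAlgebraic D (jc (z i))
          rw [← hJv]
          exact aJ i
        · change IsAlgebraic D (ph (z i))
          obtain ⟨h0, hB, hC⟩ := hG i
          have hp := ps_eq' h0 hB hC
          have hs : z i - (starRingEnd ℂ) (z i) ≠ 0 := by
            rw [sub_ne_zero]
            intro h0'
            have := Complex.conj_eq_iff_im.mp h0'.symm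
            linarith
          have hW := Wf_ne hB hC
          have e1 : ph (z i) = ps (z i) + ((12 : ℚ) : ℂ) *
              ((z i - (starRingEnd ℂ) (z i)) * Wf (z i))⁻¹ := by
            push_cast
            field_simp
            linear_combination -hp
          rw [e1]
          exact (aWψ i).2.add ((aQ _).mul (((aw i).sub (ax i)).mul (aWψ i).1).inv)
        · exact ax i
        · change IsAlgebraic D (Wf (z i) / Wf (z (r i)))
          rw [div_eq_mul_inv]
          exact (aWψ i).1.mul (aWψ (r i)).1.inv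
    · change IsAlgebraic D (x s + Complex.I)
      exact (hgen _ (Or.inr ⟨s, rfl⟩)).add aI
  have hind : M.Indep (Set.range (fun j ↦ VV r a z x (f j))) := by
    rw [hM, AlgebraicIndependent.matroid_indep_iff]
    exact hf.to_subtype_range
  have hcard : (Set.range (fun j ↦ VV r a z x (f j))).encard = ((N : ℕ) : ℕ∞) := by
    rw [← Set.image_univ, hf.injective.encard_image, Set.encard_univ,
      ENat.card_eq_coe_fintype_card, Fintype.card_fin]
  have hsub : Set.range (fun j ↦ VV r a z x (f j)) ⊆ M.closure (Set.range S ∪ T) := by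
    rw [hM, AlgebraicIndependent.matroid_closure_eq]
    rintro _ ⟨j, rfl⟩
    exact aU _
  have h1 : ((N : ℕ) : ℕ∞) ≤ M.eRk (Set.range S ∪ T) := by
    rw [← M.eRk_closure_eq, ← hcard]
    exact hind.encard_le_eRk_of_subset hsub
  -- the rank of the coordinates
  set Z : Set ℂ := Set.range (fun j : Fin n ↦ S (j, 0)) with hZ
  have hY : M.Indep (Set.range (fun k ↦ S (g k, 0))) := by
    rw [hM, AlgebraicIndependent.matroid_indep_iff]
    exact (show AlgebraicIndependent ℚ (fun k ↦ S (g k, 0)) from hg).to_subtype_range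
  have hYcard : (Set.range (fun k ↦ S (g k, 0))).encard = (ρ : ℕ) := by
    rw [← Set.image_univ, (show AlgebraicIndependent ℚ (fun k ↦ S (g k, 0)) from
      hg).injective.encard_image, Set.encard_univ]
    simp
  have h2 : (ρ : ℕ∞) ≤ M.eRk (Set.range S ∩ (Z ∪ T)) := by
    rw [← hYcard]
    refine hY.encard_le_eRk_of_subset ?_
    rintro _ ⟨k, rfl⟩
    exact ⟨⟨(g k, 0), rfl⟩, Or.inl ⟨g k, rfl⟩⟩
  have h3 : M.eRk (Z ∪ T) ≤ (m : ℕ∞) := by
    calc M.eRk (Z ∪ T) ≤ M.eRk (M.closure T) := by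
          refine M.eRk_mono (Set.union_subset ?_ ?_)
          · rw [hM, AlgebraicIndependent.matroid_closure_eq]
            rintro _ ⟨j, rfl⟩
            exact hz j
          · refine M.subset_closure _ ?_
            rw [hM]
            exact Set.subset_univ _
      _ = M.eRk T := M.eRk_closure_eq _
      _ ≤ T.encard := M.eRk_le_encard _
      _ ≤ (Set.univ : Set (Fin m)).encard := by
          rw [hT, ← Set.image_univ]
          exact Set.encard_image_le _ _
      _ = m := by simp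
  have h5 := M.eRk_submod (Set.range S) (Z ∪ T)
  have h7 : M.eRk (Set.range S ∪ T) ≤ M.eRk (Set.range S ∪ (Z ∪ T)) :=
    M.eRk_mono (Set.union_subset_union_right _ Set.subset_union_right)
  have h8 : (ρ : ℕ∞) + N ≤ M.eRk (Set.range S) + m :=
    (add_le_add h2 (h1.trans h7)).trans (h5.trans (add_le_add le_rfl h3))
  obtain ⟨B, hB'⟩ := M.exists_isBasis (Set.range S)
  have hBsub : B ⊆ Set.range S := hB'.subset
  have hBfin : B.Finite := (Set.finite_range S).subset hBsub
  rw [← hB'.encard_eq_eRk] at h8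
  refine extract_indep' S (B := B) ?_ hBsub ?_
  · have := hB'.indep
    rw [hM, AlgebraicIndependent.matroid_indep_iff] at this
    exact this
  · rw [hBfin.encard_eq_coe_toFinset_card] at h8 ⊢
    have h9 : ρ + N ≤ hBfin.toFinset.card + m := by exact_mod_cast h8
    have h10 : N + ρ - m ≤ hBfin.toFinset.card := by omega
    exact_mod_cast h10

end H32.T4
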