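import Mathlib

/-!
# The field of germs of meromorphic functions at the origin
-/

open Filter
open scoped Topology

namespace H32.T4

/-- punctured neighbourhoods of the origin -/
noncomputable abbrev NE : Filter ℂ := 𝓝[≠] (0 : ℂ)

/-- The subring of germs of meromorphic functions. -/
def MGs : Subring (Germ NE ℂ) where
  carrier := {g | ∃ f : ℂ → ℂ, MeromorphicAt f 0 ∧ (f : Germ NE ℂ) = g}
  mul_mem' := by
    rintro _ _ ⟨f, hf, rfl⟩ ⟨g, hg, rfl⟩
    exact ⟨f * g, hf.mul hg, rfl⟩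
  one_mem' := ⟨fun _ ↦ 1, MeromorphicAt.const _ _, rfl⟩
  add_mem' := by
    rintro _ _ ⟨f, hf, rfl⟩ ⟨g, hg, rfl⟩
    exact ⟨f + g, hf.add hg, rfl⟩
  zero_mem' := ⟨fun _ ↦ 0, MeromorphicAt.const _ _, rfl⟩
  neg_mem' := by
    rintro _ ⟨f, hf, rfl⟩
    exact ⟨-f, hf.neg, rfl⟩

/-- Germs of meromorphic functions. -/
def MG : Type := MGs

noncomputable instance : CommRing MG := inferInstanceAs (CommRing MGs)

/-- The germ of a function. -/
noncomputable def mk (f : ℂ → ℂ) (hf : MeromorphicAt f 0) : MG := ⟨(f : Germ NE ℂ), f, hf, rfl⟩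

lemma mk_eq_mk {f g : ℂ → ℂ} {hf : MeromorphicAt f 0} {hg : MeromorphicAt g 0} :
    mk f hf = mk g hg ↔ f =ᶠ[NE] g := by
  refine Iff.trans (Subtype.ext_iff) ?_
  exact Germ.coe_eq

lemma exists_rep (x : MG) : ∃ (f : ℂ → ℂ) (hf : MeromorphicAt f 0), mk f hf = x := by
  obtain ⟨x, f, hf, h⟩ := x
  exact ⟨f, hf, Subtype.ext h⟩

lemma mk_add {f g : ℂ → ℂ} (hf : MeromorphicAt f 0) (hg : MeromorphicAt g 0) :
    mk f hf + mk g hg = mk (fun z ↦ f z + g z) (hf.fun_add hg) := rfl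

lemma mk_mul {f g : ℂ → ℂ} (hf : MeromorphicAt f 0) (hg : MeromorphicAt g 0) :
    mk f hf * mk g hg = mk (fun z ↦ f z * g z) (hf.fun_mul hg) := rfl

lemma mk_zero : mk (fun _ ↦ 0) (MeromorphicAt.const _ _) = 0 := rfl

lemma mk_one : mk (fun _ ↦ 1) (MeromorphicAt.const _ _) = 1 := rfl

instance : Nontrivial MG := by
  refine ⟨⟨0, 1, fun h ↦ ?_⟩⟩
  rw [← mk_zero, ← mk_one, mk_eq_mk] at h
  obtain ⟨z, hz⟩ := h.exists
  exact zero_ne_one hz

lemma mk_eq_zero {f : ℂ → ℂ} {hf : MeromorphicAt f 0} : mk f hf = 0 ↔ ∀ᶠ z in NE, f z = 0 := by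
  rw [← mk_zero, mk_eq_mk]
  rfl

lemma isUnit_or (x : MG) : IsUnit x ∨ x = 0 := by
  obtain ⟨f, hf, rfl⟩ := exists_rep x
  rcases hf.eventually_eq_zero_or_eventually_ne_zero with h | h
  · right
    rw [mk_eq_zero]
    exact h
  · left
    refine IsUnit.of_mul_eq_one (mk (fun z ↦ (f z)⁻¹) hf.fun_inv) ?_
    rw [mk_mul, ← mk_one, mk_eq_mk]
    filter_upwards [h] with z hz
    exact mul_inv_cancel₀ hz

noncomputable instance : Field MG := Field.ofIsUnitOrEqZero isUnit_or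

/-- Constants. -/
noncomputable def cst : ℂ →+* MG where
  toFun c := mk (fun _ ↦ c) (MeromorphicAt.const _ _)
  map_one' := rfl
  map_mul' _ _ := rfl
  map_zero' := rfl
  map_add' _ _ := rfl

noncomputable instance : Algebra ℂ MG := cst.toAlgebra

lemma algebraMap_MG (c : ℂ) : algebraMap ℂ MG c = mk (fun _ ↦ c) (MeromorphicAt.const _ _) := rfl

noncomputable instance : CharZero MG := charZero_of_injective_algebraMap (algebraMap ℂ MG).injective

lemma deriv_mero {f : ℂ → ℂ} (hf : MeromorphicAt f 0) : MeromorphicAt (deriv f) 0 := hf.deriv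

lemma ev_diff {f : ℂ → ℂ} (hf : MeromorphicAt f 0) : ∀ᶠ z in NE, DifferentiableAt ℂ f z := by
  filter_upwards [hf.eventually_analyticAt] with z hz
  exact hz.differentiableAt

/-- The derivation. -/
noncomputable def dfun (x : MG) : MG :=
  mk (deriv (exists_rep x).choose) (deriv_mero (exists_rep x).choose_spec.choose)

lemma dfun_mk {f : ℂ → ℂ} (hf : MeromorphicAt f 0) : dfun (mk f hf) = mk (deriv f) hf.deriv := by
  unfold dfun
  rw [mk_eq_mk]
  have h := (exists_rep (mk f hf)).choose_spec.choose_spec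
  rw [mk_eq_mk] at h
  exact h.nhdsNE_deriv

/-- The derivation of the field of germs. -/
noncomputable def DD : Derivation ℂ MG MG where
  toFun := dfun
  map_add' x y := by
    obtain ⟨f, hf, rfl⟩ := exists_rep x
    obtain ⟨g, hg, rfl⟩ := exists_rep y
    rw [mk_add, dfun_mk, dfun_mk, dfun_mk, mk_add, mk_eq_mk]
    filter_upwards [ev_diff hf, ev_diff hg] with z h1 h2
    exact deriv_fun_add h1 h2
  map_smul' c x := by
    obtain ⟨f, hf, rfl⟩ := exists_rep x
    rw [Algebra.smul_def, algebraMap_MG, mk_mul, dfun_mk, dfun_mk, RingHom.id_apply,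
      Algebra.smul_def, algebraMap_MG, mk_mul, mk_eq_mk]
    filter_upwards [ev_diff hf] with z h1
    exact deriv_const_mul c h1
  map_one_eq_zero' := by
    change dfun 1 = 0
    rw [← mk_one, dfun_mk, mk_eq_zero]
    exact Eventually.of_forall fun z ↦ by simp
  leibniz' x y := by
    obtain ⟨f, hf, rfl⟩ := exists_rep x
    obtain ⟨g, hg, rfl⟩ := exists_rep y
    change dfun _ = _ • dfun _ + _ • dfun _
    rw [mk_mul, dfun_mk, dfun_mk, dfun_mk, smul_eq_mul, smul_eq_mul, mk_mul, mk_mul, mk_add,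
      mk_eq_mk]
    filter_upwards [ev_diff hf, ev_diff hg] with z h1 h2
    rw [deriv_fun_mul h1 h2]
    ring

lemma DD_mk {f : ℂ → ℂ} (hf : MeromorphicAt f 0) : DD (mk f hf) = mk (deriv f) hf.deriv :=
  dfun_mk hf

/-- Punctured balls are connected. -/
lemma preconn_pball (r : ℝ) : IsPreconnected (Metric.ball (0 : ℂ) r \ {0}) := by
  rcases le_or_gt r 0 with hr | hr
  · rw [Metric.ball_eq_empty.mpr hr]
    simpa using isPreconnected_empty
  have h1 : Metric.ball (0 : ℂ) r \ {0} = Complex.exp '' {z : ℂ | z.re < Real.log r} := by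
    ext w
    constructor
    · rintro ⟨h2, h3⟩
      have h3' : w ≠ 0 := h3
      refine ⟨Complex.log w, ?_, Complex.exp_log h3'⟩
      have h4 : ‖w‖ < r := by simpa using h2
      change (Complex.log w).re < _
      rw [Complex.log_re]
      exact Real.log_lt_log (norm_pos_iff.mpr h3') h4
    · rintro ⟨z, hz, rfl⟩
      refine ⟨?_, Complex.exp_ne_zero z⟩
      have hz' : z.re < Real.log r := hz
      rw [mem_ball_zero_iff, Complex.norm_exp]
      rwa [Real.lt_log_iff_exp_lt hr] at hz'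
  rw [h1]
  have h2 : Convex ℝ {z : ℂ | z.re < Real.log r} := convex_halfSpace_re_lt _
  exact h2.isPreconnected.image _ Complex.continuous_exp.continuousOn

lemma open_pball (r : ℝ) : IsOpen (Metric.ball (0 : ℂ) r \ {0}) :=
  Metric.isOpen_ball.sdiff isClosed_singleton

lemma pball_mem {r : ℝ} (hr : 0 < r) : Metric.ball (0 : ℂ) r \ {0} ∈ NE := by
  rw [Set.sdiff_eq, Set.inter_comm]
  exact inter_mem_nhdsWithin _ (Metric.ball_mem_nhds 0 hr)

lemma ev_pball {p : ℂ → Prop} (h : ∀ᶠ z in NE, p z) :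
    ∃ r : ℝ, 0 < r ∧ ∀ z ∈ Metric.ball (0 : ℂ) r \ {0}, p z := by
  rw [eventually_nhdsWithin_iff, Metric.eventually_nhds_iff_ball] at h
  obtain ⟨r, hr, h⟩ := h
  exact ⟨r, hr, fun z hz ↦ h z hz.1 hz.2⟩

/-- A germ with zero derivative is constant. -/
lemma const_of_DD {x : MG} (h : DD x = 0) : ∃ c : ℂ, x = algebraMap ℂ MG c := by
  obtain ⟨f, hf, rfl⟩ := exists_rep x
  rw [DD_mk, mk_eq_zero] at h
  obtain ⟨r, hr, h1⟩ := ev_pball (h.and (ev_diff hf))
  set U := Metric.ball (0 : ℂ) r \ {0} with hU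
  have hUo : IsOpen U := open_pball r
  obtain ⟨z0, hz0⟩ : U.Nonempty := (inferInstance : NE.NeBot).nonempty_of_mem (pball_mem hr)
  refine ⟨f z0, ?_⟩
  rw [algebraMap_MG, mk_eq_mk]
  filter_upwards [pball_mem hr] with z hz
  refine hUo.eqOn_of_deriv_eq (preconn_pball r) (fun w hw ↦ (h1 w hw).2.differentiableWithinAt)
    (differentiableOn_const _) (fun w hw ↦ ?_) hz0 (by rfl) hz
  rw [(h1 w hw).1]
  simp

lemma DD_algebraMap (c : ℂ) : DD (algebraMap ℂ MG c) = 0 := DD.map_algebraMap c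

/-- Evaluation of polynomials. -/
lemma aeval_mk {σ : Type*} (f : σ → ℂ → ℂ) (hf : ∀ i, MeromorphicAt (f i) 0)
    (P : MvPolynomial σ ℂ) : ∃ h : MeromorphicAt (fun z ↦ MvPolynomial.aeval (fun i ↦ f i z) P) 0,
      MvPolynomial.aeval (fun i ↦ mk (f i) (hf i)) P =
        mk (fun z ↦ MvPolynomial.aeval (fun i ↦ f i z) P) h := by
  induction P using MvPolynomial.induction_on with
  | C c =>
    simp only [MvPolynomial.aeval_C]
    exact ⟨MeromorphicAt.const _ _, rfl⟩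
  | add p q hp hq =>
    obtain ⟨h1, e1⟩ := hp
    obtain ⟨h2, e2⟩ := hq
    simp only [map_add, e1, e2]
    exact ⟨h1.fun_add h2, rfl⟩
  | mul_X p i hp =>
    obtain ⟨h1, e1⟩ := hp
    simp only [map_mul, MvPolynomial.aeval_X, e1]
    exact ⟨h1.fun_mul (hf i), rfl⟩

lemma aeval_mk_zero {σ : Type*} (f : σ → ℂ → ℂ) (hf : ∀ i, MeromorphicAt (f i) 0)
    (P : MvPolynomial σ ℂ) : MvPolynomial.aeval (fun i ↦ mk (f i) (hf i)) P = 0 ↔
      ∀ᶠ z in NE, MvPolynomial.aeval (fun i ↦ f i z) P = 0 := by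
  obtain ⟨h, e⟩ := aeval_mk f hf P
  rw [e, mk_eq_zero]

end H32.T4
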