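import Pool.Agent.H32.T4.A9

/-!
# Pairs: the correspondence of constant frames
-/

set_option linter.unusedSimpArgs false

open UpperHalfPlane hiding I
open Complex EisensteinSeries ModularForm MatrixGroups Manifold
open scoped Real Topology
open MvPolynomial Filter

namespace H32.T4

section gen

variable {K E : Type} [Field K] [Field E] [Algebra K E]

/-- The kernel of a derivation is a field. -/
lemma der_ker_adjoin {L : IntermediateField K E} (δ : Derivation K L E) {S : Set E}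
    (hS : ∀ x ∈ S, ∃ h : x ∈ L, δ ⟨x, h⟩ = 0) :
    ∀ y ∈ IntermediateField.adjoin K S, ∃ h : y ∈ L, δ ⟨y, h⟩ = 0 := by
  intro y hy
  induction hy using IntermediateField.adjoin_induction with
  | mem x hx => exact hS x hx
  | algebraMap x => exact ⟨L.algebraMap_mem x, δ.map_algebraMap x⟩
  | add x y _ _ h1 h2 =>
    obtain ⟨hx, h1⟩ := h1
    obtain ⟨hy, h2⟩ := h2
    refine ⟨add_mem hx hy, ?_⟩
    have : (⟨x + y, add_mem hx hy⟩ : L) = ⟨x, hx⟩ + ⟨y, hy⟩ := rfl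
    rw [this, map_add, h1, h2, add_zero]
  | inv x _ h1 =>
    obtain ⟨hx, h1⟩ := h1
    refine ⟨inv_mem hx, ?_⟩
    have e : (⟨x⁻¹, inv_mem hx⟩ : L) = (⟨x, hx⟩)⁻¹ := rfl
    rw [e, Derivation.leibniz_inv, h1, smul_zero]
  | mul x y _ _ h1 h2 =>
    obtain ⟨hx, h1⟩ := h1
    obtain ⟨hy, h2⟩ := h2
    refine ⟨mul_mem hx hy, ?_⟩
    have : (⟨x * y, mul_mem hx hy⟩ : L) = ⟨x, hx⟩ * ⟨y, hy⟩ := rfl
    rw [this, Derivation.leibniz, h1, h2, smul_zero, smul_zero, add_zero]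

lemma der_eval {L : IntermediateField K E} (δ : Derivation K L E) (x : L) (p : Polynomial L)
    (hc : ∀ i, δ (p.coeff i) = 0) :
    δ (p.eval x) = ((p.derivative.eval x : L) : E) * δ x := by
  rw [Polynomial.eval_eq_sum_range, Polynomial.derivative_eval, Polynomial.sum_over_range]
  · rw [map_sum]
    push_cast
    rw [Finset.sum_mul]
    refine Finset.sum_congr rfl fun i _ ↦ ?_
    rw [Derivation.leibniz, hc, smul_zero, add_zero, Derivation.leibniz_pow, Algebra.smul_def,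
      nsmul_eq_mul, Algebra.smul_def]
    change (p.coeff i : E) * ((i : E) * (((x ^ (i - 1) : L) : E) * δ x)) = _
    push_cast
    ring
  · intro i
    simp

lemma der_zero_of_alg [CharZero K] {L : IntermediateField K E} (δ : Derivation K L E) (x : L) :
    ∀ (n : ℕ) (p : Polynomial L), p.natDegree = n → p ≠ 0 → (∀ i, δ (p.coeff i) = 0) →
      p.eval x = 0 → δ x = 0 := by
  have : CharZero L := charZero_of_injective_algebraMap (algebraMap K L).injective
  intro n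
  induction n with
  | zero =>
    intro p hn hp _ hx
    exfalso
    rw [Polynomial.eq_C_of_natDegree_eq_zero hn, Polynomial.eval_C] at hx
    apply hp
    rw [Polynomial.eq_C_of_natDegree_eq_zero hn, hx, Polynomial.C_0]
  | succ n ih =>
    intro p hn hp hc hx
    have h1 := der_eval δ x p hc
    rw [hx, map_zero] at h1
    rcases mul_eq_zero.mp h1.symm with h2 | h2
    · refine ih p.derivative ?_ ?_ ?_ ?_
      · rw [Polynomial.natDegree_derivative, hn, Nat.add_sub_cancel]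
      · intro h3
        have := Polynomial.derivative_eq_zero.mp h3
        omega
      · intro i
        rw [Polynomial.coeff_derivative, Derivation.leibniz, hc, smul_zero, add_zero]
        have : δ ((i : L) + 1) = 0 := by
          rw [map_add, δ.map_natCast, δ.map_one_eq_zero, add_zero]
        rw [this, smul_zero]
      · exact_mod_cast h2
    · exact h2

/-- A derivation which vanishes on a transcendence basis is zero. -/
lemma der_zero [CharZero K] {L : IntermediateField K E} (δ : Derivation K L E) {S T : Set E}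
    (hL : L = IntermediateField.adjoin K T) (hS : ∀ x ∈ S, ∃ h : x ∈ L, δ ⟨x, h⟩ = 0)
    (hT : ∀ x ∈ T, IsAlgebraic (IntermediateField.adjoin K S) x) : δ = 0 := by
  refine der_ext hL δ fun x hx ↦ ?_
  obtain ⟨p, hp, hpx⟩ := hT _ hx
  have hker := der_ker_adjoin δ hS
  have hle : IntermediateField.adjoin K S ≤ L := fun y hy ↦ (hker y hy).1
  set f := IntermediateField.inclusion hle with hf
  refine der_zero_of_alg δ x _ (p.map f.toRingHom) rfl ?_ ?_ ?_
  · rw [Polynomial.map_ne_zero_iff f.injective]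
    exact hp
  · intro i
    rw [Polynomial.coeff_map]
    exact (hker _ (p.coeff i).2).2
  · apply Subtype.ext
    have h1 : ((Polynomial.eval x (p.map f.toRingHom) : L) : E) = Polynomial.aeval (x : E) p := by
      rw [Polynomial.eval_map, Polynomial.eval₂_eq_sum, Polynomial.aeval_def,
        Polynomial.eval₂_eq_sum, Polynomial.sum_def, Polynomial.sum_def]
      push_cast
      rfl
    rw [h1, hpx]
    rfl

/-- The induced derivation of the field. -/
def innerDer {L : IntermediateField K E} (δ : Derivation K L E) (h : ∀ x, δ x ∈ L) :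
    Derivation K L L :=
  Derivation.mk' (R := K) (A := L) (M := L)
    { toFun := fun x ↦ ⟨δ x, h x⟩
      map_add' := fun x y ↦ Subtype.ext (δ.map_add x y)
      map_smul' := fun c x ↦ Subtype.ext (δ.map_smul c x) }
    (fun x y ↦ Subtype.ext (δ.leibniz x y))

/-- The commutator. -/
noncomputable def brDer {L : IntermediateField K E} (δ ε : Derivation K L E) (hδ : ∀ x, δ x ∈ L)
    (hε : ∀ x, ε x ∈ L) : Derivation K L E :=
  (Algebra.linearMap L E).compDer ⁅innerDer δ hδ, innerDer ε hε⁆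

lemma brDer_apply {L : IntermediateField K E} (δ ε : Derivation K L E) (hδ : ∀ x, δ x ∈ L)
    (hε : ∀ x, ε x ∈ L) (x : L) :
    brDer δ ε hδ hε x = δ ⟨ε x, hε x⟩ - ε ⟨δ x, hδ x⟩ := by
  change ((⁅innerDer δ hδ, innerDer ε hε⁆ x : L) : E) = _
  rw [Derivation.commutator_apply]
  rfl

/-- Stability of the field under a derivation. -/
lemma der_stab {L : IntermediateField K E} (δ : Derivation K L E) {T : Set E}
    (hL : L = IntermediateField.adjoin K T) (h : ∀ x : L, (x : E) ∈ T → δ x ∈ L) :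
    ∀ x, δ x ∈ L := by
  have hs : ∀ c : L, algebraMap L E c ∈ L := fun c ↦ c.2
  have key : ∀ y ∈ IntermediateField.adjoin K T, ∀ h : y ∈ L, δ ⟨y, h⟩ ∈ L := by
    intro y hy
    induction hy using IntermediateField.adjoin_induction with
    | mem x hx => exact fun h' ↦ h _ hx
    | algebraMap x =>
      intro h'
      have e : (⟨algebraMap K E x, h'⟩ : L) = algebraMap K L x := rfl
      rw [e, δ.map_algebraMap]
      exact L.zero_mem
    | add x y hx hy h1 h2 =>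
      intro h'
      rw [← hL] at hx hy
      have : (⟨x + y, h'⟩ : L) = ⟨x, hx⟩ + ⟨y, hy⟩ := rfl
      rw [this, map_add]
      exact add_mem (h1 hx) (h2 hy)
    | inv x hx h1 =>
      intro h'
      rw [← hL] at hx
      have e : (⟨x⁻¹, h'⟩ : L) = (⟨x, hx⟩)⁻¹ := rfl
      rw [e, Derivation.leibniz_inv, Algebra.smul_def]
      exact mul_mem (hs _) (h1 hx)
    | mul x y hx hy h1 h2 =>
      intro h'
      rw [← hL] at hx hy
      have : (⟨x * y, h'⟩ : L) = ⟨x, hx⟩ * ⟨y, hy⟩ := rfl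
      rw [this, Derivation.leibniz, Algebra.smul_def, Algebra.smul_def]
      exact add_mem (mul_mem (hs _) (h2 hy)) (mul_mem (hs _) (h1 hx))
  intro x
  exact key x (hL ▸ x.2) x.2

end gen

/-- Constants. -/
noncomputable abbrev cs (c : Fin 3 → ℂ) : Fin 3 → MG := fun i ↦ algebraMap ℂ MG (c i)

section pair

variable (F : IntermediateField ℂ MG) (φ ψ : Gm)

/-- The field of the pair. -/
noncomputable def PL : IntermediateField F MG :=
  IntermediateField.adjoin F (Set.range φ.v ∪ Set.range ψ.v)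

variable {F φ ψ}

lemma memL (l : Fin 3) : φ.v l ∈ PL F φ ψ := IntermediateField.subset_adjoin _ _ (Or.inl ⟨l, rfl⟩)

lemma memR (l : Fin 3) : ψ.v l ∈ PL F φ ψ := IntermediateField.subset_adjoin _ _ (Or.inr ⟨l, rfl⟩)

variable (F φ ψ)

/-- The correspondence of constant frames. -/
def Rel (τ θ : Fin 3 → ℂ) : Prop :=
  ∃ δ : Derivation F (PL F φ ψ) MG, (∀ l, δ ⟨φ.v l, memL l⟩ = fr φ.z φ.v (cs τ) l) ∧
    (∀ l, δ ⟨ψ.v l, memR l⟩ = fr ψ.z ψ.v (cs θ) l)

variable {F φ ψ}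

lemma cs_add (c d : Fin 3 → ℂ) : cs (c + d) = cs c + cs d := by
  ext i; simp [cs]

lemma cs_smul (a : ℂ) (c : Fin 3 → ℂ) : cs (a • c) = algebraMap ℂ MG a • cs c := by
  ext i; simp [cs]

lemma cs_br (c d : Fin 3 → ℂ) : cs (br c d) = br (cs c) (cs d) := by
  ext i
  fin_cases i
  · simp [cs, br]
  · simp [cs, br, map_ofNat (algebraMap ℂ MG) 2]
  · simp [cs, br, map_ofNat (algebraMap ℂ MG) 2]

lemma Rel.add {τ θ σ ξ : Fin 3 → ℂ} (h1 : Rel F φ ψ τ θ) (h2 : Rel F φ ψ σ ξ) :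
    Rel F φ ψ (τ + σ) (θ + ξ) := by
  obtain ⟨δ, a1, b1⟩ := h1
  obtain ⟨ε, a2, b2⟩ := h2
  refine ⟨δ + ε, fun l ↦ ?_, fun l ↦ ?_⟩
  · rw [Derivation.add_apply, a1, a2, cs_add, fr_add]
  · rw [Derivation.add_apply, b1, b2, cs_add, fr_add]

lemma Rel.smul {τ θ : Fin 3 → ℂ} (h1 : Rel F φ ψ τ θ) (a : ℂ) :
    Rel F φ ψ (a • τ) (a • θ) := by
  obtain ⟨δ, a1, b1⟩ := h1
  refine ⟨algebraMap ℂ MG a • δ, fun l ↦ ?_, fun l ↦ ?_⟩
  · rw [Derivation.smul_apply, a1, cs_smul, fr_smul, smul_eq_mul]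
  · rw [Derivation.smul_apply, b1, cs_smul, fr_smul, smul_eq_mul]

/-- The frame as an element of the field. -/
lemma fr_mem {L : IntermediateField F MG} {z : MG} (hz : z ∈ F) {v : Fin 3 → MG}
    (hv : ∀ l, v l ∈ L) (c : Fin 3 → ℂ) (l : Fin 3) :
    fr z v (cs c) l = ((fr (algebraMap F L ⟨z, hz⟩) (fun l ↦ (⟨v l, hv l⟩ : L))
      (fun i ↦ algebraMap ℂ L (c i)) l : L) : MG) := by
  have h1 := map_fr (IsScalarTower.toAlgHom ℂ L MG) (algebraMap F L ⟨z, hz⟩)
    (fun l ↦ (⟨v l, hv l⟩ : L)) (fun i ↦ algebraMap ℂ L (c i)) l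
  exact h1.symm

lemma Rel.stab (hφ : φ.z ∈ F) (hψ : ψ.z ∈ F) {τ θ : Fin 3 → ℂ}
    {δ : Derivation F (PL F φ ψ) MG} (h1 : ∀ l, δ ⟨φ.v l, memL l⟩ = fr φ.z φ.v (cs τ) l)
    (h2 : ∀ l, δ ⟨ψ.v l, memR l⟩ = fr ψ.z ψ.v (cs θ) l) : ∀ x, δ x ∈ PL F φ ψ := by
  refine der_stab δ rfl ?_
  rintro ⟨x, hx⟩ (⟨l, rfl⟩ | ⟨l, rfl⟩)
  · rw [h1, fr_mem hφ (fun l ↦ memL (F := F) (φ := φ) (ψ := ψ) l)]
    exact Subtype.mem _
  · rw [h2, fr_mem hψ (fun l ↦ memR (F := F) (φ := φ) (ψ := ψ) l)]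
    exact Subtype.mem _

/-- The commutator of two constant frames. -/
lemma der_fr_br {L : IntermediateField F MG} {z : MG} (hz : z ∈ F) {v : Fin 3 → MG}
    (hv : ∀ l, v l ∈ L) (τ σ : Fin 3 → ℂ) (δ ε : Derivation F L MG) (hδ : ∀ x, δ x ∈ L)
    (hε : ∀ x, ε x ∈ L) (h1 : ∀ l, δ ⟨v l, hv l⟩ = fr z v (cs τ) l)
    (h2 : ∀ l, ε ⟨v l, hv l⟩ = fr z v (cs σ) l) (l : Fin 3) :
    brDer δ ε hδ hε ⟨v l, hv l⟩ = fr z v (cs (br τ σ)) l := by
  rw [brDer_apply, cs_br, ← Jf_bracket]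
  have key : ∀ (δ ε : Derivation F L MG) (τ σ : Fin 3 → ℂ) (hε : ∀ x, ε x ∈ L)
      (h1 : ∀ l, δ ⟨v l, hv l⟩ = fr z v (cs τ) l) (h2 : ∀ l, ε ⟨v l, hv l⟩ = fr z v (cs σ) l),
      δ ⟨ε ⟨v l, hv l⟩, hε _⟩ = Jf z v (cs σ) (fr z v (cs τ)) l := by
    intro δ ε τ σ hε h1 h2
    have e1 : (⟨ε ⟨v l, hv l⟩, hε _⟩ : L) = fr (algebraMap F L ⟨z, hz⟩)
        (fun l ↦ (⟨v l, hv l⟩ : L)) (fun i ↦ algebraMap ℂ L (σ i)) l := by
      apply Subtype.ext
      rw [← fr_mem hz hv, ← h2]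
    rw [e1]
    have h3 := der_fr (δ.restrictScalars ℂ) (algebraMap F L ⟨z, hz⟩)
      (fun l ↦ (⟨v l, hv l⟩ : L)) (fun i ↦ algebraMap ℂ L (σ i)) (δ.map_algebraMap _)
      (fun i ↦ (δ.restrictScalars ℂ).map_algebraMap _) l
    change δ _ = Jf z v (cs σ) (fun i ↦ δ ⟨v i, hv i⟩) l at h3
    rw [h3]
    congr 1
    ext i
    exact h1 i
  rw [key δ ε τ σ hε h1 h2, key ε δ σ τ hδ h2 h1]

lemma Rel.br (hφ : φ.z ∈ F) (hψ : ψ.z ∈ F) {τ θ σ ξ : Fin 3 → ℂ} (h1 : Rel F φ ψ τ θ)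
    (h2 : Rel F φ ψ σ ξ) : Rel F φ ψ (br τ σ) (br θ ξ) := by
  obtain ⟨δ, a1, b1⟩ := h1
  obtain ⟨ε, a2, b2⟩ := h2
  have hδ := Rel.stab hφ hψ a1 b1
  have hε := Rel.stab hφ hψ a2 b2
  refine ⟨brDer δ ε hδ hε, ?_, ?_⟩
  · exact der_fr_br hφ (fun l ↦ memL l) τ σ δ ε hδ hε a1 a2
  · exact der_fr_br hψ (fun l ↦ memR l) θ ξ δ ε hδ hε b1 b2

end pair

end H32.T4
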