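import Pool.Agent.H32.T4.A10

/-!
# Pairs: the isomorphism of Lie algebras
-/

set_option linter.unusedSimpArgs false

open UpperHalfPlane hiding I
open Complex EisensteinSeries ModularForm MatrixGroups Manifold
open scoped Real Topology
open MvPolynomial Filter

namespace H32.T4

/-- The hypotheses on a pair. -/
structure PairHyp (F : IntermediateField ℂ MG) (φ ψ : Gm) : Prop where
  stab : Stab F
  hφ : φ.z ∈ F
  hψ : ψ.z ∈ F
  ind : AlgebraicIndependent F φ.v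
  alg : ∀ l, IsAlgebraic (IntermediateField.adjoin F (Set.range φ.v)) (ψ.v l)
  alg' : ∀ l, IsAlgebraic (IntermediateField.adjoin F (Set.range ψ.v)) (φ.v l)

variable {F : IntermediateField ℂ MG} {φ ψ : Gm}

lemma alg_self {S : Set MG} {x : MG} (hx : x ∈ S) :
    IsAlgebraic (IntermediateField.adjoin F S) x :=
  isAlgebraic_algebraMap (⟨x, IntermediateField.subset_adjoin _ _ hx⟩ :
    IntermediateField.adjoin F S)

lemma PairHyp.zero_left (h : PairHyp F φ ψ) (δ : Derivation F (PL F φ ψ) MG)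
    (h1 : ∀ l, δ ⟨φ.v l, memL l⟩ = 0) : δ = 0 := by
  refine der_zero δ (S := Set.range φ.v) rfl ?_ ?_
  · rintro _ ⟨l, rfl⟩
    exact ⟨memL l, h1 l⟩
  · rintro _ (⟨l, rfl⟩ | ⟨l, rfl⟩)
    · exact alg_self ⟨l, rfl⟩
    · exact h.alg l

lemma PairHyp.zero_right (h : PairHyp F φ ψ) (δ : Derivation F (PL F φ ψ) MG)
    (h1 : ∀ l, δ ⟨ψ.v l, memR l⟩ = 0) : δ = 0 := by
  refine der_zero δ (S := Set.range ψ.v) rfl ?_ ?_
  · rintro _ ⟨l, rfl⟩
    exact ⟨memR l, h1 l⟩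
  · rintro _ (⟨l, rfl⟩ | ⟨l, rfl⟩)
    · exact h.alg' l
    · exact alg_self ⟨l, rfl⟩

lemma cs_inj {c : Fin 3 → ℂ} (h : cs c = 0) : c = 0 := by
  ext i
  have := congrFun h i
  exact (map_eq_zero (algebraMap ℂ MG)).mp this

lemma Rel.right_zero (h : PairHyp F φ ψ) {θ : Fin 3 → ℂ} (h1 : Rel F φ ψ 0 θ) : θ = 0 := by
  obtain ⟨δ, a, b⟩ := h1
  have h0 : cs 0 = 0 := by ext i; simp [cs]
  have hδ := h.zero_left δ (fun l ↦ by rw [a, h0, fr_zero])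
  apply cs_inj
  refine fr_inj ψ.disc_v (z := ψ.z) fun l ↦ ?_
  rw [← b, hδ]
  rfl

lemma Rel.left_zero (h : PairHyp F φ ψ) {τ : Fin 3 → ℂ} (h1 : Rel F φ ψ τ 0) : τ = 0 := by
  obtain ⟨δ, a, b⟩ := h1
  have h0 : cs 0 = 0 := by ext i; simp [cs]
  have hδ := h.zero_right δ (fun l ↦ by rw [b, h0, fr_zero])
  apply cs_inj
  refine fr_inj φ.disc_v (z := φ.z) fun l ↦ ?_
  rw [← a, hδ]
  rfl

lemma Rel.unique (h : PairHyp F φ ψ) {τ θ θ' : Fin 3 → ℂ} (h1 : Rel F φ ψ τ θ)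
    (h2 : Rel F φ ψ τ θ') : θ = θ' := by
  have h3 := h1.add (h2.smul (-1))
  have e : τ + (-1 : ℂ) • τ = 0 := by simp
  rw [e] at h3
  have h4 := Rel.right_zero h h3
  have h5 : θ - θ' = 0 := by
    rw [← h4]
    simp [sub_eq_add_neg]
  exact sub_eq_zero.mp h5

lemma mem_stab (hF : Stab F) (hφ : φ.z ∈ F) (hψ : ψ.z ∈ F) :
    ∀ x ∈ PL F φ ψ, DD x ∈ PL F φ ψ := by
  refine stab_adjoin hF _ rfl ?_
  have key : ∀ (χ : Gm) (hχ : χ.z ∈ F) (hm : ∀ l, χ.v l ∈ PL F φ ψ) (l : Fin 3),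
      DD (χ.v l) ∈ PL F φ ψ := by
    intro χ hχ hm l
    rw [χ.DD_v]
    have h1 := map_Rm (IsScalarTower.toAlgHom ℂ (PL F φ ψ) MG)
      (fun l ↦ (⟨χ.v l, hm l⟩ : PL F φ ψ)) l
    change ((Rm (fun l ↦ (⟨χ.v l, hm l⟩ : PL F φ ψ)) l : PL F φ ψ) : MG) = Rm χ.v l at h1
    rw [← h1]
    exact mul_mem ((PL F φ ψ).algebraMap_mem ⟨DD χ.z, hF _ hχ⟩) (Subtype.mem _)
  rintro _ (⟨l, rfl⟩ | ⟨l, rfl⟩)
  · exact key φ hφ (fun l ↦ memL l) l
  · exact key ψ hψ (fun l ↦ memR l) l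

lemma Rel.exists (h : PairHyp F φ ψ) (τ : Fin 3 → ℂ) : ∃ θ, Rel F φ ψ τ θ := by
  have hFG : (PL F φ ψ).FG := IntermediateField.fg_adjoin_of_finite
    ((Set.finite_range _).union (Set.finite_range _))
  set w : Fin 3 → PL F φ ψ := fun l ↦ ⟨φ.v l, memL l⟩ with hw
  have hind : AlgebraicIndependent F w :=
    AlgebraicIndependent.of_comp (IsScalarTower.toAlgHom F (PL F φ ψ) MG) h.ind
  obtain ⟨δ, hδ⟩ := exists_der_ext (PL F φ ψ) hFG hind (fr φ.z φ.v (cs τ))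
  obtain ⟨ξ, hξ⟩ := fr_surj ψ.z ψ.disc_v (fun l ↦ δ ⟨ψ.v l, memR l⟩)
  have hLs := mem_stab (φ := φ) (ψ := ψ) h.stab h.hφ h.hψ
  have h0 : ∀ c : Fin 3 → ℂ, (fun i ↦ DD (cs c i)) = 0 := by
    intro c
    ext i
    exact DD_algebraMap _
  have hc0 : cmt h.stab hLs δ = 0 := by
    refine h.zero_left _ fun l ↦ ?_
    have h1 := cmt_fr h.stab hLs δ h.hφ w (fun l ↦ φ.DD_v l) (cs τ) (fun l ↦ hδ l) l
    rw [h0, fr_zero] at h1
    exact h1
  have h2 : ∀ l, fr ψ.z ψ.v (fun i ↦ DD (ξ i)) l = 0 := by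
    intro l
    have h1 := cmt_fr h.stab hLs δ h.hψ (fun l ↦ ⟨ψ.v l, memR l⟩) (fun l ↦ ψ.DD_v l) ξ
      (fun l ↦ (hξ l).symm) l
    rw [hc0] at h1
    exact h1.symm
  have h3 := fr_inj ψ.disc_v h2
  choose θ hθ using fun i ↦ const_of_DD (congrFun h3 i)
  have h4 : ξ = cs θ := funext hθ
  refine ⟨θ, δ, hδ, fun l ↦ ?_⟩
  rw [← h4, hξ]

/-- Nilpotency from the bracket. -/
lemma nil_of_br {σ N : Fin 3 → ℂ} (h : br σ N = (2 : ℂ) • N) : N 0 ^ 2 + N 1 * N 2 = 0 := by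
  have h0 := congrFun h 0
  have h1 := congrFun h 1
  have h2 := congrFun h 2
  simp only [br, Matrix.cons_val_zero, Matrix.cons_val_one, Matrix.cons_val, Pi.smul_apply,
    smul_eq_mul] at h0 h1 h2
  linear_combination (-N 0 / 2) * h0 - (N 2 / 4) * h1 - (N 1 / 4) * h2

/-- The triple. -/
theorem exists_triple (h : PairHyp F φ ψ) : ∃ A B C : Fin 3 → ℂ, A ≠ 0 ∧ C ≠ 0 ∧
    Rel F φ ψ ![0, 1, 0] A ∧ Rel F φ ψ ![0, 0, 1] C ∧ B = br A C ∧
    br B A = (2 : ℂ) • A ∧ br B C = (-2 : ℂ) • C ∧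
    ∀ x : ℂ, Rel F φ ψ ![x, -x ^ 2, 1] (x • B - x ^ 2 • A + C) ∧
      br (-B + (2 * x) • A) (x • B - x ^ 2 • A + C) = (2 : ℂ) • (x • B - x ^ 2 • A + C) := by
  obtain ⟨A, hA⟩ := Rel.exists h ![0, 1, 0]
  obtain ⟨C, hC⟩ := Rel.exists h ![0, 0, 1]
  have hB := Rel.br h.hφ h.hψ hA hC
  have hA0 : A ≠ 0 := by
    rintro rfl
    have := congrFun (Rel.left_zero h hA) 1
    simp at this
  have hC0 : C ≠ 0 := by
    rintro rfl
    have := congrFun (Rel.left_zero h hC) 2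
    simp at this
  have hx : ∀ x : ℂ, Rel F φ ψ ![x, -x ^ 2, 1] (x • br A C - x ^ 2 • A + C) := by
    intro x
    have h1 := ((hB.smul x).add (hA.smul (-x ^ 2))).add hC
    have e1 : x • br (![0, 1, 0] : Fin 3 → ℂ) ![0, 0, 1] + (-x ^ 2) • ![0, 1, 0] + ![0, 0, 1] =
        ![x, -x ^ 2, 1] := by
      ext i
      fin_cases i
      · simp [br]
      · simp [br]
      · simp [br]
    have e2 : x • br A C + (-x ^ 2) • A + C = x • br A C - x ^ 2 • A + C := by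
      ext i
      simp only [Pi.add_apply, Pi.sub_apply, Pi.smul_apply, smul_eq_mul]
      ring
    rw [e1, e2] at h1
    exact h1
  refine ⟨A, br A C, C, hA0, hC0, hA, hC, rfl, ?_, ?_, fun x ↦ ⟨hx x, ?_⟩⟩
  · refine Rel.unique h (Rel.br h.hφ h.hψ hB hA) ?_
    have e : br (br (![0, 1, 0] : Fin 3 → ℂ) ![0, 0, 1]) ![0, 1, 0] = (2 : ℂ) • ![0, 1, 0] := by
      ext i
      fin_cases i
      · simp [br]
      · simp [br]
      · simp [br]
    rw [e]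
    exact hA.smul 2
  · refine Rel.unique h (Rel.br h.hφ h.hψ hB hC) ?_
    have e : br (br (![0, 1, 0] : Fin 3 → ℂ) ![0, 0, 1]) ![0, 0, 1] = (-2 : ℂ) • ![0, 0, 1] := by
      ext i
      fin_cases i
      · simp [br]
      · simp [br]
      · simp [br]
    rw [e]
    exact hC.smul (-2)
  · have h1 : Rel F φ ψ (-br (![0, 1, 0] : Fin 3 → ℂ) ![0, 0, 1] + (2 * x) • ![0, 1, 0])
        (-br A C + (2 * x) • A) := by
      have := (hB.smul (-1)).add (hA.smul (2 * x))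
      rwa [neg_one_smul, neg_one_smul] at this
    refine Rel.unique h (Rel.br h.hφ h.hψ h1 (hx x)) ?_
    have e : br (-br (![0, 1, 0] : Fin 3 → ℂ) ![0, 0, 1] + (2 * x) • ![0, 1, 0]) ![x, -x ^ 2, 1] =
        (2 : ℂ) • ![x, -x ^ 2, 1] := by
      ext i
      fin_cases i
      · simp [br]
      · simp [br]; ring
      · simp [br]
    rw [e]
    exact (hx x).smul 2

end H32.T4
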