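import Pool.Agent.H32.T4.A11

/-!
# Nilpotent flows
-/

set_option linter.unusedSimpArgs false

open UpperHalfPlane hiding I
open Complex EisensteinSeries ModularForm MatrixGroups Manifold
open scoped Real Topology
open MvPolynomial Filter

namespace H32.T4

/-- The automorphy factor along the flow. -/
noncomputable def jj (w0 : ℂ) (c : Fin 3 → ℂ) (ε : ℂ) : ℂ := 1 + ε * (c 2 * w0 - c 0)

/-- The point along the flow. -/
noncomputable def ww (w0 : ℂ) (c : Fin 3 → ℂ) (ε : ℂ) : ℂ :=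
  (w0 + ε * (c 0 * w0 + c 1)) / jj w0 c ε

/-- The flow of a nilpotent frame. -/
noncomputable def flw (w0 : ℂ) (c : Fin 3 → ℂ) (ε : ℂ) : Fin 3 → ℂ :=
  ![(jj w0 c ε)⁻¹ ^ 2 * e2 (ww w0 c ε) + cK ℂ * ε * c 2 * (jj w0 c ε)⁻¹,
    (jj w0 c ε)⁻¹ ^ 4 * e4 (ww w0 c ε), (jj w0 c ε)⁻¹ ^ 6 * e6 (ww w0 c ε)]

lemma hasDeriv_jj (w0 : ℂ) (c : Fin 3 → ℂ) (ε : ℂ) :
    HasDerivAt (jj w0 c) (c 2 * w0 - c 0) ε := by
  have h := ((hasDerivAt_id ε).mul_const (c 2 * w0 - c 0)).const_add 1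
  rw [one_mul] at h
  exact h

lemma hasDeriv_jinv {w0 : ℂ} {c : Fin 3 → ℂ} {ε : ℂ} (hj : jj w0 c ε ≠ 0) :
    HasDerivAt (fun ε ↦ (jj w0 c ε)⁻¹) ((c 0 - c 2 * w0) * (jj w0 c ε)⁻¹ ^ 2) ε := by
  have h := (hasDeriv_jj w0 c ε).fun_inv hj
  refine h.congr_deriv ?_
  rw [neg_sub, div_eq_mul_inv, inv_pow]

lemma hasDeriv_ww {w0 : ℂ} {c : Fin 3 → ℂ} {ε : ℂ} (hj : jj w0 c ε ≠ 0) :
    HasDerivAt (ww w0 c) (bb c w0 * (jj w0 c ε)⁻¹ ^ 2) ε := by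
  have h1 : HasDerivAt (fun ε : ℂ ↦ w0 + ε * (c 0 * w0 + c 1)) (c 0 * w0 + c 1) ε := by
    have h := ((hasDerivAt_id ε).mul_const (c 0 * w0 + c 1)).const_add w0
    simpa using h
  have h := h1.fun_mul (hasDeriv_jinv hj)
  have hi : (jj w0 c ε)⁻¹ * jj w0 c ε = 1 := inv_mul_cancel₀ hj
  have h2 : HasDerivAt (ww w0 c) _ ε := h
  refine h2.congr_deriv ?_
  unfold bb
  unfold jj at hi ⊢
  linear_combination (-(c 0 * w0 + c 1) * (1 + ε * (c 2 * w0 - c 0))⁻¹) * hi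

lemma nil_s {c : Fin 3 → ℂ} (hn : c 0 ^ 2 + c 1 * c 2 = 0) (w0 : ℂ) :
    (c 0 - c 2 * w0) ^ 2 + bb c w0 * c 2 = 0 := by
  unfold bb
  linear_combination hn

lemma alg_f0 {A κ i ε s0 b0 r e2 e4 : ℂ} (hAK : A * κ = -1) (hi : i * (1 - ε * s0) = 1)
    (hn : s0 ^ 2 + b0 * r = 0) :
    2 * i * (s0 * i ^ 2) * e2 + i ^ 2 * (A * (e2 ^ 2 - e4) * (b0 * i ^ 2)) +
      (κ * r * i + κ * ε * r * (s0 * i ^ 2)) =
    b0 * (A * ((i ^ 2 * e2 + κ * ε * r * i) ^ 2 - i ^ 4 * e4)) +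
      2 * s0 * (i ^ 2 * e2 + κ * ε * r * i) + r * κ := by
  linear_combination (-2 * b0 * ε * r * i ^ 3 * e2 - b0 * κ * ε ^ 2 * r ^ 2 * i ^ 2) * hAK +
    (2 * i ^ 2 * e2 * s0 + κ * r * (1 + ε * s0 * i)) * hi +
    (2 * i ^ 3 * e2 * ε + κ * r * ε ^ 2 * i ^ 2) * hn

lemma alg_f1 {A κ i ε s0 b0 r e2 e4 e6 : ℂ} (hAK : A * κ = -1) (hi : i * (1 - ε * s0) = 1)
    (hn : s0 ^ 2 + b0 * r = 0) :
    4 * i ^ 3 * (s0 * i ^ 2) * e4 + i ^ 4 * (4 * A * (e2 * e4 - e6) * (b0 * i ^ 2)) =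
    b0 * (4 * A * ((i ^ 2 * e2 + κ * ε * r * i) * (i ^ 4 * e4) - i ^ 6 * e6)) +
      4 * s0 * (i ^ 4 * e4) := by
  linear_combination (-4 * i ^ 4 * e4 * b0 * ε * r * i) * hAK + (4 * i ^ 4 * e4 * s0) * hi +
    (4 * i ^ 4 * e4 * ε * i) * hn

lemma alg_f2 {A κ i ε s0 b0 r e2 e4 e6 : ℂ} (hAK : A * κ = -1) (hi : i * (1 - ε * s0) = 1)
    (hn : s0 ^ 2 + b0 * r = 0) :
    6 * i ^ 5 * (s0 * i ^ 2) * e6 + i ^ 6 * (6 * A * (e2 * e6 - e4 ^ 2) * (b0 * i ^ 2)) =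
    b0 * (6 * A * ((i ^ 2 * e2 + κ * ε * r * i) * (i ^ 6 * e6) - (i ^ 4 * e4) ^ 2)) +
      6 * s0 * (i ^ 6 * e6) := by
  linear_combination (-6 * i ^ 6 * e6 * b0 * ε * r * i) * hAK + (6 * i ^ 6 * e6 * s0) * hi +
    (6 * i ^ 6 * e6 * ε * i) * hn

lemma hasDeriv_flw {w0 ε : ℂ} {c : Fin 3 → ℂ} (hn : c 0 ^ 2 + c 1 * c 2 = 0)
    (hj : jj w0 c ε ≠ 0) (hw : 0 < (ww w0 c ε).im) (l : Fin 3) :
    HasDerivAt (fun ε ↦ flw w0 c ε l) (fr w0 (flw w0 c ε) c l) ε := by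
  have hAK : cA ℂ * cK ℂ = -1 := cA_mul_cK
  have hi : (jj w0 c ε)⁻¹ * (1 - ε * (c 0 - c 2 * w0)) = 1 := by
    have : 1 - ε * (c 0 - c 2 * w0) = jj w0 c ε := by unfold jj; ring
    rw [this, inv_mul_cancel₀ hj]
  have hns := nil_s hn w0
  have hb0 : c 1 + 2 * c 0 * w0 - c 2 * w0 ^ 2 = bb c w0 := rfl
  have hJ := hasDeriv_jinv hj
  have hW := hasDeriv_ww hj
  fin_cases l
  · have h2 := (hasDeriv_ee hw 0).comp ε hW
    have h3 : HasDerivAt (fun ε : ℂ ↦ cK ℂ * ε * c 2) (cK ℂ * c 2) ε := by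
      have h := ((hasDerivAt_id ε).const_mul (cK ℂ)).mul_const (c 2)
      simpa using h
    have h4 := ((hJ.fun_pow 2).fun_mul h2).fun_add (h3.fun_mul hJ)
    refine h4.congr_deriv ?_
    have := alg_f0 (e2 := e2 (ww w0 c ε)) (e4 := e4 (ww w0 c ε)) hAK hi hns
    simp only [fr, Rm, ee, flw, Matrix.cons_val_zero, Matrix.cons_val_one, Matrix.cons_val,
      Fin.zero_eta, hb0, Function.comp, Nat.cast_ofNat, Nat.add_one_sub_one, pow_one] at this ⊢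
    linear_combination this
  · have h2 := (hasDeriv_ee hw 1).comp ε hW
    have h4 := (hJ.fun_pow 4).fun_mul h2
    refine h4.congr_deriv ?_
    have := alg_f1 (e2 := e2 (ww w0 c ε)) (e4 := e4 (ww w0 c ε)) (e6 := e6 (ww w0 c ε)) hAK hi hns
    simp only [fr, Rm, ee, flw, Matrix.cons_val_zero, Matrix.cons_val_one, Matrix.cons_val,
      Fin.mk_one, hb0, Function.comp, Nat.cast_ofNat, Nat.add_one_sub_one, pow_one] at this ⊢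
    linear_combination this
  · have h2 := (hasDeriv_ee hw 2).comp ε hW
    have h4 := (hJ.fun_pow 6).fun_mul h2
    refine h4.congr_deriv ?_
    have := alg_f2 (e2 := e2 (ww w0 c ε)) (e4 := e4 (ww w0 c ε)) (e6 := e6 (ww w0 c ε)) hAK hi hns
    simp only [fr, Rm, ee, flw, Matrix.cons_val_zero, Matrix.cons_val_one, Matrix.cons_val,
      Fin.reduceFinMk, hb0, Function.comp, Nat.cast_ofNat, Nat.add_one_sub_one, pow_one] at this ⊢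
    linear_combination this

lemma jj_zero (w0 : ℂ) (c : Fin 3 → ℂ) : jj w0 c 0 = 1 := by simp [jj]

lemma ww_zero (w0 : ℂ) (c : Fin 3 → ℂ) : ww w0 c 0 = w0 := by simp [ww, jj]

lemma flw_zero (w0 : ℂ) (c : Fin 3 → ℂ) : flw w0 c 0 = ee w0 := by
  ext l
  fin_cases l
  · simp [flw, ee, jj_zero, ww_zero]
  · simp [flw, ee, jj_zero, ww_zero]
  · simp [flw, ee, jj_zero, ww_zero]

lemma ev_jj (w0 : ℂ) (c : Fin 3 → ℂ) : ∀ᶠ ε in 𝓝 (0 : ℂ), jj w0 c ε ≠ 0 := by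
  have h : ContinuousAt (jj w0 c) 0 := (hasDeriv_jj w0 c 0).continuousAt
  exact h.eventually_ne (by rw [jj_zero]; exact one_ne_zero)

lemma ev_ww {w0 : ℂ} (hw : 0 < w0.im) (c : Fin 3 → ℂ) :
    ∀ᶠ ε in 𝓝 (0 : ℂ), 0 < (ww w0 c ε).im := by
  have h : ContinuousAt (ww w0 c) 0 := (hasDeriv_ww (by rw [jj_zero]; exact one_ne_zero)).continuousAt
  have h2 : ContinuousAt (fun ε ↦ (ww w0 c ε).im) 0 := Complex.continuous_im.continuousAt.comp h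
  refine h2.eventually (lt_mem_nhds ?_)
  beta_reduce
  rw [ww_zero]
  exact hw

lemma analytic_flw {w0 : ℂ} (hw : 0 < w0.im) {c : Fin 3 → ℂ} (hn : c 0 ^ 2 + c 1 * c 2 = 0)
    (l : Fin 3) : AnalyticAt ℂ (fun ε ↦ flw w0 c ε l) 0 := by
  rw [Complex.analyticAt_iff_eventually_differentiableAt]
  filter_upwards [ev_jj w0 c, ev_ww hw c] with ε h1 h2
  exact (hasDeriv_flw hn h1 h2 l).differentiableAt

/-- The derivation of polynomials in the pair. -/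
noncomputable def pd2 (w0 y0 : ℂ) (c d : Fin 3 → ℂ) :
    Derivation ℂ (MvPolynomial (Fin 3 ⊕ Fin 3) ℂ) (MvPolynomial (Fin 3 ⊕ Fin 3) ℂ) :=
  mkDerivation ℂ (Sum.elim
    (fun l ↦ fr (C w0) (fun l ↦ X (Sum.inl l)) (fun i ↦ C (c i)) l)
    (fun l ↦ fr (C y0) (fun l ↦ X (Sum.inr l)) (fun i ↦ C (d i)) l))

lemma aeval_pd2_inl (w0 y0 : ℂ) (c d : Fin 3 → ℂ) (x : Fin 3 ⊕ Fin 3 → ℂ) (l : Fin 3) :
    aeval x (pd2 w0 y0 c d (X (Sum.inl l))) = fr w0 (fun l ↦ x (Sum.inl l)) c l := by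
  rw [pd2, mkDerivation_X, Sum.elim_inl]
  have h := map_fr (aeval x : MvPolynomial (Fin 3 ⊕ Fin 3) ℂ →ₐ[ℂ] ℂ) (C w0)
    (fun l ↦ X (Sum.inl l)) (fun i ↦ C (c i)) l
  rw [h]
  simp

lemma aeval_pd2_inr (w0 y0 : ℂ) (c d : Fin 3 → ℂ) (x : Fin 3 ⊕ Fin 3 → ℂ) (l : Fin 3) :
    aeval x (pd2 w0 y0 c d (X (Sum.inr l))) = fr y0 (fun l ↦ x (Sum.inr l)) d l := by
  rw [pd2, mkDerivation_X, Sum.elim_inr]
  have h := map_fr (aeval x : MvPolynomial (Fin 3 ⊕ Fin 3) ℂ →ₐ[ℂ] ℂ) (C y0)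
    (fun l ↦ X (Sum.inr l)) (fun i ↦ C (d i)) l
  rw [h]
  simp

lemma hasDeriv_pd2 {w0 y0 ε : ℂ} {c d : Fin 3 → ℂ} (hc : c 0 ^ 2 + c 1 * c 2 = 0)
    (hd : d 0 ^ 2 + d 1 * d 2 = 0) (h1 : jj w0 c ε ≠ 0) (h2 : 0 < (ww w0 c ε).im)
    (h3 : jj y0 d ε ≠ 0) (h4 : 0 < (ww y0 d ε).im) (P : MvPolynomial (Fin 3 ⊕ Fin 3) ℂ) :
    HasDerivAt (fun ε ↦ aeval (Sum.elim (flw w0 c ε) (flw y0 d ε)) P)
      (aeval (Sum.elim (flw w0 c ε) (flw y0 d ε)) (pd2 w0 y0 c d P)) ε := by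
  induction P using MvPolynomial.induction_on with
  | C a =>
    have e : pd2 w0 y0 c d (C a) = 0 := (pd2 w0 y0 c d).map_algebraMap a
    simp only [aeval_C, e, map_zero]
    exact hasDerivAt_const _ _
  | add p q hp hq =>
    simp only [map_add]
    exact hp.add hq
  | mul_X p i hp =>
    rcases i with i | i
    · simp only [map_mul, aeval_X, Derivation.leibniz, smul_eq_mul, map_add, aeval_pd2_inl,
        Sum.elim_inl]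
      refine (hp.mul (hasDeriv_flw hc h1 h2 i)).congr_deriv ?_
      ring
    · simp only [map_mul, aeval_X, Derivation.leibniz, smul_eq_mul, map_add, aeval_pd2_inr,
        Sum.elim_inr]
      refine (hp.mul (hasDeriv_flw hd h3 h4 i)).congr_deriv ?_
      ring

theorem flow2 {w0 y0 : ℂ} {c d : Fin 3 → ℂ} (hw : 0 < w0.im) (hy : 0 < y0.im)
    (hc : c 0 ^ 2 + c 1 * c 2 = 0) (hd : d 0 ^ 2 + d 1 * d 2 = 0)
    (P : MvPolynomial (Fin 3 ⊕ Fin 3) ℂ)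
    (h : ∀ n, aeval (Sum.elim (ee w0) (ee y0)) ((pd2 w0 y0 c d)^[n] P) = 0) :
    ∀ᶠ ε in 𝓝 (0 : ℂ), aeval (Sum.elim (flw w0 c ε) (flw y0 d ε)) P = 0 := by
  refine flow_zero (f := fun n ε ↦ aeval (Sum.elim (flw w0 c ε) (flw y0 d ε))
    ((pd2 w0 y0 c d)^[n] P)) (b := fun _ ↦ 1) (w0 := 0) (fun n ↦ ?_) analyticAt_const
    one_ne_zero (fun n ↦ ?_) (fun n ↦ ?_)
  · refine AnalyticAt.aeval_mvPolynomial (fun i ↦ ?_) _
    rcases i with i | i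
    · exact analytic_flw hw hc i
    · exact analytic_flw hy hd i
  · filter_upwards [ev_jj w0 c, ev_ww hw c, ev_jj y0 d, ev_ww hy d] with ε h1 h2 h3 h4
    rw [(hasDeriv_pd2 hc hd h1 h2 h3 h4 ((pd2 w0 y0 c d)^[n] P)).deriv,
      Function.iterate_succ_apply', one_mul]
  · rw [flw_zero, flw_zero]
    exact h n

end H32.T4
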