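import Pool.Agent.H32.T4.A12

/-!
# The flow of a pair at generic points
-/

set_option linter.unusedSimpArgs false

open UpperHalfPlane hiding I
open Complex EisensteinSeries ModularForm MatrixGroups Manifold
open scoped Real Topology
open MvPolynomial Filter

namespace H32.T4

section universal

variable {ι σ : Type}

/-- The universal derivation. -/
noncomputable def Pg (D : σ → MvPolynomial (ι ⊕ σ) ℂ) :
    Derivation ℂ (MvPolynomial (ι ⊕ σ) ℂ) (MvPolynomial (ι ⊕ σ) ℂ) :=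
  mkDerivation ℂ (Sum.elim (fun _ ↦ 0) D)

lemma Pg_inl (D : σ → MvPolynomial (ι ⊕ σ) ℂ) (i : ι) : Pg D (X (Sum.inl i)) = 0 := by
  rw [Pg, mkDerivation_X, Sum.elim_inl]

lemma Pg_inr (D : σ → MvPolynomial (ι ⊕ σ) ℂ) (i : σ) : Pg D (X (Sum.inr i)) = D i := by
  rw [Pg, mkDerivation_X, Sum.elim_inr]

lemma Pg_C (D : σ → MvPolynomial (ι ⊕ σ) ℂ) (a : ℂ) : Pg D (C a) = 0 :=
  (Pg D).map_algebraMap a

lemma coe_aeval {K : IntermediateField ℂ MG} {L : IntermediateField K MG} (k : ι → K) (w : σ → L)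
    (P : MvPolynomial (ι ⊕ σ) ℂ) :
    ((aeval (Sum.elim (fun i ↦ algebraMap K L (k i)) w) P : L) : MG) =
      aeval (Sum.elim (fun i ↦ (k i : MG)) (fun i ↦ (w i : MG))) P := by
  have h1 : (IsScalarTower.toAlgHom ℂ L MG).comp
      (aeval (Sum.elim (fun i ↦ algebraMap K L (k i)) w)) =
      aeval (Sum.elim (fun i ↦ (k i : MG)) (fun i ↦ (w i : MG))) := by
    apply MvPolynomial.algHom_ext
    rintro (i | i)
    · simp only [AlgHom.comp_apply, aeval_X, Sum.elim_inl]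
      rfl
    · simp only [AlgHom.comp_apply, aeval_X, Sum.elim_inr]
      rfl
  exact congrArg (fun f ↦ f P) h1

/-- Compatibility with a derivation of the field. -/
lemma der_Pg {K : IntermediateField ℂ MG} {L : IntermediateField K MG} (δ : Derivation K L MG)
    (D : σ → MvPolynomial (ι ⊕ σ) ℂ) (k : ι → K) (w : σ → L)
    (hδ : ∀ s, δ (w s) = aeval (Sum.elim (fun i ↦ (k i : MG)) (fun i ↦ (w i : MG))) (D s))
    (P : MvPolynomial (ι ⊕ σ) ℂ) :
    δ (aeval (Sum.elim (fun i ↦ algebraMap K L (k i)) w) P) =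
      aeval (Sum.elim (fun i ↦ (k i : MG)) (fun i ↦ (w i : MG))) (Pg D P) := by
  induction P using MvPolynomial.induction_on with
  | C a =>
    rw [Pg_C, map_zero, aeval_C]
    have h1 : algebraMap ℂ L a = algebraMap K L (algebraMap ℂ K a) := rfl
    rw [h1, δ.map_algebraMap]
  | add p q hp hq => rw [map_add, map_add, map_add, map_add, hp, hq]
  | mul_X p i hp =>
    rw [map_mul, Derivation.leibniz, Derivation.leibniz, map_add, hp, smul_eq_mul, smul_eq_mul,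
      map_mul, map_mul]
    rw [Algebra.smul_def, Algebra.smul_def]
    change ((aeval (Sum.elim (fun i ↦ algebraMap K L (k i)) w) p : L) : MG) * _ +
      ((aeval (Sum.elim (fun i ↦ algebraMap K L (k i)) w) (X i) : L) : MG) * _ = _
    rw [coe_aeval, coe_aeval]
    rcases i with i | i
    · rw [Pg_inl, map_zero, aeval_X, Sum.elim_inl, δ.map_algebraMap]
    · rw [Pg_inr, aeval_X, Sum.elim_inr, hδ]

/-- All iterates vanish. -/
lemma iter_Pg {K : IntermediateField ℂ MG} {L : IntermediateField K MG} (δ : Derivation K L MG)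
    (D : σ → MvPolynomial (ι ⊕ σ) ℂ) (k : ι → K) (w : σ → L)
    (hδ : ∀ s, δ (w s) = aeval (Sum.elim (fun i ↦ (k i : MG)) (fun i ↦ (w i : MG))) (D s))
    (P : MvPolynomial (ι ⊕ σ) ℂ)
    (h : aeval (Sum.elim (fun i ↦ (k i : MG)) (fun i ↦ (w i : MG))) P = 0) (n : ℕ) :
    aeval (Sum.elim (fun i ↦ (k i : MG)) (fun i ↦ (w i : MG))) ((Pg D)^[n] P) = 0 := by
  induction n with
  | zero => exact h
  | succ n ih =>
    rw [Function.iterate_succ_apply', ← der_Pg δ D k w hδ]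
    have h2 : aeval (Sum.elim (fun i ↦ algebraMap K L (k i)) w) ((Pg D)^[n] P) = 0 := by
      apply Subtype.ext
      rw [coe_aeval, ih]
      rfl
    rw [h2, map_zero]

/-- Specialisation of the coefficients. -/
noncomputable def specg (x : ι → ℂ) : MvPolynomial (ι ⊕ σ) ℂ →ₐ[ℂ] MvPolynomial σ ℂ :=
  aeval (Sum.elim (fun i ↦ C (x i)) X)

lemma specg_Pg (x : ι → ℂ) (D : σ → MvPolynomial (ι ⊕ σ) ℂ)
    (E : Derivation ℂ (MvPolynomial σ ℂ) (MvPolynomial σ ℂ))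
    (hE : ∀ s, specg x (D s) = E (X s)) (P : MvPolynomial (ι ⊕ σ) ℂ) :
    specg x (Pg D P) = E (specg x P) := by
  induction P using MvPolynomial.induction_on with
  | C a =>
    have e : E (C a) = 0 := E.map_algebraMap a
    rw [Pg_C, map_zero, specg, aeval_C]
    exact e.symm
  | add p q hp hq => rw [map_add, map_add, map_add, map_add, hp, hq]
  | mul_X p i hp =>
    rw [Derivation.leibniz, map_add, smul_eq_mul, smul_eq_mul, map_mul, map_mul, map_mul,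
      Derivation.leibniz, smul_eq_mul, smul_eq_mul, hp]
    congr 1
    rcases i with i | i
    · rw [Pg_inl, map_zero]
      have e : E (specg x (X (Sum.inl i))) = 0 := by
        rw [specg, aeval_X, Sum.elim_inl]
        exact E.map_algebraMap _
      rw [e]
    · rw [Pg_inr, hE]
      congr 2
      rw [specg, aeval_X, Sum.elim_inr]

lemma specg_iter (x : ι → ℂ) (D : σ → MvPolynomial (ι ⊕ σ) ℂ)
    (E : Derivation ℂ (MvPolynomial σ ℂ) (MvPolynomial σ ℂ))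
    (hE : ∀ s, specg x (D s) = E (X s)) (P : MvPolynomial (ι ⊕ σ) ℂ) (n : ℕ) :
    specg x ((Pg D)^[n] P) = E^[n] (specg x P) := by
  induction n with
  | zero => rfl
  | succ n ih => rw [Function.iterate_succ_apply', Function.iterate_succ_apply', ← ih,
      specg_Pg x D E hE]

lemma aeval_specg (x : ι → ℂ) (y : σ → ℂ) (P : MvPolynomial (ι ⊕ σ) ℂ) :
    aeval y (specg x P) = aeval (Sum.elim x y) P := by
  have h1 : (aeval y : MvPolynomial σ ℂ →ₐ[ℂ] ℂ).comp (specg x) = aeval (Sum.elim x y) := by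
    apply MvPolynomial.algHom_ext
    rintro (i | i)
    · simp [specg]
    · simp [specg]
  exact congrArg (fun f ↦ f P) h1

end universal

section pairflow

variable {ι : Type}

/-- The universal derivation of a pair. -/
noncomputable def D2 (i1 i2 : ι) (c d : Fin 3 → ℂ) :
    Fin 3 ⊕ Fin 3 → MvPolynomial (ι ⊕ (Fin 3 ⊕ Fin 3)) ℂ :=
  Sum.elim
    (fun l ↦ fr (X (Sum.inl i1)) (fun l ↦ X (Sum.inr (Sum.inl l))) (fun i ↦ C (c i)) l)
    (fun l ↦ fr (X (Sum.inl i2)) (fun l ↦ X (Sum.inr (Sum.inr l))) (fun i ↦ C (d i)) l)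

lemma aeval_D2_inl {B : Type} [CommRing B] [Algebra ℂ B] (i1 i2 : ι) (c d : Fin 3 → ℂ)
    (x : ι ⊕ (Fin 3 ⊕ Fin 3) → B) (l : Fin 3) :
    aeval x (D2 i1 i2 c d (Sum.inl l)) = fr (x (Sum.inl i1)) (fun l ↦ x (Sum.inr (Sum.inl l)))
      (fun i ↦ algebraMap ℂ B (c i)) l := by
  rw [D2, Sum.elim_inl]
  have h := map_fr (aeval x : MvPolynomial (ι ⊕ (Fin 3 ⊕ Fin 3)) ℂ →ₐ[ℂ] B) (X (Sum.inl i1))
    (fun l ↦ X (Sum.inr (Sum.inl l))) (fun i ↦ C (c i)) l
  rw [h]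
  simp

lemma aeval_D2_inr {B : Type} [CommRing B] [Algebra ℂ B] (i1 i2 : ι) (c d : Fin 3 → ℂ)
    (x : ι ⊕ (Fin 3 ⊕ Fin 3) → B) (l : Fin 3) :
    aeval x (D2 i1 i2 c d (Sum.inr l)) = fr (x (Sum.inl i2)) (fun l ↦ x (Sum.inr (Sum.inr l)))
      (fun i ↦ algebraMap ℂ B (d i)) l := by
  rw [D2, Sum.elim_inr]
  have h := map_fr (aeval x : MvPolynomial (ι ⊕ (Fin 3 ⊕ Fin 3)) ℂ →ₐ[ℂ] B) (X (Sum.inl i2))
    (fun l ↦ X (Sum.inr (Sum.inr l))) (fun i ↦ C (d i)) l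
  rw [h]
  simp

theorem pair_flow [Finite ι] {F : IntermediateField ℂ MG} {φ ψ : Gm} (k : ι → F) (i1 i2 : ι)
    (hk1 : (k i1 : MG) = φ.z) (hk2 : (k i2 : MG) = ψ.z)
    (U : MvPolynomial (ι ⊕ (Fin 3 ⊕ Fin 3)) ℂ)
    (hU : aeval (Sum.elim (fun i ↦ (k i : MG)) (Sum.elim φ.v ψ.v)) U = 0)
    (g : ι → ℂ → ℂ) (hg : ∀ i, MeromorphicAt (g i) 0) (hgk : ∀ i, mk (g i) (hg i) = k i) :
    ∀ᶠ ζ in NE, ∀ τ θ : Fin 3 → ℂ, Rel F φ ψ τ θ → τ 0 ^ 2 + τ 1 * τ 2 = 0 →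
      θ 0 ^ 2 + θ 1 * θ 2 = 0 → ∀ᶠ ε in 𝓝 (0 : ℂ),
        aeval (Sum.elim (flw (φ.f ζ) τ ε) (flw (ψ.f ζ) θ ε)) (specg (fun i ↦ g i ζ) U) = 0 := by
  classical
  set f : ι ⊕ (Fin 3 ⊕ Fin 3) → ℂ → ℂ :=
    Sum.elim g (Sum.elim (fun l ζ ↦ ee (φ.f ζ) l) (fun l ζ ↦ ee (ψ.f ζ) l)) with hf
  have hfm : ∀ i, MeromorphicAt (f i) 0 := by
    rintro (m | l | l)
    · exact hg m
    · exact (φ.an_ee l).meromorphicAt
    · exact (ψ.an_ee l).meromorphicAt
  have hfk : (fun i ↦ mk (f i) (hfm i)) = Sum.elim (fun i ↦ (k i : MG)) (Sum.elim φ.v ψ.v) := by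
    ext i
    rcases i with m | l | l
    · exact hgk m
    · rfl
    · rfl
  have hev : ∀ᶠ ζ in NE, ∀ i, AnalyticAt ℂ (f i) ζ := by
    rw [Filter.eventually_all]
    exact fun i ↦ (hfm i).eventually_analyticAt
  have hφg : ∀ᶠ ζ in NE, g i1 ζ = φ.f ζ := by
    have h1 := hgk i1
    rw [hk1, Gm.z, mk_eq_mk] at h1
    exact h1
  have hψg : ∀ᶠ ζ in NE, g i2 ζ = ψ.f ζ := by
    have h1 := hgk i2
    rw [hk2, Gm.z, mk_eq_mk] at h1
    exact h1
  obtain ⟨r, hr, hball⟩ := ev_pball hev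
  filter_upwards [pball_mem hr, φ.ev_pos.filter_mono nhdsWithin_le_nhds,
    ψ.ev_pos.filter_mono nhdsWithin_le_nhds, hφg, hψg] with ζ h1 h2 h3 h4 h5 τ θ hR hτ hθ
  obtain ⟨δ, a, b⟩ := hR
  set w : Fin 3 ⊕ Fin 3 → PL F φ ψ :=
    Sum.elim (fun l ↦ ⟨φ.v l, memL l⟩) (fun l ↦ ⟨ψ.v l, memR l⟩) with hw
  have hwc : (fun i ↦ (w i : MG)) = Sum.elim φ.v ψ.v := by
    ext i
    rcases i with l | l
    · rfl
    · rfl
  have hδ : ∀ s, δ (w s) =
      aeval (Sum.elim (fun i ↦ (k i : MG)) (fun i ↦ (w i : MG))) (D2 i1 i2 τ θ s) := by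
    rw [hwc]
    rintro (l | l)
    · rw [aeval_D2_inl]
      simp only [Sum.elim_inl, Sum.elim_inr, hk1]
      exact a l
    · rw [aeval_D2_inr]
      simp only [Sum.elim_inl, Sum.elim_inr, hk2]
      exact b l
  have hrel := iter_Pg δ (D2 i1 i2 τ θ) k w hδ U (by rw [hwc]; exact hU)
  rw [hwc] at hrel
  refine flow2 h2 h3 hτ hθ _ fun n ↦ ?_
  have hE : ∀ s, specg (fun i ↦ g i ζ) (D2 i1 i2 τ θ s) =
      pd2 (φ.f ζ) (ψ.f ζ) τ θ (X s) := by
    rintro (l | l)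
    · unfold specg
      rw [aeval_D2_inl, pd2, mkDerivation_X]
      simp only [Sum.elim_inl, Sum.elim_inr, h4]
      rfl
    · unfold specg
      rw [aeval_D2_inr, pd2, mkDerivation_X]
      simp only [Sum.elim_inl, Sum.elim_inr, h5]
      rfl
  rw [← specg_iter _ _ _ hE, aeval_specg]
  have hzero : ∀ ζ ∈ Metric.ball (0 : ℂ) r \ {0},
      aeval (fun i ↦ f i ζ) ((Pg (D2 i1 i2 τ θ))^[n] U) = 0 := by
    refine ident_pball hr (fun ζ hζ ↦ AnalyticAt.aeval_mvPolynomial (hball ζ hζ) _) ?_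
    rw [← aeval_mk_zero f hfm, hfk]
    exact hrel n
  rw [← hzero ζ h1]
  congr 2
  ext i
  rcases i with i | l | l
  · rfl
  · rfl
  · rfl

end pairflow

end H32.T4
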