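import Pool.Agent.H32.T4.A7
import Pool.Agent.H32.T3.A0
import Pool.Agent.H32.Boundary

/-!
# Discreteness: real matrices which preserve E6
-/

set_option linter.unusedSimpArgs false

open UpperHalfPlane hiding I
open Complex EisensteinSeries ModularForm MatrixGroups Manifold
open scoped Real Topology

namespace H32.T4

lemma den_ne_real {c d : ℝ} (h : c ≠ 0 ∨ d ≠ 0) {τ : ℂ} (hτ : 0 < τ.im) : (c : ℂ) * τ + d ≠ 0 := by
  intro h0
  have h1 := congrArg Complex.im h0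
  have h2 := congrArg Complex.re h0
  simp at h1 h2
  rcases h1 with h1 | h1
  · rw [h1] at h2
    simp at h2
    rcases h with h | h
    · exact h h1
    · exact h h2
  · exact absurd h1 hτ.ne'

lemma im_mob {a b c d : ℝ} {τ : ℂ} (hd : (c : ℂ) * τ + d ≠ 0) :
    (((a : ℂ) * τ + b) / ((c : ℂ) * τ + d)).im = (a * d - b * c) * τ.im /
      Complex.normSq ((c : ℂ) * τ + d) := by
  have hns : Complex.normSq ((c : ℂ) * τ + d) ≠ 0 := (Complex.normSq_pos.mpr hd).ne'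
  rw [Complex.div_im]
  simp only [Complex.add_re, Complex.add_im, Complex.mul_re, Complex.mul_im, Complex.ofReal_re,
    Complex.ofReal_im]
  field_simp
  ring

lemma im_mob_pos {a b c d : ℝ} (h : 0 < a * d - b * c) {τ : ℂ} (hτ : 0 < τ.im) :
    0 < (((a : ℂ) * τ + b) / ((c : ℂ) * τ + d)).im := by
  have hcd : c ≠ 0 ∨ d ≠ 0 := by
    by_contra hcon
    push Not at hcon
    rw [hcon.1, hcon.2] at h
    simp at h
  have hd := den_ne_real hcd hτ
  rw [im_mob hd]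
  have := Complex.normSq_pos.mpr hd
  positivity

lemma e6_mod {x y z w : ℤ} (h : x * w - y * z = 1) {τ : ℂ} (hτ : 0 < τ.im) :
    e6 (((x : ℝ) * τ + (y : ℝ)) / ((z : ℝ) * τ + (w : ℝ))) = ((z : ℝ) * τ + (w : ℝ)) ^ 6 * e6 τ := by
  set γ : SL(2, ℤ) := ⟨!![x, y; z, w], by rw [Matrix.det_fin_two]; simpa using h⟩ with hγ
  have h1 := WInv_E6 γ ⟨τ, hτ⟩
  have h2 : ((γ • (⟨τ, hτ⟩ : ℍ) : ℍ) : ℂ) = ((x : ℝ) * τ + (y : ℝ)) / ((z : ℝ) * τ + (w : ℝ)) := by
    rw [coe_specialLinearGroup_apply]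
    simp [hγ]
  have h3 : denom (γ : GL (Fin 2) ℝ) (⟨τ, hτ⟩ : ℍ) = (z : ℝ) * τ + (w : ℝ) := by
    rw [ModularGroup.denom_apply]
    simp [hγ]
  have h4 : e6 ((γ • (⟨τ, hτ⟩ : ℍ) : ℍ) : ℂ) = E₆ (γ • (⟨τ, hτ⟩ : ℍ)) := by
    rw [e6, ofComplex_apply]
  have h5 : e6 τ = E₆ (⟨τ, hτ⟩ : ℍ) := by
    rw [e6, ofComplex_apply_of_im_pos hτ]
  rw [← h2, h4, h5, ← h3]
  exact h1

/-- Real matrices of determinant one which preserve `e6`. -/
def Inv6 (a b c d : ℝ) : Prop :=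
  a * d - b * c = 1 ∧ ∀ τ : ℂ, 0 < τ.im →
    e6 (((a : ℂ) * τ + b) / ((c : ℂ) * τ + d)) = ((c : ℂ) * τ + d) ^ 6 * e6 τ

lemma comp_mob {a b c d x y z w : ℝ} {τ : ℂ} (hd : (c : ℂ) * τ + d ≠ 0) :
    ((x : ℂ) * (((a : ℂ) * τ + b) / ((c : ℂ) * τ + d)) + y) /
      ((z : ℂ) * (((a : ℂ) * τ + b) / ((c : ℂ) * τ + d)) + w) =
    (((x * a + y * c : ℝ) : ℂ) * τ + ((x * b + y * d : ℝ) : ℂ)) /
      (((z * a + w * c : ℝ) : ℂ) * τ + ((z * b + w * d : ℝ) : ℂ)) := by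
  have e1 : (x : ℂ) * (((a : ℂ) * τ + b) / ((c : ℂ) * τ + d)) + y =
      (((x * a + y * c : ℝ) : ℂ) * τ + ((x * b + y * d : ℝ) : ℂ)) / ((c : ℂ) * τ + d) := by
    rw [eq_div_iff hd, add_mul, mul_assoc, div_mul_cancel₀ _ hd]
    push_cast
    ring
  have e2 : (z : ℂ) * (((a : ℂ) * τ + b) / ((c : ℂ) * τ + d)) + w =
      (((z * a + w * c : ℝ) : ℂ) * τ + ((z * b + w * d : ℝ) : ℂ)) / ((c : ℂ) * τ + d) := by
    rw [eq_div_iff hd, add_mul, mul_assoc, div_mul_cancel₀ _ hd]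
    push_cast
    ring
  rw [e1, e2, div_div_div_cancel_right₀ hd]

lemma cocycle_mob {a b c d z w : ℝ} {τ : ℂ} (hd : (c : ℂ) * τ + d ≠ 0) :
    ((z : ℂ) * (((a : ℂ) * τ + b) / ((c : ℂ) * τ + d)) + w) * ((c : ℂ) * τ + d) =
      ((z * a + w * c : ℝ) : ℂ) * τ + ((z * b + w * d : ℝ) : ℂ) := by
  rw [add_mul, mul_assoc, div_mul_cancel₀ _ hd]
  push_cast
  ring

lemma Inv6.ne {a b c d : ℝ} (h : Inv6 a b c d) : c ≠ 0 ∨ d ≠ 0 := by
  by_contra hcon
  push Not at hcon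
  have := h.1
  rw [hcon.1, hcon.2] at this
  simp at this

lemma Inv6.left {a b c d : ℝ} (h : Inv6 a b c d) {x y z w : ℤ} (hx : x * w - y * z = 1) :
    Inv6 (x * a + y * c) (x * b + y * d) (z * a + w * c) (z * b + w * d) := by
  have hxR : (x : ℝ) * w - y * z = 1 := by exact_mod_cast hx
  refine ⟨?_, fun τ hτ ↦ ?_⟩
  · have h1 := h.1
    linear_combination ((x : ℝ) * w - y * z) * h1 + hxR
  · have hd := den_ne_real h.ne hτ
    have hp : 0 < (((a : ℂ) * τ + b) / ((c : ℂ) * τ + d)).im :=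
      im_mob_pos (by rw [h.1]; norm_num) hτ
    rw [← comp_mob hd, e6_mod hx hp, h.2 τ hτ, ← cocycle_mob hd]
    ring

lemma Inv6.right {a b c d : ℝ} (h : Inv6 a b c d) {x y z w : ℤ} (hx : x * w - y * z = 1) :
    Inv6 (a * x + b * z) (a * y + b * w) (c * x + d * z) (c * y + d * w) := by
  have hxR : (x : ℝ) * w - y * z = 1 := by exact_mod_cast hx
  have hzw : (z : ℝ) ≠ 0 ∨ (w : ℝ) ≠ 0 := by
    by_contra hcon
    push Not at hcon
    rw [hcon.1, hcon.2] at hxR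
    simp at hxR
  refine ⟨?_, fun τ hτ ↦ ?_⟩
  · have h1 := h.1
    linear_combination ((x : ℝ) * w - y * z) * h1 + hxR
  · have hd := den_ne_real hzw hτ
    have hp : 0 < ((((x : ℝ) : ℂ) * τ + ((y : ℝ) : ℂ)) / (((z : ℝ) : ℂ) * τ + ((w : ℝ) : ℂ))).im :=
      im_mob_pos (by rw [hxR]; norm_num) hτ
    rw [← comp_mob hd, h.2 _ hp, e6_mod hx hτ, ← cocycle_mob hd]
    ring

/-- The lower left entries are bounded below. -/
lemma exists_lower : ∃ c0 : ℝ, 0 < c0 ∧ ∀ a b c d : ℝ, Inv6 a b c d → c ≠ 0 → c0 ≤ |c| := by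
  obtain ⟨Y, hY, h6⟩ := H32.T3.near_inf
  refine ⟨1 / (2 * Y), by positivity, fun a b c d h hc ↦ ?_⟩
  by_contra hcon
  push Not at hcon
  have hY0 : 0 < Y := by linarith
  have hcpos : 0 < |c| := abs_pos.mpr hc
  have hcY : |c| * Y < 1 / 2 := by
    rw [lt_div_iff₀ (by positivity)] at hcon
    linarith
  set τ : ℂ := -(d / c : ℝ) + Y * I with hτ
  have hτim : τ.im = Y := by simp [hτ]
  have hτpos : 0 < τ.im := by rw [hτim]; exact hY0
  have hden : (c : ℂ) * τ + d = (c * Y : ℝ) * I := by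
    rw [hτ]
    have hcC : (c : ℂ) ≠ 0 := by exact_mod_cast hc
    push_cast
    field_simp
    ring
  have hdne := den_ne_real h.ne hτpos
  have hp : 0 < (((a : ℂ) * τ + b) / ((c : ℂ) * τ + d)).im :=
    im_mob_pos (by rw [h.1]; norm_num) hτpos
  have him : (((a : ℂ) * τ + b) / ((c : ℂ) * τ + d)).im = 1 / (c ^ 2 * Y) := by
    rw [im_mob hdne, h.1, hτim, hden]
    rw [Complex.normSq_mul, Complex.normSq_ofReal, Complex.normSq_I]
    field_simp
  have hbig : Y ≤ 1 / (c ^ 2 * Y) := by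
    rw [le_div_iff₀ (by positivity)]
    have : c ^ 2 * Y ^ 2 = (|c| * Y) ^ 2 := by rw [mul_pow, sq_abs]
    nlinarith [mul_pos hcpos hY0]
  have h1 := h.2 τ hτpos
  have h2 := (h6 ⟨τ, hτpos⟩ (by rw [← hτim]; exact le_refl _)).2.2.2
  have h3 := (h6 ⟨_, hp⟩ (by
    change Y ≤ (((a : ℂ) * τ + b) / ((c : ℂ) * τ + d)).im
    rw [him]; exact hbig)).2.2.1
  have e1 : e6 τ = E₆ (⟨τ, hτpos⟩ : ℍ) := by
    rw [e6, ofComplex_apply_of_im_pos hτpos]
  have e2 : e6 (((a : ℂ) * τ + b) / ((c : ℂ) * τ + d)) = E₆ (⟨_, hp⟩ : ℍ) := by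
    rw [e6, ofComplex_apply_of_im_pos hp]
  rw [← e1] at h2
  rw [← e2, h1, norm_mul, norm_pow, hden, norm_mul, Complex.norm_real, Complex.norm_I, mul_one,
    Real.norm_eq_abs, abs_mul, abs_of_pos hY0] at h3
  have h4 : (|c| * Y) ^ 6 ≤ (1 / 2) ^ 6 := by gcongr
  have h5 : 0 ≤ (|c| * Y) ^ 6 := by positivity
  have h7 : (|c| * Y) ^ 6 * ‖e6 τ‖ ≤ (1 / 2) ^ 6 * 2 := by gcongr
  norm_num at h7
  linarith

/-- The ratios are rational. -/
lemma Inv6.rat {a b c d : ℝ} (h : Inv6 a b c d) (hc : c ≠ 0) :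
    (∃ q : ℚ, a = q * c) ∧ ∃ q : ℚ, d = q * c := by
  obtain ⟨c0, hc0, hlow⟩ := exists_lower
  have hcpos : 0 < |c| := abs_pos.mpr hc
  obtain ⟨n, hn⟩ := exists_nat_gt (|c| / c0)
  have key : ∀ ξ : ℝ, (∀ q : ℚ, ξ ≠ q) → ∃ q : ℚ, c * (q.num - ξ * q.den) ≠ 0 ∧
      |c * (q.num - ξ * q.den)| < c0 := by
    intro ξ hξ
    obtain ⟨q, hq, -⟩ := Real.exists_rat_abs_sub_le_and_den_le ξ (n := n + 1) (Nat.succ_pos n)
    have hden : (0 : ℝ) < q.den := by exact_mod_cast q.den_pos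
    have hqe : (q.num : ℝ) = q * q.den := by
      have := Rat.mul_den_eq_num q
      exact_mod_cast congrArg (Rat.cast : ℚ → ℝ) this.symm
    have e : c * (q.num - ξ * q.den) = -(c * q.den * (ξ - q)) := by
      rw [hqe]; ring
    refine ⟨q, ?_, ?_⟩
    · rw [e, neg_ne_zero]
      exact mul_ne_zero (mul_ne_zero hc hden.ne') (sub_ne_zero.mpr (hξ q))
    · rw [e, abs_neg, abs_mul, abs_mul, abs_of_pos hden]
      have h1 : |c| * q.den * |ξ - q| ≤ |c| * q.den * (1 / (((n + 1 : ℕ) + 1) * q.den)) := by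
        gcongr
      have h2 : |c| * q.den * (1 / (((n + 1 : ℕ) + 1) * q.den)) = |c| / ((n + 1 : ℕ) + 1) := by
        field_simp
      have h3 : |c| / ((n + 1 : ℕ) + 1 : ℝ) < c0 := by
        rw [div_lt_iff₀ (by positivity)]
        rw [div_lt_iff₀ hc0] at hn
        push_cast
        nlinarith
      linarith
  constructor
  · by_contra hcon
    push Not at hcon
    obtain ⟨q, hq1, hq2⟩ := key (a / c) (fun q hq ↦ hcon q (by rw [← hq]; field_simp))
    obtain ⟨γ, h0, h1⟩ := exists_gamma q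
    have hdet := γ.det_coe
    rw [Matrix.det_fin_two] at hdet
    have h2 := h.left (x := γ 1 1) (y := -γ 0 1) (z := -γ 1 0) (w := γ 0 0)
      (by linear_combination hdet)
    have e : (((-γ 1 0 : ℤ) : ℝ) * a + ((γ 0 0 : ℤ) : ℝ) * c) = c * (q.num - a / c * q.den) := by
      rw [h0, h1]
      push_cast
      field_simp
      ring
    have h3 := hlow _ _ _ _ h2 (by rw [e]; exact hq1)
    rw [e] at h3
    linarith
  · by_contra hcon
    push Not at hcon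
    obtain ⟨q, hq1, hq2⟩ := key (-d / c) (fun q hq ↦ hcon (-q) (by
      push_cast
      rw [← hq]; field_simp))
    obtain ⟨γ, h0, h1⟩ := exists_gamma q
    have hdet := γ.det_coe
    rw [Matrix.det_fin_two] at hdet
    have h2 := h.right (x := γ 0 0) (y := γ 0 1) (z := γ 1 0) (w := γ 1 1) hdet
    have e : (c * ((γ 0 0 : ℤ) : ℝ) + d * ((γ 1 0 : ℤ) : ℝ)) = c * (q.num - -d / c * q.den) := by
      rw [h0, h1]
      push_cast
      field_simp
      ring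
    have h3 := hlow _ _ _ _ h2 (by rw [e]; exact hq1)
    rw [e] at h3
    linarith

/-- Unipotent elements are rational. -/
theorem Inv6.unip {p q r : ℝ} {k : ℕ} (hk : 0 < k) (hn : p ^ 2 + q * r = 0)
    (h : Inv6 (1 + k * p) (k * q) (k * r) (1 - k * p)) :
    (∃ x : ℚ, p = x) ∧ (∃ x : ℚ, q = x) ∧ ∃ x : ℚ, r = x := by
  have hk' : (k : ℝ) ≠ 0 := by exact_mod_cast hk.ne'
  by_cases hr : r = 0
  · rw [hr, mul_zero, add_zero] at hn
    have hp : p = 0 := by simpa using hn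
    refine ⟨⟨0, by rw [hp]; simp⟩, ?_, ⟨0, by rw [hr]; simp⟩⟩
    by_cases hq : q = 0
    · exact ⟨0, by rw [hq]; simp⟩
    · rw [hp, hr] at h
      have h1 := h.left (x := 0) (y := -1) (z := 1) (w := 0) (by norm_num)
      have h2 := h1.right (x := 0) (y := 1) (z := -1) (w := 0) (by norm_num)
      have hne : ((1 : ℤ) : ℝ) * (1 + k * 0) + ((0 : ℤ) : ℝ) * (k * 0) = 1 := by simp
      have hcc : ((((1 : ℤ) : ℝ) * (1 + k * 0) + ((0 : ℤ) : ℝ) * (k * 0)) * ((0 : ℤ) : ℝ) +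
          (((1 : ℤ) : ℝ) * (k * q) + ((0 : ℤ) : ℝ) * (1 - k * 0)) * ((-1 : ℤ) : ℝ)) = -(k * q) := by
        push_cast; ring
      rw [hcc] at h2
      obtain ⟨⟨x, hx⟩, -⟩ := h2.rat (neg_ne_zero.mpr (mul_ne_zero hk' hq))
      have hx1 : (1 : ℝ) = x * -(k * q) := by
        rw [← hx]
        push_cast
        ring
      have hx0 : (x : ℝ) ≠ 0 := by
        intro h0
        rw [h0, zero_mul] at hx1
        exact one_ne_zero hx1
      refine ⟨-1 / (x * k), ?_⟩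
      push_cast
      field_simp
      linarith
  · have hc : (k : ℝ) * r ≠ 0 := mul_ne_zero hk' hr
    obtain ⟨⟨x, hx⟩, ⟨y, hy⟩⟩ := h.rat hc
    have hs : ((x : ℝ) + y) * (k * r) = 2 := by linear_combination (-1 : ℝ) * hx - hy
    have hxy : (x : ℝ) + y ≠ 0 := by
      intro h0
      rw [h0, zero_mul] at hs
      norm_num at hs
    have hr' : r = 2 / ((x + y) * k) := by
      field_simp
      linear_combination hs
    have hkr : (k : ℝ) * r = 2 / (x + y) := by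
      rw [hr']; field_simp
    have hp' : p = (x * (2 / (x + y)) - 1) / k := by
      rw [hkr] at hx
      rw [eq_div_iff hk']
      linear_combination hx
    have hq' : q = -p ^ 2 / r := by
      field_simp
      linear_combination hn
    refine ⟨⟨(x * (2 / (x + y)) - 1) / k, ?_⟩,
      ⟨-((x * (2 / (x + y)) - 1) / k) ^ 2 / (2 / ((x + y) * k)), ?_⟩, ⟨2 / ((x + y) * k), ?_⟩⟩
    · rw [hp']; push_cast; rfl
    · rw [hq', hp', hr']; push_cast; rfl
    · rw [hr']; push_cast; rfl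

end H32.T4
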