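import Pool.Agent.H32.T4.A13
import Pool.Agent.H32.T4.A14
import Pool.Agent.H32.Pairs

/-!
# The period lemma
-/

set_option linter.unusedSimpArgs false

open UpperHalfPlane hiding I
open Complex EisensteinSeries ModularForm MatrixGroups Manifold
open scoped Real Topology
open MvPolynomial Filter

namespace H32.T4

lemma ee_add_nat {w : ℂ} (hw : 0 < w.im) (n : ℕ) : ee (w + n) = ee w := by
  have h1 := smul_gM_zero n ⟨w, hw⟩
  have h1' : ((gM 0 n • (⟨w, hw⟩ : ℍ) : ℍ) : ℂ) = w + n := h1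
  have hd : denom ((gM 0 n : SL(2, ℤ)) : GL (Fin 2) ℝ) (⟨w, hw⟩ : ℍ) = 1 := by
    rw [denom_gM]; simp
  have h2 := E2_smul (gM 0 n) ⟨w, hw⟩
  have h4 := WInv_E4 (gM 0 n) ⟨w, hw⟩
  have h6 := WInv_E6 (gM 0 n) ⟨w, hw⟩
  rw [hd, gM_10] at h2
  simp only [hd] at h4 h6
  have e : ofComplex (w + n) = gM 0 n • (⟨w, hw⟩ : ℍ) := by
    rw [← h1', ofComplex_apply]
  have e' : ofComplex w = ⟨w, hw⟩ := ofComplex_apply_of_im_pos hw
  ext l
  fin_cases l
  · simp only [ee, e2, Matrix.cons_val_zero, Fin.zero_eta, e, e', h2]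
    simp
  · simp only [ee, e4, Matrix.cons_val_one, Fin.mk_one, e, e', Matrix.cons_val_zero]
    rw [h4]
    simp
  · simp only [ee, e6, Matrix.cons_val, Fin.reduceFinMk, e, e']
    rw [h6]
    simp

/-- Evaluation by monomials. -/
lemma aeval_mon {q : MvPolynomial (Fin 3) ℂ} {W : Finset (Fin 3 →₀ ℕ)} (hW : q.support ⊆ W)
    (w : ℂ) : aeval (ee w) q = ∑ ν ∈ W, coeff ν q * mon ν w := by
  rw [aeval_def, eval₂_eq']
  refine Finset.sum_subset_zero_on_sdiff hW ?_ ?_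
  · intro ν hν
    rw [Finset.mem_sdiff, MvPolynomial.mem_support_iff, not_not] at hν
    rw [hν.2, zero_mul]
  · intro ν _
    rw [Fin.prod_univ_three]
    simp [mon, ee]

/-- The set of common real points. -/
def comSet (w0 y0 : ℂ) (d : Fin 3 → ℂ) : Set ℂ :=
  {s : ℂ | (d 2 * y0 - d 0) * s + 1 ≠ 0 ∧ (0 : ℂ) * s + 1 ≠ 0 ∧
    (((d 0 * y0 + d 1) * s + y0) / ((d 2 * y0 - d 0) * s + 1)).im = 0 ∧
      ((1 * s + w0) / (0 * s + 1)).im = 0}

lemma det_bb (y0 : ℂ) (d : Fin 3 → ℂ) :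
    (d 0 * y0 + d 1) * 1 - y0 * (d 2 * y0 - d 0) = bb d y0 := by
  unfold bb; ring

lemma ww_eq (y0 : ℂ) (d : Fin 3 → ℂ) (s : ℂ) :
    ww y0 d s = ((d 0 * y0 + d 1) * s + y0) / ((d 2 * y0 - d 0) * s + 1) := by
  unfold ww jj
  congr 1
  · ring
  · ring

theorem indep_pair {w0 y0 : ℂ} (hw : 0 < w0.im) (hy : 0 < y0.im) {d : Fin 3 → ℂ}
    (hbb : bb d y0 ≠ 0) (hfin : (comSet w0 y0 d).Finite) {N : ℕ}
    (q : Fin N → MvPolynomial (Fin 3) ℂ)
    (h : ∀ᶠ ε in 𝓝 (0 : ℂ), ∑ m, aeval (ee (w0 + ε)) (q m) * flw y0 d ε 2 ^ (m : ℕ) = 0) :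
    ∀ m, q m = 0 := by
  classical
  set g0 : Mo := ⟨1, w0, 0, 1, by simp⟩ with hg0
  set g1 : Mo := ⟨d 0 * y0 + d 1, y0, d 2 * y0 - d 0, 1, by rw [det_bb]; exact hbb⟩ with hg1
  set g : Fin 2 → Mo := ![g0, g1] with hg
  set W : Finset (Fin 3 →₀ ℕ) := Finset.univ.biUnion fun m ↦ (q m).support with hW
  have hWs : ∀ m, (q m).support ⊆ W := fun m ↦
    Finset.subset_biUnion_of_mem (fun m ↦ (q m).support) (Finset.mem_univ m)
  set S : Finset (Fin N × (Fin 3 →₀ ℕ)) := Finset.univ ×ˢ W with hS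
  have hconc := FT1 g (by
      intro i
      fin_cases i
      · change 0 < (g0.ev 0).im
        simp [Mo.ev, hg0, hw]
      · change 0 < (g1.ev 0).im
        simp [Mo.ev, hg1, hy])
    (by
      intro i j hij
      fin_cases i
      · fin_cases j
        · exact absurd rfl hij
        · refine hfin.subset ?_
          rintro s ⟨h1, h2, h3, h4⟩
          exact ⟨h2, h1, h4, h3⟩
      · fin_cases j
        · refine hfin.subset ?_
          rintro s ⟨h1, h2, h3, h4⟩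
          exact ⟨h1, h2, h3, h4⟩
        · exact absurd rfl hij)
    (e := fun (μ : Fin N × (Fin 3 →₀ ℕ)) (i : Fin 2) ↦
      if i = 0 then (fun l ↦ μ.2 l) else ![0, 0, (μ.1 : ℕ)])
    (c := fun μ s ↦ coeff μ.2 (q μ.1) * jj y0 d s ^ (6 * (N - (μ.1 : ℕ))))
    (by
      intro μ s _
      unfold jj
      fun_prop) 2 Finset.univ (by simp) S
    (by
      rintro ⟨m, ν⟩ _ ⟨m', ν'⟩ _ hall
      have h0 := hall 0 (Finset.mem_univ _)
      have h1 := hall 1 (Finset.mem_univ _)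
      simp only [if_true] at h0
      have h1' : (![0, 0, (m : ℕ)] : Fin 3 → ℕ) = ![0, 0, (m' : ℕ)] := by
        simpa using h1
      have h2 := congrFun h1' 2
      simp at h2
      have h3 : ν = ν' := Finsupp.ext fun l ↦ congrFun h0 l
      rw [h3, Fin.ext h2])
    (by
      filter_upwards [h, ev_jj y0 d] with s hs hj
      have hmul : jj y0 d s ^ (6 * N) *
          ∑ m, aeval (ee (w0 + s)) (q m) * flw y0 d s 2 ^ (m : ℕ) = 0 := by rw [hs, mul_zero]
      rw [← hmul, hS, Finset.sum_product, Finset.mul_sum]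
      refine Finset.sum_congr rfl fun m _ ↦ ?_
      rw [aeval_mon (hWs m), Finset.sum_mul, Finset.mul_sum]
      refine Finset.sum_congr rfl fun ν _ ↦ ?_
      rw [Fin.prod_univ_two]
      have e0 : (g 0).ev s = w0 + s := by
        simp [hg, hg0, Mo.ev]
        ring
      have e1 : (g 1).ev s = ww y0 d s := by
        rw [ww_eq]
        rfl
      have e2 : mon (![0, 0, (m : ℕ)]) (ww y0 d s) = e6 (ww y0 d s) ^ (m : ℕ) := by
        simp [mon]
      have e3 : flw y0 d s 2 = (jj y0 d s)⁻¹ ^ 6 * e6 (ww y0 d s) := by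
        simp [flw]
      have e4 : jj y0 d s ^ (6 * N) = jj y0 d s ^ (6 * (N - (m : ℕ))) *
          (jj y0 d s ^ 6) ^ (m : ℕ) := by
        rw [← pow_mul, ← pow_add]
        congr 1
        have := m.2
        omega
      rw [e0, e1]
      simp only [if_true, one_ne_zero, if_false]
      rw [e2, e3, e4, mul_pow, inv_pow, inv_pow]
      have hj6 : (jj y0 d s ^ 6) ^ (m : ℕ) ≠ 0 := pow_ne_zero _ (pow_ne_zero _ hj)
      field_simp)
  intro m
  ext ν
  rw [coeff_zero]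
  by_cases hν : ν ∈ W
  · have h1 := hconc (m, ν) (by rw [hS, Finset.mem_product]; exact ⟨Finset.mem_univ _, hν⟩)
    obtain ⟨s, hs1, hs2⟩ := (h1.and (ev_jj y0 d)).exists
    simp only at hs1
    exact (mul_eq_zero.mp hs1).resolve_right (pow_ne_zero _ hs2)
  · by_contra hcon
    exact hν (hWs m (MvPolynomial.mem_support_iff.mpr hcon))

end H32.T4
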