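import Pool.Agent.H32.T4.A15

/-!
# The period lemma (continued)
-/

set_option linter.unusedSimpArgs false

open UpperHalfPlane hiding I
open Complex EisensteinSeries ModularForm MatrixGroups Manifold
open scoped Real Topology
open MvPolynomial Filter

namespace H32.T4

lemma real_of_not_fin {w0 y0 : ℂ} (hw : 0 < w0.im) (hy : 0 < y0.im) {d : Fin 3 → ℂ}
    (hbb : bb d y0 ≠ 0) (hn : d 0 ^ 2 + d 1 * d 2 = 0) (hfin : ¬ (comSet w0 y0 d).Finite) :
    ∃ (e : ℂ) (R1 R2 R3 R4 : ℝ), e ≠ 0 ∧ 0 < R1 * R4 - R2 * R3 ∧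
      (∀ s, jj y0 d s = e * (R3 * (w0 + s) + R4)) ∧
      (∀ s, y0 + s * (d 0 * y0 + d 1) = e * (R1 * (w0 + s) + R2)) ∧
      d 0 = ((-(R1 * R3) / (R1 * R4 - R2 * R3) : ℝ) : ℂ) ∧
      d 1 = ((R1 ^ 2 / (R1 * R4 - R2 * R3) : ℝ) : ℂ) ∧
      d 2 = ((-R3 ^ 2 / (R1 * R4 - R2 * R3) : ℝ) : ℂ) := by
  set a := d 0 * y0 + d 1 with ha
  set c := d 2 * y0 - d 0 with hc
  have hall : ∀ k l, om (QQ4 a y0 c 1 1 w0 0 1 k) (QQ4 a y0 c 1 1 w0 0 1 l) = 0 := by
    by_contra hcon
    push Not at hcon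
    exact hfin (finite_pair (by rw [det_bb]; exact hbb) (by simp) hcon)
  have h20 := hall 0 2
  have h31 := hall 1 3
  have h03 := hall 0 3
  have h12 := hall 1 2
  simp only [QQ4, Matrix.cons_val_zero, Matrix.cons_val_one, Matrix.cons_val] at h20 h31 h03 h12
  obtain ⟨e, R1, R2, R3, R4, e1, e2, e3, e4⟩ := real_matrix (p := a * 1 - y0 * 0)
    (q := y0 * 1 - a * w0) (r := c * 1 - 1 * 0) (s := 1 * 1 - c * w0) (by
      have : (a * 1 - y0 * 0) * (1 * 1 - c * w0) - (y0 * 1 - a * w0) * (c * 1 - 1 * 0) =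
        bb d y0 := by
        rw [← det_bb]; ring
      rw [this]; exact hbb) h20 h31 (by rw [h03, h12, add_zero])
  have e1' : a = e * R1 := by linear_combination e1
  have e2' : y0 = e * R2 + a * w0 := by linear_combination e2
  have e3' : c = e * R3 := by linear_combination e3
  have e4' : 1 = e * R4 + c * w0 := by linear_combination e4
  have he : e ≠ 0 := by
    rintro rfl
    rw [zero_mul] at e1' e3'
    rw [e3'] at e4'
    simp at e4'
  have hy0 : y0 = e * (R1 * w0 + R2) := by rw [e1'] at e2'; linear_combination e2'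
  have h1 : 1 = e * (R3 * w0 + R4) := by rw [e3'] at e4'; linear_combination e4'
  have hden : (R3 : ℂ) * w0 + R4 ≠ 0 := by
    intro h0
    rw [h0, mul_zero] at h1
    exact one_ne_zero h1
  have hymob : y0 = (R1 * w0 + R2) / (R3 * w0 + R4) := by
    rw [eq_div_iff hden]
    linear_combination (-(R1 * w0 + R2 : ℂ)) * h1 + (R3 * w0 + R4 : ℂ) * hy0
  have hdet : 0 < R1 * R4 - R2 * R3 := by
    have h2 := im_mob (a := R1) (b := R2) hden
    rw [← hymob] at h2
    rw [h2] at hy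
    have h3 := Complex.normSq_pos.mpr hden
    have h4 : 0 < (R1 * R4 - R2 * R3) * w0.im := by
      by_contra hcon
      push Not at hcon
      have := div_nonpos_of_nonpos_of_nonneg hcon h3.le
      linarith
    exact (pos_iff_pos_of_mul_pos h4).mpr hw
  set D : ℝ := R1 * R4 - R2 * R3 with hD
  have hDC : (D : ℂ) ≠ 0 := by exact_mod_cast hdet.ne'
  have hDe : (D : ℂ) = R1 * R4 - R2 * R3 := by rw [hD]; push_cast; ring
  -- the values of bb and the slope
  have hbe : bb d y0 = e ^ 2 * D := by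
    rw [← det_bb]
    change a * 1 - y0 * c = _
    rw [e1', e3', hDe]
    linear_combination e * (R1 : ℂ) * h1 - e * (R3 : ℂ) * hy0
  have hs : d 0 - d 2 * y0 = -(e * R3) := by
    have : d 0 - d 2 * y0 = -c := by rw [hc]; ring
    rw [this, e3']
  have hns := nil_s hn y0
  rw [hs, hbe] at hns
  have hd2 : d 2 = -(R3 : ℂ) ^ 2 / D := by
    rw [eq_div_iff hDC]
    have h2 : e ^ 2 * (d 2 * D + R3 ^ 2) = 0 := by linear_combination hns
    have h3 := (mul_eq_zero.mp h2).resolve_left (pow_ne_zero 2 he)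
    linear_combination h3
  have hDy : (D : ℂ) * e = R1 - R3 * y0 := by
    rw [hDe]
    linear_combination (-(R1 : ℂ)) * h1 + (R3 : ℂ) * hy0
  have hd0 : d 0 = -(R1 * R3 : ℂ) / D := by
    have h2 : d 0 = -(e * R3) + d 2 * y0 := by linear_combination hs
    rw [h2, hd2, eq_div_iff hDC]
    field_simp
    linear_combination (-(R3 : ℂ)) * hDy
  have hd1 : d 1 = (R1 ^ 2 : ℂ) / D := by
    have h2 : d 1 = e * R1 - d 0 * y0 := by linear_combination e1'
    rw [h2, hd0, eq_div_iff hDC]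
    field_simp
    linear_combination (R1 : ℂ) * hDy
  refine ⟨e, R1, R2, R3, R4, he, hdet, fun s ↦ ?_, fun s ↦ ?_, ?_, ?_, ?_⟩
  · have : jj y0 d s = 1 + s * c := by rw [hc]; rfl
    rw [this, e3']
    linear_combination h1
  · rw [e1']
    linear_combination hy0
  · rw [hd0, hDe]; push_cast; ring
  · rw [hd1, hDe]; push_cast; ring
  · rw [hd2, hDe]; push_cast; ring

/-- The transported function. -/
noncomputable def GG (e : ℂ) (R1 R2 R3 R4 : ℝ) (w : ℂ) : ℂ :=
  (e * (R3 * w + R4))⁻¹ ^ 6 * e6 ((R1 * w + R2) / (R3 * w + R4))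

lemma analytic_GG {e : ℂ} {R1 R2 R3 R4 : ℝ} (he : e ≠ 0) (hD : 0 < R1 * R4 - R2 * R3) {w : ℂ}
    (hw : 0 < w.im) : AnalyticAt ℂ (GG e R1 R2 R3 R4) w := by
  have hcd : R3 ≠ 0 ∨ R4 ≠ 0 := by
    by_contra hcon
    push Not at hcon
    rw [hcon.1, hcon.2] at hD
    simp at hD
  have hd := den_ne_real hcd hw
  have h1 : AnalyticAt ℂ (fun w : ℂ ↦ (R1 : ℂ) * w + R2) w := by fun_prop
  have h2 : AnalyticAt ℂ (fun w : ℂ ↦ (R3 : ℂ) * w + R4) w := by fun_prop
  have h3 : AnalyticAt ℂ (fun w : ℂ ↦ ((R1 : ℂ) * w + R2) / (R3 * w + R4)) w := h1.fun_div h2 hd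
  have h4 : AnalyticAt ℂ (fun w : ℂ ↦ e6 (((R1 : ℂ) * w + R2) / (R3 * w + R4))) w :=
    AnalyticAt.fun_comp (g := e6) (f := fun w : ℂ ↦ ((R1 : ℂ) * w + R2) / (R3 * w + R4))
      (analytic_ee (im_mob_pos hD hw) 2) h3
  have h5 : AnalyticAt ℂ (fun w : ℂ ↦ (e * ((R3 : ℂ) * w + R4))⁻¹) w :=
    (analyticAt_const.fun_mul h2).fun_inv (mul_ne_zero he hd)
  exact (h5.fun_pow 6).fun_mul h4

/-- Pigeonhole: a bounded number of values. -/
lemma pigeon {N : ℕ} (a : Fin N → ℂ) (ha : ∃ m, a m ≠ 0) (G : ℕ → ℂ)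
    (h : ∀ n, ∑ m, a m * G n ^ (m : ℕ) = 0) : ∃ n n' : Fin (N + 1), n < n' ∧ G n = G n' := by
  classical
  set p : Polynomial ℂ := ∑ m : Fin N, Polynomial.monomial (m : ℕ) (a m) with hp
  have hp0 : p ≠ 0 := by
    intro h0
    obtain ⟨m, hm⟩ := ha
    apply hm
    have h1 := congrArg (fun f ↦ Polynomial.coeff f (m : ℕ)) h0
    simp only [hp, Polynomial.finsetSum_coeff, Polynomial.coeff_monomial,
      Polynomial.coeff_zero] at h1
    rw [Finset.sum_eq_single m] at h1
    · simpa using h1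
    · intro b _ hb
      rw [if_neg]
      intro h2
      exact hb (Fin.ext h2)
    · intro h2
      exact absurd (Finset.mem_univ _) h2
  by_contra hcon
  push Not at hcon
  have hinj : Function.Injective fun n : Fin (N + 1) ↦ G n := by
    intro n n' hnn
    rcases lt_trichotomy n n' with h1 | h1 | h1
    · exact absurd hnn (hcon n n' h1)
    · exact h1
    · exact absurd hnn.symm (hcon n' n h1)
  have hdeg : p.natDegree < N ∨ p.natDegree = 0 := by
    by_cases hN : N = 0
    · right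
      subst hN
      simp [hp]
    · left
      rw [← Nat.le_sub_one_iff_lt (Nat.pos_of_ne_zero hN)]
      refine Polynomial.natDegree_sum_le_of_forall_le _ _ fun m _ ↦ ?_
      refine (Polynomial.natDegree_monomial_le _).trans ?_
      have := m.2
      omega
  have hroots : (Finset.univ.image fun n : Fin (N + 1) ↦ G n) ⊆ p.roots.toFinset := by
    intro x hx
    rw [Finset.mem_image] at hx
    obtain ⟨n, -, rfl⟩ := hx
    rw [Multiset.mem_toFinset, Polynomial.mem_roots hp0, Polynomial.IsRoot, hp,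
      Polynomial.eval_finsetSum]
    simp only [Polynomial.eval_monomial]
    exact h n
  have hcard := Finset.card_le_card hroots
  rw [Finset.card_image_of_injective _ hinj, Finset.card_univ, Fintype.card_fin] at hcard
  have h2 := (Multiset.toFinset_card_le p.roots).trans (Polynomial.card_roots' p)
  rcases hdeg with h3 | h3
  · omega
  · rw [h3] at h2
    obtain ⟨m, -⟩ := ha
    have := m.2
    omega

end H32.T4
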