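import Pool.Agent.H32.T4.A16

/-!
# The period lemma (end)
-/

set_option linter.unusedSimpArgs false

open UpperHalfPlane hiding I
open Complex EisensteinSeries ModularForm MatrixGroups Manifold
open scoped Real Topology
open MvPolynomial Filter

namespace H32.T4

lemma im_add_nat (w : ℂ) (n : ℕ) : (w + n).im = w.im := by simp

/-- From periodicity to invariance. -/
lemma inv_of_period {e : ℂ} {R1 R2 R3 R4 : ℝ} (he : e ≠ 0) (hD : 0 < R1 * R4 - R2 * R3) {k : ℕ}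
    (h : ∀ w : ℂ, 0 < w.im → GG e R1 R2 R3 R4 (w + k) = GG e R1 R2 R3 R4 w) :
    Inv6 (1 + k * (-(R1 * R3) / (R1 * R4 - R2 * R3))) (k * (R1 ^ 2 / (R1 * R4 - R2 * R3)))
      (k * (-R3 ^ 2 / (R1 * R4 - R2 * R3))) (1 - k * (-(R1 * R3) / (R1 * R4 - R2 * R3))) := by
  set D : ℝ := R1 * R4 - R2 * R3 with hDdef
  have hD0 : D ≠ 0 := hD.ne'
  have hDC : (D : ℂ) ≠ 0 := by exact_mod_cast hD0
  have hDe : (D : ℂ) = R1 * R4 - R2 * R3 := by rw [hDdef]; push_cast; ring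
  refine ⟨by field_simp; ring, fun τ hτ ↦ ?_⟩
  have hcd : R3 ≠ 0 ∨ R4 ≠ 0 := by
    by_contra hcon
    push Not at hcon
    rw [hDdef, hcon.1, hcon.2] at hD
    simp at hD
  have hcd' : -R3 ≠ 0 ∨ R1 ≠ 0 := by
    by_contra hcon
    push Not at hcon
    rw [hDdef, neg_eq_zero.mp hcon.1, hcon.2] at hD
    simp at hD
  have hd1 : ((-R3 : ℝ) : ℂ) * τ + R1 ≠ 0 := den_ne_real hcd' hτ
  set w : ℂ := ((R4 : ℂ) * τ + ((-R2 : ℝ) : ℂ)) / (((-R3 : ℝ) : ℂ) * τ + R1) with hw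
  have hwim : 0 < w.im := im_mob_pos (by rw [hDdef] at hD; linarith) hτ
  have hden : (R3 : ℂ) * w + R4 ≠ 0 := den_ne_real hcd hwim
  have hden' : (R3 : ℂ) * (w + k) + R4 ≠ 0 :=
    den_ne_real hcd (by rw [im_add_nat]; exact hwim)
  -- the relation between τ and w
  have hwe : w * (((-R3 : ℝ) : ℂ) * τ + R1) = (R4 : ℂ) * τ + ((-R2 : ℝ) : ℂ) :=
    div_mul_cancel₀ _ hd1
  have h1 : ((R3 : ℂ) * w + R4) * (R1 - R3 * τ) = D := by
    rw [hDe]
    push_cast at hwe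
    linear_combination (R3 : ℂ) * hwe
  have h2 : ((R1 : ℂ) * w + R2) = τ * ((R3 : ℂ) * w + R4) := by
    push_cast at hwe
    linear_combination hwe
  have hτe : ((R1 : ℂ) * w + R2) / ((R3 : ℂ) * w + R4) = τ := by
    rw [h2, mul_div_assoc, div_self hden, mul_one]
  have hratio : ((k * (-R3 ^ 2 / D) : ℝ) : ℂ) * τ + ((1 - k * (-(R1 * R3) / D) : ℝ) : ℂ) =
      ((R3 : ℂ) * (w + k) + R4) / ((R3 : ℂ) * w + R4) := by
    rw [eq_div_iff hden]
    push_cast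
    field_simp
    linear_combination (k : ℂ) * R3 * h1
  have hnum : ((1 + k * (-(R1 * R3) / D) : ℝ) : ℂ) * τ + ((k * (R1 ^ 2 / D) : ℝ) : ℂ) =
      ((R1 : ℂ) * (w + k) + R2) / ((R3 : ℂ) * w + R4) := by
    rw [eq_div_iff hden]
    push_cast
    field_simp
    linear_combination (k : ℂ) * R1 * h1 - (D : ℂ) * h2
  rw [hratio, hnum, div_div_div_cancel_right₀ hden]
  have h3 := h w hwim
  unfold GG at h3
  rw [hτe] at h3
  have e6' : (e * ((R3 : ℂ) * (w + k) + R4)) ^ 6 ≠ 0 := pow_ne_zero _ (mul_ne_zero he hden')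
  have e6'' : (e * ((R3 : ℂ) * w + R4)) ^ 6 ≠ 0 := pow_ne_zero _ (mul_ne_zero he hden)
  rw [inv_pow, inv_pow, inv_mul_eq_iff_eq_mul₀ e6'] at h3
  rw [h3, div_pow, mul_pow, mul_pow]
  have hp : ((R3 : ℂ) * w + R4) ^ 6 ≠ 0 := pow_ne_zero _ hden
  have he6 : e ^ 6 ≠ 0 := pow_ne_zero _ he
  field_simp

/-- The period lemma. -/
theorem period {w0 y0 : ℂ} (hw : 0 < w0.im) (hy : 0 < y0.im) {d : Fin 3 → ℂ}
    (hn : d 0 ^ 2 + d 1 * d 2 = 0) (hbb : bb d y0 ≠ 0) {N : ℕ}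
    (q : Fin N → MvPolynomial (Fin 3) ℂ) (hne : ∃ m, aeval (ee w0) (q m) ≠ 0)
    (h : ∀ᶠ ε in 𝓝 (0 : ℂ), ∑ m, aeval (ee (w0 + ε)) (q m) * flw y0 d ε 2 ^ (m : ℕ) = 0) :
    ∀ i, ∃ x : ℚ, d i = x := by
  by_cases hfin : (comSet w0 y0 d).Finite
  · exfalso
    obtain ⟨m, hm⟩ := hne
    apply hm
    rw [indep_pair hw hy hbb hfin q h m, map_zero]
  obtain ⟨e, R1, R2, R3, R4, he, hD, hj, hy1, hd0, hd1, hd2⟩ :=
    real_of_not_fin hw hy hbb hn hfin
  set G := GG e R1 R2 R3 R4 with hG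
  set H : ℂ → ℂ := fun w ↦ ∑ m, aeval (ee w) (q m) * G w ^ (m : ℕ) with hH
  have hGan : AnalyticOnNhd ℂ G upperHalfPlaneSet := fun w hw' ↦ analytic_GG he hD hw'
  have hqan : ∀ m, AnalyticOnNhd ℂ (fun w ↦ aeval (ee w) (q m)) upperHalfPlaneSet :=
    fun m w hw' ↦ AnalyticAt.aeval_mvPolynomial (fun i ↦ analytic_ee hw' i) _
  have hHan : AnalyticOnNhd ℂ H upperHalfPlaneSet := by
    intro w hw'
    refine Finset.analyticAt_fun_sum _ fun m _ ↦ ?_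
    exact (hqan m w hw').fun_mul ((hGan w hw').fun_pow _)
  have hH0 : ∀ᶠ w in 𝓝 w0, H w = 0 := by
    have ht : Filter.Tendsto (fun w : ℂ ↦ w - w0) (𝓝 w0) (𝓝 0) := by
      have : Continuous fun w : ℂ ↦ w - w0 := by fun_prop
      have h1 := this.tendsto w0
      rwa [sub_self] at h1
    filter_upwards [ht.eventually h, ht.eventually (ev_jj y0 d)] with w h1 h2
    rw [add_sub_cancel] at h1
    rw [hH]
    beta_reduce
    rw [← h1]
    refine Finset.sum_congr rfl fun m _ ↦ ?_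
    congr 2
    have e3 : flw y0 d (w - w0) 2 =
        (jj y0 d (w - w0))⁻¹ ^ 6 * e6 (ww y0 d (w - w0)) := by simp [flw]
    have e4 : ww y0 d (w - w0) = (R1 * w + R2) / (R3 * w + R4) := by
      unfold ww
      rw [hy1, hj, add_sub_cancel, mul_div_mul_left _ _ he]
    rw [e3, e4, hj, add_sub_cancel]
    rfl
  have hHall := hHan.eqOn_zero_of_preconnected_of_eventuallyEq_zero preconnected_H hw hH0
  have hrel : ∀ w : ℂ, 0 < w.im → ∀ n : ℕ,
      ∑ m, aeval (ee w) (q m) * G (w + n) ^ (m : ℕ) = 0 := by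
    intro w hw' n
    have h1 : H (w + n) = 0 := hHall (by
      change 0 < (w + n).im
      rw [im_add_nat]; exact hw')
    rw [hH] at h1
    simp only [ee_add_nat hw'] at h1
    exact h1
  obtain ⟨m0, hm0⟩ := hne
  have hev : ∀ᶠ w in 𝓝 w0, ∃ p : Fin (N + 1) × Fin (N + 1), p.1 < p.2 ∧
      G (w + (p.1 : ℕ)) = G (w + (p.2 : ℕ)) := by
    have hc : ContinuousAt (fun w ↦ aeval (ee w) (q m0)) w0 := (hqan m0 w0 hw).continuousAt
    filter_upwards [hc.eventually_ne hm0, isOpen_upperHalfPlaneSet.mem_nhds hw] with w h1 h2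
    obtain ⟨n, n', h3, h4⟩ := pigeon (fun m ↦ aeval (ee w) (q m)) ⟨m0, h1⟩
      (fun n ↦ G (w + n)) (fun n ↦ hrel w h2 n)
    exact ⟨(n, n'), h3, h4⟩
  have hfr : ∃ p : Fin (N + 1) × Fin (N + 1), p.1 < p.2 ∧
      ∃ᶠ w in 𝓝[≠] w0, G (w + (p.1 : ℕ)) = G (w + (p.2 : ℕ)) := by
    by_contra hcon
    push Not at hcon
    have h1 : ∀ᶠ w in 𝓝[≠] w0, ∀ p : Fin (N + 1) × Fin (N + 1), p.1 < p.2 →
        G (w + (p.1 : ℕ)) ≠ G (w + (p.2 : ℕ)) := by
      rw [Filter.eventually_all]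
      intro p
      by_cases hp : p.1 < p.2
      · filter_upwards [hcon p hp] with w h2 _
        exact h2
      · exact Filter.Eventually.of_forall fun w h2 ↦ absurd h2 hp
    obtain ⟨w, h2, h3⟩ := (h1.and (hev.filter_mono nhdsWithin_le_nhds)).exists
    obtain ⟨p, hp, hpe⟩ := h3
    exact h2 p hp hpe
  obtain ⟨⟨n, n'⟩, hnn, hfr⟩ := hfr
  simp only at hnn hfr
  have hshift : ∀ n : ℕ, AnalyticOnNhd ℂ (fun w ↦ G (w + n)) upperHalfPlaneSet := by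
    intro n w hw'
    have h1 : 0 < (w + n).im := by rw [im_add_nat]; exact hw'
    exact AnalyticAt.fun_comp (g := G) (f := fun w : ℂ ↦ w + n) (hGan _ h1) (by fun_prop)
  have heq := (hshift n).eqOn_of_preconnected_of_frequently_eq (hshift n') preconnected_H hw hfr
  have hk : 0 < (n' : ℕ) - n := Nat.sub_pos_of_lt hnn
  have hper : ∀ w : ℂ, 0 < w.im → G (w + ((n' : ℕ) - (n : ℕ) : ℕ)) = G w := by
    intro w hw'
    have h1 : (w - ((n : ℕ) : ℂ)) ∈ upperHalfPlaneSet := by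
      change 0 < (w - ((n : ℕ) : ℂ)).im
      simpa using hw'
    have h2 := heq h1
    simp only [sub_add_cancel] at h2
    rw [h2]
    congr 1
    rw [Nat.cast_sub hnn.le]
    ring
  have hinv := inv_of_period he hD hper
  have hnil : (-(R1 * R3) / (R1 * R4 - R2 * R3)) ^ 2 +
      (R1 ^ 2 / (R1 * R4 - R2 * R3)) * (-R3 ^ 2 / (R1 * R4 - R2 * R3)) = 0 := by
    field_simp
    ring
  obtain ⟨⟨x0, h0⟩, ⟨x1, h1⟩, ⟨x2, h2⟩⟩ := hinv.unip hk hnil
  intro i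
  fin_cases i
  · refine ⟨x0, ?_⟩
    change d 0 = _
    rw [hd0, h0]
    push_cast
    rfl
  · refine ⟨x1, ?_⟩
    change d 1 = _
    rw [hd1, h1]
    push_cast
    rfl
  · refine ⟨x2, ?_⟩
    change d 2 = _
    rw [hd2, h2]
    push_cast
    rfl

end H32.T4
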