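import Pool.Agent.H32.T4.A17

/-!
# Classification and auxiliary facts for the theorem on pairs
-/

set_option linter.unusedSimpArgs false

open UpperHalfPlane hiding I
open Complex EisensteinSeries ModularForm MatrixGroups Manifold
open scoped Real Topology
open MvPolynomial Filter

namespace H32.T4

/-- Rational relation of germs. -/
def GRel (φ ψ : Gm) : Prop :=
  ∃ a b c d : ℚ, a * d - b * c ≠ 0 ∧
    ∀ᶠ ζ in NE, ψ.f ζ * ((c : ℂ) * φ.f ζ + d) = (a : ℂ) * φ.f ζ + b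

lemma rank_one {a0 a1 a2 : ℚ} (hn : a0 ^ 2 + a1 * a2 = 0) :
    ∃ α u v : ℚ, a0 = -(α * u * v) ∧ a1 = α * u ^ 2 ∧ a2 = -(α * v ^ 2) := by
  by_cases h2 : a2 = 0
  · rw [h2, mul_zero, add_zero] at hn
    have h0 : a0 = 0 := by simpa using hn
    exact ⟨a1, 1, 0, by simp [h0], by simp, by simp [h2]⟩
  · refine ⟨-1 / a2, a0, a2, by field_simp, ?_, by field_simp⟩
    field_simp
    linear_combination hn

lemma classif {A C : Fin 3 → ℂ} (hA : ∀ i, ∃ x : ℚ, A i = x) (hC : ∀ i, ∃ x : ℚ, C i = x)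
    (hA0 : A ≠ 0) (hnA : A 0 ^ 2 + A 1 * A 2 = 0) (hnC : C 0 ^ 2 + C 1 * C 2 = 0)
    (hbr : br (br A C) A = (2 : ℂ) • A) :
    ∃ a b c d : ℚ, a * d - b * c ≠ 0 ∧ ∀ x y : ℂ,
      bb (x • br A C - x ^ 2 • A + C) y = 0 → y * ((c : ℂ) * x + d) = (a : ℂ) * x + b := by
  obtain ⟨a0, ha0⟩ := hA 0
  obtain ⟨a1, ha1⟩ := hA 1
  obtain ⟨a2, ha2⟩ := hA 2
  obtain ⟨c0, hc0⟩ := hC 0
  obtain ⟨c1, hc1⟩ := hC 1
  obtain ⟨c2, hc2⟩ := hC 2
  rw [ha0, ha1, ha2] at hnA
  rw [hc0, hc1, hc2] at hnC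
  obtain ⟨α, u, v, e0, e1, e2⟩ := rank_one (a0 := a0) (a1 := a1) (a2 := a2) (by exact_mod_cast hnA)
  obtain ⟨γ, p, q, f0, f1, f2⟩ := rank_one (a0 := c0) (a1 := c1) (a2 := c2) (by exact_mod_cast hnC)
  have hA0' : A 0 = -(α * u * v) := by rw [ha0, e0]; push_cast; ring
  have hA1' : A 1 = α * u ^ 2 := by rw [ha1, e1]; push_cast; ring
  have hA2' : A 2 = -(α * v ^ 2) := by rw [ha2, e2]; push_cast; ring
  have hC0' : C 0 = -(γ * p * q) := by rw [hc0, f0]; push_cast; ring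
  have hC1' : C 1 = γ * p ^ 2 := by rw [hc1, f1]; push_cast; ring
  have hC2' : C 2 = -(γ * q ^ 2) := by rw [hc2, f2]; push_cast; ring
  set D : ℚ := u * q - v * p with hD
  have hDC : (D : ℂ) = u * q - v * p := by rw [hD]; push_cast; ring
  have hα : (α : ℂ) ≠ 0 := by
    intro h0
    apply hA0
    ext i
    fin_cases i
    · change A 0 = 0
      rw [hA0', h0]; ring
    · change A 1 = 0
      rw [hA1', h0]; ring
    · change A 2 = 0
      rw [hA2', h0]; ring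
  have huv : (u : ℂ) ≠ 0 ∨ (v : ℂ) ≠ 0 := by
    by_contra hcon
    push Not at hcon
    apply hA0
    ext i
    fin_cases i
    · change A 0 = 0
      rw [hA0', hcon.1]; ring
    · change A 1 = 0
      rw [hA1', hcon.1]; ring
    · change A 2 = 0
      rw [hA2', hcon.2]; ring
  have h1 := congrFun hbr 1
  have h2 := congrFun hbr 2
  simp only [br, Matrix.cons_val_zero, Matrix.cons_val_one, Matrix.cons_val, Pi.smul_apply,
    smul_eq_mul] at h1 h2
  rw [hA0', hA1', hA2', hC0', hC1', hC2'] at h1 h2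
  have key : (α : ℂ) * γ * D ^ 2 = -1 := by
    rw [hDC]
    rcases huv with hu | hv
    · have h3 : (2 * α * u ^ 2 : ℂ) * (α * γ * (u * q - v * p) ^ 2 + 1) = 0 := by
        linear_combination -h1
      have h4 : (2 * α * u ^ 2 : ℂ) ≠ 0 :=
        mul_ne_zero (mul_ne_zero two_ne_zero hα) (pow_ne_zero 2 hu)
      have h5 := (mul_eq_zero.mp h3).resolve_left h4
      linear_combination h5
    · have h3 : (2 * α * v ^ 2 : ℂ) * (α * γ * (u * q - v * p) ^ 2 + 1) = 0 := by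
        linear_combination h2
      have h4 : (2 * α * v ^ 2 : ℂ) ≠ 0 :=
        mul_ne_zero (mul_ne_zero two_ne_zero hα) (pow_ne_zero 2 hv)
      have h5 := (mul_eq_zero.mp h3).resolve_left h4
      linear_combination h5
  have keyQ : α * γ * D ^ 2 = -1 := by exact_mod_cast key
  have hγ : (γ : ℂ) ≠ 0 := by
    intro h0
    rw [h0] at key
    norm_num at key
  refine ⟨α * D * u, p, α * D * v, q, ?_, fun x y hxy ↦ ?_⟩
  · have : α * D * u * q - p * (α * D * v) = α * D ^ 2 := by rw [hD]; ring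
    rw [this]
    intro h0
    have : α * γ * D ^ 2 = 0 := by linear_combination γ * h0
    rw [this] at keyQ
    norm_num at keyQ
  · have h3 : (γ : ℂ) * ((p - q * y) + x * α * D * (u - v * y)) ^ 2 = 0 := by
      rw [← hxy]
      simp only [bb, br, Pi.add_apply, Pi.sub_apply, Pi.smul_apply, smul_eq_mul,
        Matrix.cons_val_zero, Matrix.cons_val_one, Matrix.cons_val]
      rw [hA0', hA1', hA2', hC0', hC1', hC2']
      rw [hDC] at key ⊢
      linear_combination (x ^ 2 * α * (u - v * y) ^ 2) * key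
    have h4 := (mul_eq_zero.mp h3).resolve_left hγ
    have h5 : (p - q * y : ℂ) + x * α * D * (u - v * y) = 0 := by
      simpa using h4
    push_cast
    linear_combination -h5

/-- A single Moebius map cannot be algebraic. -/
lemma no_single {y0 : ℂ} (hy : 0 < y0.im) {d : Fin 3 → ℂ} (hbb : bb d y0 ≠ 0) {N : ℕ}
    (a : Fin N → ℂ → ℂ) (ha : ∀ m, AnalyticOnNhd ℂ (a m) Set.univ) {m0 : Fin N} (hm0 : a m0 0 ≠ 0)
    (h : ∀ᶠ ε in 𝓝 (0 : ℂ), ∑ m, a m ε * flw y0 d ε 2 ^ (m : ℕ) = 0) : False := by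
  classical
  set g1 : Mo := ⟨d 0 * y0 + d 1, y0, d 2 * y0 - d 0, 1, by rw [det_bb]; exact hbb⟩ with hg1
  set g : Fin 1 → Mo := fun _ ↦ g1 with hg
  have hconc := FT1 g (by
      intro i
      change 0 < (g1.ev 0).im
      simp [Mo.ev, hg1, hy])
    (by
      intro i j hij
      exact absurd (Subsingleton.elim i j) hij)
    (e := fun (μ : Fin N) (_ : Fin 1) ↦ ![0, 0, (μ : ℕ)])
    (c := fun μ s ↦ a μ s * jj y0 d s ^ (6 * (N - (μ : ℕ))))
    (by
      intro μ s _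
      have h1 := ha μ s (Set.mem_univ _)
      have h2 : AnalyticAt ℂ (fun s ↦ jj y0 d s ^ (6 * (N - (μ : ℕ)))) s := by
        unfold jj
        fun_prop
      exact h1.fun_mul h2) 1 Finset.univ (by simp) Finset.univ
    (by
      intro m _ m' _ hall
      have h1 := hall 0 (Finset.mem_univ _)
      have h2 := congrFun h1 2
      simp at h2
      exact Fin.ext h2)
    (by
      filter_upwards [h, ev_jj y0 d] with s hs hj
      have hmul : jj y0 d s ^ (6 * N) * ∑ m, a m s * flw y0 d s 2 ^ (m : ℕ) = 0 := by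
        rw [hs, mul_zero]
      rw [← hmul, Finset.mul_sum]
      refine Finset.sum_congr rfl fun m _ ↦ ?_
      rw [Fin.prod_univ_one]
      have e1 : (g 0).ev s = ww y0 d s := by
        rw [ww_eq]
        rfl
      have e2 : mon (![0, 0, (m : ℕ)]) (ww y0 d s) = e6 (ww y0 d s) ^ (m : ℕ) := by
        simp [mon]
      have e3 : flw y0 d s 2 = (jj y0 d s)⁻¹ ^ 6 * e6 (ww y0 d s) := by
        simp [flw]
      have e4 : jj y0 d s ^ (6 * N) = jj y0 d s ^ (6 * (N - (m : ℕ))) *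
          (jj y0 d s ^ 6) ^ (m : ℕ) := by
        rw [← pow_mul, ← pow_add]
        congr 1
        have := m.2
        omega
      rw [e1, e2, e3, e4, mul_pow, inv_pow, inv_pow]
      have hj6 : (jj y0 d s ^ 6) ^ (m : ℕ) ≠ 0 := pow_ne_zero _ (pow_ne_zero _ hj)
      field_simp)
  have h1 := (hconc m0 (Finset.mem_univ _)).self_of_nhds
  simp only [jj_zero, one_pow, mul_one] at h1
  exact hm0 h1

/-- The flow of `e`. -/
lemma flw_e (w0 ε : ℂ) : flw w0 ![0, 1, 0] ε = ee (w0 + ε) := by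
  have hj : jj w0 ![0, 1, 0] ε = 1 := by simp [jj]
  have hw : ww w0 ![0, 1, 0] ε = w0 + ε := by simp [ww, hj]
  ext l
  fin_cases l
  · simp [flw, ee, hj, hw]
  · simp [flw, ee, hj, hw]
  · simp [flw, ee, hj, hw]

/-- The flow of the frame fixing the base point. -/
lemma flw_n (w0 ε : ℂ) : flw w0 ![w0, -w0 ^ 2, 1] ε =
    ![e2 w0 + cK ℂ * ε, e4 w0, e6 w0] := by
  have hj : jj w0 ![w0, -w0 ^ 2, 1] ε = 1 := by simp [jj]
  have hw : ww w0 ![w0, -w0 ^ 2, 1] ε = w0 := by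
    have : w0 * w0 + -w0 ^ 2 = 0 := by ring
    simp [ww, hj, this]
  ext l
  fin_cases l
  · simp [flw, hj, hw]
  · simp [flw, hj, hw]
  · simp [flw, hj, hw]

lemma flw_neg (w0 : ℂ) (d : Fin 3 → ℂ) (ε : ℂ) : flw w0 d (-ε) = flw w0 (-d) ε := by
  have hj : jj w0 d (-ε) = jj w0 (-d) ε := by
    simp only [jj, Pi.neg_apply]; ring
  have hw : ww w0 d (-ε) = ww w0 (-d) ε := by
    unfold ww
    rw [hj]
    congr 1
    simp only [Pi.neg_apply]; ring
  ext l
  fin_cases l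
  · simp only [flw, hj, hw, Matrix.cons_val_zero, Fin.zero_eta, Pi.neg_apply]; ring
  · simp only [flw, hj, hw, Matrix.cons_val_one, Fin.mk_one, Matrix.cons_val_zero]
  · simp only [flw, hj, hw, Matrix.cons_val, Fin.reduceFinMk]

/-- The behaviour under inversion. -/
lemma ee_inv {τ : ℂ} (hτ : 0 < τ.im) :
    e2 (-1 / τ) = τ ^ 2 * e2 τ - cK ℂ * τ ∧ e4 (-1 / τ) = τ ^ 4 * e4 τ ∧
      e6 (-1 / τ) = τ ^ 6 * e6 τ := by
  set γ : SL(2, ℤ) := ⟨!![0, -1; 1, 0], by rw [Matrix.det_fin_two]; simp⟩ with hγ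
  have h2 : ((γ • (⟨τ, hτ⟩ : ℍ) : ℍ) : ℂ) = -1 / τ := by
    rw [coe_specialLinearGroup_apply]
    simp [hγ]
  have h3 : denom (γ : GL (Fin 2) ℝ) (⟨τ, hτ⟩ : ℍ) = τ := by
    rw [ModularGroup.denom_apply]
    simp [hγ]
  have e : ofComplex (-1 / τ) = γ • (⟨τ, hτ⟩ : ℍ) := by
    rw [← h2, ofComplex_apply]
  have e' : ofComplex τ = ⟨τ, hτ⟩ := ofComplex_apply_of_im_pos hτ
  have g2 := E2_smul γ ⟨τ, hτ⟩
  have g4 := WInv_E4 γ ⟨τ, hτ⟩
  have g6 := WInv_E6 γ ⟨τ, hτ⟩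
  have hγ10 : ((γ 1 0 : ℤ) : ℂ) = 1 := by simp [hγ]
  rw [h3, hγ10] at g2
  simp only [h3] at g4 g6
  have hK : cK ℂ = 6 * I / π := rfl
  refine ⟨?_, ?_, ?_⟩
  · rw [e2, e2, e, e', g2, hK]; ring
  · rw [e4, e4, e, e']; exact g4
  · rw [e6, e6, e, e']; exact g6

/-- The flow of `f`. -/
lemma flw_f {w0 : ℂ} (hw : 0 < w0.im) {ε : ℂ} (hε : 0 < (-1 / w0 - ε).im) :
    flw w0 ![0, 0, 1] ε = ![w0⁻¹ ^ 2 * e2 (-1 / w0 - ε) + cK ℂ * w0⁻¹,
      w0⁻¹ ^ 4 * e4 (-1 / w0 - ε), w0⁻¹ ^ 6 * e6 (-1 / w0 - ε)] := by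
  have hw0 : w0 ≠ 0 := by rintro rfl; simp at hw
  set τ : ℂ := -1 / w0 - ε with hτ
  have hτ0 : τ ≠ 0 := by intro h0; rw [h0] at hε; simp at hε
  have hj : jj w0 ![0, 0, 1] ε = -(w0 * τ) := by
    simp only [jj, Matrix.cons_val_zero, Matrix.cons_val]
    rw [hτ]; field_simp; ring
  have hww : ww w0 ![0, 0, 1] ε = -1 / τ := by
    simp only [ww, hj, Matrix.cons_val_zero, Matrix.cons_val_one]
    field_simp
    simp
  obtain ⟨h2, h4, h6⟩ := ee_inv hε
  have hετ : ε = -1 / w0 - τ := by rw [hτ]; ring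
  ext l
  fin_cases l
  · simp only [flw, hj, hww, Matrix.cons_val_zero, Fin.zero_eta, h2, Matrix.cons_val]
    rw [hετ]
    field_simp
    ring
  · simp only [flw, hj, hww, Matrix.cons_val_one, Fin.mk_one, h4, Matrix.cons_val_zero]
    field_simp
  · simp only [flw, hj, hww, Matrix.cons_val, Fin.reduceFinMk, h6]
    field_simp

end H32.T4
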