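import Pool.Agent.H32.T4.A18

/-!
# The theorem on pairs
-/

set_option linter.unusedSimpArgs false

open UpperHalfPlane hiding I
open Complex EisensteinSeries ModularForm MatrixGroups Manifold
open scoped Real Topology
open MvPolynomial Filter

namespace H32.T4

/-- A polynomial relation from algebraicity. -/
lemma exists_rel {F : IntermediateField ℂ MG} {v : Fin 3 → MG} {x : MG}
    (h : IsAlgebraic (IntermediateField.adjoin F (Set.range v)) x) :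
    ∃ (N : ℕ) (q : Fin N → MvPolynomial (Fin 3) F), (∃ m, aeval v (q m) ≠ 0) ∧
      ∑ m, aeval v (q m) * x ^ (m : ℕ) = 0 := by
  rw [IntermediateField.isAlgebraic_adjoin_iff] at h
  obtain ⟨p, hp, hx⟩ := h
  have hc : ∀ i, ∃ q : MvPolynomial (Fin 3) F, aeval v q = ((p.coeff i : _) : MG) := by
    intro i
    have h1 : ((p.coeff i : _) : MG) ∈ (aeval v : MvPolynomial (Fin 3) F →ₐ[F] MG).range := by
      rw [← Algebra.adjoin_range_eq_range_aeval]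
      exact (p.coeff i).2
    exact h1
  choose q hq using hc
  refine ⟨p.natDegree + 1, fun m ↦ q m, ⟨⟨p.natDegree, Nat.lt_succ_self _⟩, ?_⟩, ?_⟩
  · rw [hq]
    intro h0
    apply hp
    rw [← Polynomial.leadingCoeff_eq_zero]
    exact Subtype.ext h0
  · rw [← hx, Polynomial.aeval_eq_sum_range, Finset.sum_range]
    refine Finset.sum_congr rfl fun m _ ↦ ?_
    rw [hq, Algebra.smul_def]
    rfl

/-- The specialised coefficient polynomial. -/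
noncomputable def qz {W : Finset (Fin 3 →₀ ℕ)} (x : {ν // ν ∈ W} → ℂ) : MvPolynomial (Fin 3) ℂ :=
  ∑ ν : {ν // ν ∈ W}, monomial ν.1 (x ν)

lemma aeval_qz {B : Type} [CommRing B] [Algebra ℂ B] {W : Finset (Fin 3 →₀ ℕ)}
    (x : {ν // ν ∈ W} → ℂ) (y : Fin 3 → B) :
    aeval y (qz x) = ∑ ν : {ν // ν ∈ W}, algebraMap ℂ B (x ν) * ∏ l, y l ^ (ν.1 l) := by
  unfold qz
  rw [map_sum]
  refine Finset.sum_congr rfl fun ν _ ↦ ?_
  rw [aeval_monomial, Finsupp.prod_fintype _ _ (by simp)]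

/-- The index type of the coefficients. -/
abbrev Ix (N : ℕ) (W : Finset (Fin 3 →₀ ℕ)) : Type := Fin 2 ⊕ Fin N × {ν // ν ∈ W}

/-- The universal coefficient. -/
noncomputable def Uq {N : ℕ} {W : Finset (Fin 3 →₀ ℕ)} (m : Fin N) :
    MvPolynomial (Ix N W ⊕ (Fin 3 ⊕ Fin 3)) ℂ :=
  ∑ ν : {ν // ν ∈ W}, X (Sum.inl (Sum.inr (m, ν))) * ∏ l, X (Sum.inr (Sum.inl l)) ^ (ν.1 l)

/-- The universal relation. -/
noncomputable def UU (N : ℕ) (W : Finset (Fin 3 →₀ ℕ)) :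
    MvPolynomial (Ix N W ⊕ (Fin 3 ⊕ Fin 3)) ℂ :=
  ∑ m : Fin N, Uq m * X (Sum.inr (Sum.inr 2)) ^ (m : ℕ)

lemma aeval_Uq {B : Type} [CommRing B] [Algebra ℂ B] {N : ℕ} {W : Finset (Fin 3 →₀ ℕ)}
    (m : Fin N) (x : Ix N W ⊕ (Fin 3 ⊕ Fin 3) → B) :
    aeval x (Uq m) = ∑ ν : {ν // ν ∈ W}, x (Sum.inl (Sum.inr (m, ν))) *
      ∏ l, x (Sum.inr (Sum.inl l)) ^ (ν.1 l) := by
  unfold Uq
  simp only [map_sum, map_mul, map_prod, map_pow, aeval_X]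

lemma aeval_UU {B : Type} [CommRing B] [Algebra ℂ B] {N : ℕ} {W : Finset (Fin 3 →₀ ℕ)}
    (x : Ix N W ⊕ (Fin 3 ⊕ Fin 3) → B) :
    aeval x (UU N W) = ∑ m : Fin N, (∑ ν : {ν // ν ∈ W}, x (Sum.inl (Sum.inr (m, ν))) *
      ∏ l, x (Sum.inr (Sum.inl l)) ^ (ν.1 l)) * x (Sum.inr (Sum.inr 2)) ^ (m : ℕ) := by
  unfold UU
  simp only [map_sum, map_mul, map_pow, aeval_X, aeval_Uq]

lemma aeval_specg_UU {N : ℕ} {W : Finset (Fin 3 →₀ ℕ)} (x : Ix N W → ℂ) (A B : Fin 3 → ℂ) :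
    aeval (Sum.elim A B) (specg x (UU N W)) =
      ∑ m : Fin N, aeval A (qz fun ν ↦ x (Sum.inr (m, ν))) * B 2 ^ (m : ℕ) := by
  rw [aeval_specg, aeval_UU]
  refine Finset.sum_congr rfl fun m _ ↦ ?_
  rw [aeval_qz]
  rfl

/-- The affine substitution. -/
noncomputable def aff (w0 : ℂ) (P : MvPolynomial (Fin 3) ℂ) : MvPolynomial (Fin 3) ℂ :=
  aeval ![C (w0⁻¹ ^ 2) * X 0 + C (cK ℂ * w0⁻¹), C (w0⁻¹ ^ 4) * X 1, C (w0⁻¹ ^ 6) * X 2] P

lemma aeval_aff (w0 : ℂ) (P : MvPolynomial (Fin 3) ℂ) (x : Fin 3 → ℂ) :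
    aeval x (aff w0 P) = aeval ![w0⁻¹ ^ 2 * x 0 + cK ℂ * w0⁻¹, w0⁻¹ ^ 4 * x 1, w0⁻¹ ^ 6 * x 2] P := by
  unfold aff
  have h1 : (aeval x : MvPolynomial (Fin 3) ℂ →ₐ[ℂ] ℂ).comp
      (aeval ![C (w0⁻¹ ^ 2) * X 0 + C (cK ℂ * w0⁻¹), C (w0⁻¹ ^ 4) * X 1, C (w0⁻¹ ^ 6) * X 2]) =
      aeval ![w0⁻¹ ^ 2 * x 0 + cK ℂ * w0⁻¹, w0⁻¹ ^ 4 * x 1, w0⁻¹ ^ 6 * x 2] := by
    apply MvPolynomial.algHom_ext
    intro i
    fin_cases i
    · simp
    · simp
    · simp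
  exact congrArg (fun f ↦ f P) h1

/-- The conclusion at a generic point. -/
lemma at_point {w0 y0 : ℂ} (hw : 0 < w0.im) (hy : 0 < y0.im) {A C : Fin 3 → ℂ}
    (hnA : A 0 ^ 2 + A 1 * A 2 = 0) (hnC : C 0 ^ 2 + C 1 * C 2 = 0)
    (hA : bb A y0 ≠ 0) (hC : bb C y0 ≠ 0) {N : ℕ} (q : Fin N → MvPolynomial (Fin 3) ℂ)
    (hne : ∃ m, aeval (ee w0) (q m) ≠ 0)
    (h1 : ∀ᶠ ε in 𝓝 (0 : ℂ), ∑ m, aeval (flw w0 ![0, 1, 0] ε) (q m) *
      flw y0 A ε 2 ^ (m : ℕ) = 0)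
    (h2 : ∀ᶠ ε in 𝓝 (0 : ℂ), ∑ m, aeval (flw w0 ![0, 0, 1] ε) (q m) *
      flw y0 C ε 2 ^ (m : ℕ) = 0) :
    (∀ i, ∃ x : ℚ, A i = x) ∧ ∀ i, ∃ x : ℚ, C i = x := by
  constructor
  · refine period hw hy hnA hA q hne ?_
    filter_upwards [h1] with ε hε
    simpa only [flw_e] using hε
  · have hw0 : w0 ≠ 0 := by rintro rfl; simp at hw
    have hw1 : 0 < (-1 / w0).im := by
      rw [neg_div, one_div, Complex.neg_im, Complex.inv_im]
      have := Complex.normSq_pos.mpr hw0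
      rw [neg_div, neg_neg]
      positivity
    have hnC' : (-C) 0 ^ 2 + (-C) 1 * (-C) 2 = 0 := by
      simp only [Pi.neg_apply]
      linear_combination hnC
    have hbC' : bb (-C) y0 ≠ 0 := by
      have : bb (-C) y0 = -bb C y0 := by
        unfold bb
        simp only [Pi.neg_apply]
        ring
      rw [this]
      exact neg_ne_zero.mpr hC
    have hvec : ∀ ε : ℂ, 0 < (-1 / w0 + ε).im → flw w0 ![0, 0, 1] (-ε) =
        ![w0⁻¹ ^ 2 * ee (-1 / w0 + ε) 0 + cK ℂ * w0⁻¹, w0⁻¹ ^ 4 * ee (-1 / w0 + ε) 1,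
          w0⁻¹ ^ 6 * ee (-1 / w0 + ε) 2] := by
      intro ε hε
      have h3 := flw_f hw (ε := -ε) (by rw [sub_neg_eq_add]; exact hε)
      rw [sub_neg_eq_add] at h3
      exact h3
    obtain ⟨m0, hm0⟩ := hne
    have h3 := period hw1 hy hnC' hbC' (fun m ↦ aff w0 (q m)) ⟨m0, by
      rw [aeval_aff]
      have h4 := hvec 0 (by rw [add_zero]; exact hw1)
      rw [add_zero, neg_zero, flw_zero] at h4
      rw [← h4]
      exact hm0⟩ (by
      have ht : Filter.Tendsto (fun ε : ℂ ↦ -ε) (𝓝 0) (𝓝 0) := by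
        have : Continuous fun ε : ℂ ↦ -ε := continuous_neg
        have h4 := this.tendsto 0
        rwa [neg_zero] at h4
      have hpos : ∀ᶠ ε in 𝓝 (0 : ℂ), 0 < (-1 / w0 + ε).im := by
        have hc : ContinuousAt (fun ε : ℂ ↦ (-1 / w0 + ε).im) 0 := by
          apply Continuous.continuousAt
          fun_prop
        refine hc.eventually (lt_mem_nhds ?_)
        beta_reduce
        rw [add_zero]
        exact hw1
      filter_upwards [ht.eventually h2, hpos] with ε hε hp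
      rw [← hε]
      refine Finset.sum_congr rfl fun m _ ↦ ?_
      rw [aeval_aff, ← hvec ε hp, flw_neg y0])
    intro i
    obtain ⟨x, hx⟩ := h3 i
    refine ⟨-x, ?_⟩
    push_cast
    rw [← hx, Pi.neg_apply, neg_neg]

end H32.T4
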