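import Mathlib

/-!
# Derivations of finitely generated field extensions in characteristic zero
-/

open scoped TensorProduct KaehlerDifferential

namespace H32.T4

variable {K E : Type} [Field K] [Field E] [Algebra K E]

/-- A finitely generated extension without nonzero derivations is algebraic. -/
theorem alg_of_no_der [CharZero K] (L : IntermediateField K E) (hL : L.FG)
    (h : ∀ δ : Derivation K L E, δ = 0) : Algebra.IsAlgebraic K L := by
  have : Algebra.EssFiniteType K L := IntermediateField.essFiniteType_iff.mpr hL
  have hsub : Subsingleton (Ω[L⁄K]) := by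
    by_contra hcon
    rw [not_subsingleton_iff_nontrivial] at hcon
    obtain ⟨y, hy⟩ := exists_ne (0 : Ω[L⁄K])
    obtain ⟨f, hf⟩ := Module.Projective.exists_dual_ne_zero L hy
    set g : Ω[L⁄K] →ₗ[L] E := (Algebra.linearMap L E).comp f with hg
    have h1 := h (g.compDer (KaehlerDifferential.D K L))
    have h2 : g = 0 := by
      apply Derivation.liftKaehlerDifferential_unique
      rw [h1]
      ext x
      simp
    apply hf
    have h3 := LinearMap.congr_fun h2 y
    have h4 : algebraMap L E (f y) = 0 := h3
    exact (map_eq_zero _).mp h4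
  have h1 : Algebra.FormallyUnramified K L := ⟨hsub⟩
  have h2 : Algebra.IsSeparable K L := (Algebra.FormallyUnramified.iff_isSeparable K L).mp h1
  infer_instance

/-- Derivations are determined by the generators. -/
theorem der_ext {S : Set E} {L : IntermediateField K E} (hL : L = IntermediateField.adjoin K S)
    (δ : Derivation K L E) (h : ∀ x : L, (x : E) ∈ S → δ x = 0) : δ = 0 := by
  subst hL
  ext x
  obtain ⟨x, hx⟩ := x
  induction hx using IntermediateField.adjoin_induction with
  | mem x hx => exact h _ hx
  | algebraMap x => exact δ.map_algebraMap x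
  | add x y hx hy h1 h2 =>
    have : (⟨x + y, add_mem hx hy⟩ : IntermediateField.adjoin K S) = ⟨x, hx⟩ + ⟨y, hy⟩ := rfl
    rw [this, map_add, h1, h2]
    simp
  | inv x hx h1 =>
    have e : (⟨x⁻¹, inv_mem hx⟩ : IntermediateField.adjoin K S) = (⟨x, hx⟩)⁻¹ := rfl
    have h1' : δ ⟨x, hx⟩ = 0 := h1
    rw [e, Derivation.leibniz_inv, h1']
    simp
  | mul x y hx hy h1 h2 =>
    have : (⟨x * y, mul_mem hx hy⟩ : IntermediateField.adjoin K S) = ⟨x, hx⟩ * ⟨y, hy⟩ := rfl
    have h1' : δ ⟨x, hx⟩ = 0 := h1
    have h2' : δ ⟨y, hy⟩ = 0 := h2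
    rw [this, Derivation.leibniz, h1', h2']
    simp

end H32.T4
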