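import Pool.Agent.H32.T4.A19

/-!
# The theorem on pairs (end)
-/

set_option linter.unusedSimpArgs false

open UpperHalfPlane hiding I
open Complex EisensteinSeries ModularForm MatrixGroups Manifold
open scoped Real Topology
open MvPolynomial Filter

namespace H32.T4

/-- Adjoining the solution, as a field over the complex numbers. -/
noncomputable def adE (F : IntermediateField ℂ MG) (φ : Gm) : IntermediateField ℂ MG :=
  (IntermediateField.adjoin F (Set.range φ.v)).restrictScalars ℂ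

lemma le_adE (F : IntermediateField ℂ MG) (φ : Gm) {x : MG} (hx : x ∈ F) : x ∈ adE F φ :=
  (IntermediateField.adjoin F (Set.range φ.v)).algebraMap_mem ⟨x, hx⟩

lemma v_mem_adE (F : IntermediateField ℂ MG) (φ : Gm) (l : Fin 3) : φ.v l ∈ adE F φ :=
  IntermediateField.subset_adjoin F (Set.range φ.v) ⟨l, rfl⟩

lemma stab_adE {F : IntermediateField ℂ MG} (hF : Stab F) {φ : Gm} (hφ : φ.z ∈ F) :
    Stab (adE F φ) := by
  refine stab_adjoin hF (IntermediateField.adjoin F (Set.range φ.v)) rfl ?_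
  rintro _ ⟨l, rfl⟩
  rw [φ.DD_v]
  have hm : ∀ l, φ.v l ∈ IntermediateField.adjoin F (Set.range φ.v) := fun l ↦
    IntermediateField.subset_adjoin F (Set.range φ.v) ⟨l, rfl⟩
  have h1 := map_Rm (IsScalarTower.toAlgHom ℂ (IntermediateField.adjoin F (Set.range φ.v)) MG)
    (fun l ↦ (⟨φ.v l, hm l⟩ : IntermediateField.adjoin F (Set.range φ.v))) l
  change ((Rm (fun l ↦ (⟨φ.v l, hm l⟩ : IntermediateField.adjoin F (Set.range φ.v))) l :
    IntermediateField.adjoin F (Set.range φ.v)) : MG) = Rm φ.v l at h1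
  rw [← h1]
  exact mul_mem ((IntermediateField.adjoin F (Set.range φ.v)).algebraMap_mem ⟨DD φ.z, hF _ hφ⟩)
    (Subtype.mem _)

/-- The core of the theorem on pairs. -/
theorem pair_core {F : IntermediateField ℂ MG} {φ ψ : Gm} (h : PairHyp F φ ψ)
    (hc2 : ∀ a : ℂ, ψ.z ≠ algebraMap ℂ MG a) : GRel φ ψ := by
  classical
  obtain ⟨A, B, C, hA0, hC0, hRA, hRC, hB, hBA, hBC, hx⟩ := exists_triple h
  have hnA : A 0 ^ 2 + A 1 * A 2 = 0 := nil_of_br hBA
  have hnC : C 0 ^ 2 + C 1 * C 2 = 0 := by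
    refine nil_of_br (σ := -B) ?_
    have e : br (-B) C = -br B C := by
      ext i
      fin_cases i
      · simp [br]; ring
      · simp [br]; ring
      · simp [br]; ring
    rw [e, hBC]
    ext i
    simp
  subst hB
  -- the relation
  obtain ⟨N, q, ⟨m0, hm0⟩, hq⟩ := exists_rel (h.alg 2)
  set W : Finset (Fin 3 →₀ ℕ) := Finset.univ.biUnion fun m ↦ (q m).support with hW
  have hWs : ∀ m, (q m).support ⊆ W := fun m ↦
    Finset.subset_biUnion_of_mem (fun m ↦ (q m).support) (Finset.mem_univ m)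
  set k : Ix N W → F := Sum.elim ![⟨φ.z, h.hφ⟩, ⟨ψ.z, h.hψ⟩] (fun p ↦ coeff p.2.1 (q p.1)) with hk
  have hqe : ∀ m, aeval φ.v (q m) =
      ∑ ν : {ν // ν ∈ W}, ((coeff ν.1 (q m) : F) : MG) * ∏ l, φ.v l ^ (ν.1 l) := by
    intro m
    have e := Finset.sum_coe_sort W (fun ν ↦ ((coeff ν (q m) : F) : MG) * ∏ l, φ.v l ^ (ν l))
    refine Eq.trans ?_ e.symm
    rw [aeval_def, eval₂_eq']
    refine Finset.sum_subset_zero_on_sdiff (hWs m) ?_ ?_
    · intro ν hν
      rw [Finset.mem_sdiff, MvPolynomial.mem_support_iff, not_not] at hν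
      rw [hν.2]
      simp
    · intro ν _
      rfl
  have hU : aeval (Sum.elim (fun i ↦ (k i : MG)) (Sum.elim φ.v ψ.v)) (UU N W) = 0 := by
    rw [aeval_UU, ← hq]
    refine Finset.sum_congr rfl fun m _ ↦ ?_
    rw [hqe]
    rfl
  choose g hg hgk using fun i : Ix N W ↦ exists_rep ((k i : F) : MG)
  have hflow := pair_flow k (Sum.inl 0) (Sum.inl 1) rfl rfl (UU N W) hU g hg hgk
  -- generic nonvanishing
  have hgen : ∀ᶠ ζ in NE, aeval (ee (φ.f ζ)) (qz fun ν ↦ g (Sum.inr (m0, ν)) ζ) ≠ 0 := by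
    set f : Ix N W ⊕ (Fin 3 ⊕ Fin 3) → ℂ → ℂ :=
      Sum.elim g (Sum.elim (fun l ζ ↦ ee (φ.f ζ) l) (fun l ζ ↦ ee (ψ.f ζ) l)) with hf
    have hfm : ∀ i, MeromorphicAt (f i) 0 := by
      rintro (m | l | l)
      · exact hg m
      · exact (φ.an_ee l).meromorphicAt
      · exact (ψ.an_ee l).meromorphicAt
    have hfk : (fun i ↦ mk (f i) (hfm i)) =
        Sum.elim (fun i ↦ (k i : MG)) (Sum.elim φ.v ψ.v) := by
      ext i
      rcases i with m | l | l
      · exact hgk m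
      · rfl
      · rfl
    obtain ⟨hmer, he⟩ := aeval_mk f hfm (Uq m0)
    rw [hfk, aeval_Uq] at he
    have he2 : aeval φ.v (q m0) = mk _ hmer := by
      rw [hqe, ← he]
      rfl
    have hfun : (fun ζ ↦ aeval (fun i ↦ f i ζ) (Uq (W := W) m0)) =
        fun ζ ↦ aeval (ee (φ.f ζ)) (qz fun ν ↦ g (Sum.inr (m0, ν)) ζ) := by
      ext ζ
      rw [aeval_Uq, aeval_qz]
      rfl
    rcases hmer.eventually_eq_zero_or_eventually_ne_zero with h1 | h1
    · exfalso
      apply hm0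
      rw [he2, mk_eq_zero]
      exact h1
    · have h2 : ∀ᶠ ζ in NE, (fun ζ ↦ aeval (fun i ↦ f i ζ) (Uq (W := W) m0)) ζ ≠ 0 := h1
      rw [hfun] at h2
      exact h2
  have hevA := ev_bb ψ hc2 hA0
  have hevC := ev_bb ψ hc2 hC0
  have hpφ := φ.ev_pos.filter_mono (nhdsWithin_le_nhds (s := {0}ᶜ))
  have hpψ := ψ.ev_pos.filter_mono (nhdsWithin_le_nhds (s := {0}ᶜ))
  have hgood := hflow.and (hgen.and (hevA.and (hevC.and (hpφ.and hpψ))))
  -- rationality
  obtain ⟨hArat, hCrat⟩ : (∀ i, ∃ x : ℚ, A i = x) ∧ ∀ i, ∃ x : ℚ, C i = x := by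
    obtain ⟨ζ, h1, h2, h3, h4, h5, h6⟩ := hgood.exists
    refine at_point h5 h6 hnA hnC h3 h4 (fun m ↦ qz fun ν ↦ g (Sum.inr (m, ν)) ζ) ⟨m0, h2⟩ ?_ ?_
    · filter_upwards [h1 ![0, 1, 0] A hRA (by simp) hnA] with ε hε
      rwa [aeval_specg_UU] at hε
    · filter_upwards [h1 ![0, 0, 1] C hRC (by simp) hnC] with ε hε
      rwa [aeval_specg_UU] at hε
  obtain ⟨a, b, c, d, hdet, hcl⟩ := classif hArat hCrat hA0 hnA hnC hBA
  refine ⟨a, b, c, d, hdet, ?_⟩
  filter_upwards [hgood] with ζ hζ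
  obtain ⟨h1, h2, h3, h4, h5, h6⟩ := hζ
  apply hcl
  by_contra hcon
  obtain ⟨hR, hbr⟩ := hx (φ.f ζ)
  have hnn := nil_of_br hbr
  have h7 := h1 _ _ hR (by
    simp only [Matrix.cons_val_zero, Matrix.cons_val_one, Matrix.cons_val]
    ring) hnn
  refine no_single h6 hcon (fun m ε ↦ aeval (![e2 (φ.f ζ) + cK ℂ * ε, e4 (φ.f ζ), e6 (φ.f ζ)] :
    Fin 3 → ℂ) (qz fun ν ↦ g (Sum.inr (m, ν)) ζ)) ?_ (m0 := m0) ?_ ?_
  · intro m ε _
    refine AnalyticAt.aeval_mvPolynomial (fun i ↦ ?_) _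
    fin_cases i
    · change AnalyticAt ℂ (fun ε ↦ e2 (φ.f ζ) + cK ℂ * ε) ε
      fun_prop
    · exact analyticAt_const
    · exact analyticAt_const
  · have e : (![e2 (φ.f ζ) + cK ℂ * 0, e4 (φ.f ζ), e6 (φ.f ζ)] : Fin 3 → ℂ) = ee (φ.f ζ) := by
      rw [mul_zero, add_zero]
      rfl
    rw [e]
    exact h2
  · filter_upwards [h7] with ε hε
    rw [aeval_specg_UU, flw_n] at hε
    exact hε

theorem pair_thm {F : IntermediateField ℂ MG} (hF : Stab F) {φ ψ : Gm} (hφ : φ.z ∈ F)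
    (hψ : ψ.z ∈ F) (hc1 : ∀ a : ℂ, φ.z ≠ algebraMap ℂ MG a)
    (hc2 : ∀ a : ℂ, ψ.z ≠ algebraMap ℂ MG a) (h1 : AlgebraicIndependent F φ.v)
    (h2 : AlgebraicIndependent F ψ.v) (hrel : ¬ GRel φ ψ) :
    AlgebraicIndependent (IntermediateField.adjoin F (Set.range φ.v)) ψ.v := by
  by_contra hcon
  apply hrel
  refine pair_core (F := F) ⟨hF, hφ, hψ, h1, ?_, ?_⟩ hc2
  · have h3 := single (adE F φ) (stab_adE hF hφ) ψ (le_adE F φ hψ) hc2
    exact h3.resolve_left hcon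
  · have h3 := single (adE F ψ) (stab_adE hF hψ) φ (le_adE F ψ hφ) hc1
    refine h3.resolve_left fun h4 ↦ hcon ?_
    have h5 : AlgebraicIndependent (IntermediateField.adjoin F (Set.range ψ.v)) φ.v := h4
    rw [IntermediateField.algebraicIndependent_adjoin_iff] at h5 ⊢
    have h6 : AlgebraicIndependent F (Sum.elim φ.v ψ.v) := h2.sumElim h5
    have h7 : AlgebraicIndependent F (Sum.elim ψ.v φ.v) := by
      have h8 := h6.comp Sum.swap (Sum.swap_leftInverse.injective)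
      have e : Sum.elim φ.v ψ.v ∘ Sum.swap = Sum.elim ψ.v φ.v := by
        ext i
        rcases i with i | i
        · rfl
        · rfl
      rwa [e] at h8
    exact (AlgebraicIndependent.sumElim_iff.mp h7).2

end H32.T4
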