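import Pool.Agent.H32.T4.A20

/-!
# The theorem of Ax-Lindemann type for several germs
-/

set_option linter.unusedSimpArgs false

open UpperHalfPlane hiding I
open Complex EisensteinSeries ModularForm MatrixGroups Manifold
open scoped Real Topology
open MvPolynomial Filter

namespace H32.T4

theorem AL_general (n : ℕ) : ∀ (F : IntermediateField ℂ MG) (_ : Stab F) (φ : Fin n → Gm)
    (_ : ∀ i, (φ i).z ∈ F) (_ : ∀ i, ∀ a : ℂ, (φ i).z ≠ algebraMap ℂ MG a)
    (_ : ∀ i j, i ≠ j → ¬ GRel (φ i) (φ j)) (_ : ∀ i, AlgebraicIndependent F (φ i).v),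
    AlgebraicIndependent F (fun p : Fin n × Fin 3 ↦ (φ p.1).v p.2) := by
  induction n with
  | zero =>
    intro F _ φ _ _ _ _
    rw [algebraicIndependent_empty_type_iff]
    exact (algebraMap F MG).injective
  | succ n ih =>
    intro F hF φ hz hnc hrel hs
    have h1 := ih (adE F (φ 0)) (stab_adE hF (hz 0)) (fun i ↦ φ i.succ)
      (fun i ↦ le_adE F _ (hz _)) (fun i ↦ hnc _)
      (fun i j hij ↦ hrel _ _ (fun h ↦ hij (Fin.succ_injective _ h)))
      (fun i ↦ pair_thm hF (hz 0) (hz i.succ) (hnc 0) (hnc i.succ) (hs 0) (hs i.succ)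
        (hrel 0 i.succ (Fin.succ_ne_zero i).symm))
    have h2 : AlgebraicIndependent (IntermediateField.adjoin F (Set.range (φ 0).v))
        (fun p : Fin n × Fin 3 ↦ (φ p.1.succ).v p.2) := h1
    rw [IntermediateField.algebraicIndependent_adjoin_iff] at h2
    have h3 := (hs 0).sumElim h2
    set e : Fin (n + 1) × Fin 3 → (Fin n × Fin 3) ⊕ Fin 3 := fun p ↦
      Fin.cases (motive := fun _ ↦ (Fin n × Fin 3) ⊕ Fin 3) (Sum.inr p.2)
        (fun i ↦ Sum.inl (i, p.2)) p.1 with he
    have hinj : Function.Injective e := by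
      rintro ⟨i, l⟩ ⟨j, l'⟩ h
      revert h
      refine Fin.cases ?_ (fun i ↦ ?_) i
      · refine Fin.cases ?_ (fun j ↦ ?_) j
        · intro h
          have : l = l' := Sum.inr.inj h
          rw [this]
        · intro h
          exact absurd h (by simp [he])
      · refine Fin.cases ?_ (fun j ↦ ?_) j
        · intro h
          exact absurd h (by simp [he])
        · intro h
          have h0 := Sum.inl.inj h
          have h5 : i = j := (Prod.mk.inj h0).1
          have h6 : l = l' := (Prod.mk.inj h0).2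
          rw [h5, h6]
    have h4 := h3.comp e hinj
    have h5 : Sum.elim (fun p : Fin n × Fin 3 ↦ (φ p.1.succ).v p.2) (φ 0).v ∘ e =
        fun p : Fin (n + 1) × Fin 3 ↦ (φ p.1).v p.2 := by
      ext ⟨i, l⟩
      refine Fin.cases ?_ (fun i ↦ ?_) i
      · rfl
      · rfl
    rwa [h5] at h4

/-- The germ of the identity. -/
noncomputable def XX : MG := mk (fun ζ ↦ ζ) analyticAt_id.meromorphicAt

lemma DD_XX : DD XX = 1 := by
  rw [XX, DD_mk, ← mk_one, mk_eq_mk]
  exact Eventually.of_forall fun z ↦ by simp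

lemma XX_transc : AlgebraicIndependent ℂ (fun _ : Unit ↦ XX) := by
  rw [AlgebraicIndependent, injective_iff_map_eq_zero]
  intro P hP
  have h1 := (aeval_mk_zero (fun (_ : Unit) ζ ↦ ζ) (fun _ ↦ analyticAt_id.meromorphicAt) P).mp hP
  have hana : AnalyticOnNhd ℂ (fun ζ ↦ aeval (fun _ : Unit ↦ ζ) P) Set.univ := fun ζ _ ↦
    AnalyticAt.aeval_mvPolynomial (fun _ ↦ (analyticAt_id : AnalyticAt ℂ (fun z : ℂ ↦ z) ζ)) _
  have h2 := hana.eqOn_zero_of_preconnected_of_frequently_eq_zero isPreconnected_univ
    (Set.mem_univ 0) h1.frequently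
  apply MvPolynomial.funext
  intro x
  rw [map_zero]
  have h3 : aeval (fun _ : Unit ↦ x ()) P = 0 := h2 (Set.mem_univ (x ()))
  have e : (fun _ : Unit ↦ x ()) = x := by ext u; rfl
  rw [e] at h3
  simpa [aeval_eq_eval] using h3

/-- The field of rational functions of the variable. -/
noncomputable def EX : IntermediateField ℂ MG := IntermediateField.adjoin ℂ {XX}

/-- The algebraic functions. -/
noncomputable def F0 : IntermediateField ℂ MG := (algebraicClosure EX MG).restrictScalars ℂ

lemma stab_EX : Stab EX := by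
  intro x hx
  induction hx using IntermediateField.adjoin_induction with
  | mem x hx =>
    rw [Set.mem_singleton_iff.mp hx, DD_XX]
    exact EX.one_mem
  | algebraMap c =>
    rw [DD_algebraMap]
    exact EX.zero_mem
  | add x y _ _ h1 h2 =>
    rw [map_add]
    exact add_mem h1 h2
  | inv x hx h1 =>
    rw [Derivation.leibniz_inv, smul_eq_mul]
    have hx' : x ∈ EX := hx
    exact mul_mem (neg_mem (pow_mem (inv_mem hx') 2)) h1
  | mul x y hx hy h1 h2 =>
    rw [Derivation.leibniz, smul_eq_mul, smul_eq_mul]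
    have hx' : x ∈ EX := hx
    have hy' : y ∈ EX := hy
    exact add_mem (mul_mem hx' h2) (mul_mem hy' h1)

/-- The algebraic closure of a stable field is stable. -/
lemma stab_algClosure {K : IntermediateField ℂ MG} (hK : Stab K) :
    Stab ((algebraicClosure K MG).restrictScalars ℂ) := by
  intro x hx
  have hx' : x ∈ algebraicClosure K MG := hx
  rw [mem_algebraicClosure_iff] at hx'
  change DD x ∈ algebraicClosure K MG
  set AC := algebraicClosure K MG with hAC
  have hxA : x ∈ AC := hx
  set p := minpoly K x with hp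
  have hpx : Polynomial.aeval x p = 0 := minpoly.aeval K x
  have hsep : Polynomial.aeval x (Polynomial.derivative p) ≠ 0 :=
    (minpoly.irreducible hx'.isIntegral).separable.aeval_derivative_ne_zero hpx
  have h1 : DD (Polynomial.aeval x p) = ∑ i ∈ Finset.range (p.natDegree + 1),
      DD ((p.coeff i : K) : MG) * x ^ i + Polynomial.aeval x (Polynomial.derivative p) * DD x := by
    rw [Polynomial.aeval_eq_sum_range, map_sum]
    have h2 : Polynomial.aeval x (Polynomial.derivative p) =
        ∑ i ∈ Finset.range (p.natDegree + 1), ((p.coeff i : K) : MG) * (i * x ^ (i - 1)) := by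
      rw [Polynomial.derivative_apply, Polynomial.sum_over_range _ (fun i ↦ by simp), map_sum]
      refine Finset.sum_congr rfl fun i _ ↦ ?_
      rw [map_mul, map_pow, Polynomial.aeval_C, Polynomial.aeval_X, map_mul, map_natCast]
      change ((p.coeff i : K) : MG) * _ * _ = _
      ring
    rw [h2, Finset.sum_mul, ← Finset.sum_add_distrib]
    refine Finset.sum_congr rfl fun i _ ↦ ?_
    rw [Algebra.smul_def, Derivation.leibniz, Derivation.leibniz_pow, smul_eq_mul, smul_eq_mul,
      smul_eq_mul, nsmul_eq_mul]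
    change ((p.coeff i : K) : MG) * _ + _ * DD ((p.coeff i : K) : MG) = _
    ring
  rw [hpx, map_zero] at h1
  have h3 : DD x = -(∑ i ∈ Finset.range (p.natDegree + 1), DD ((p.coeff i : K) : MG) * x ^ i) *
      (Polynomial.aeval x (Polynomial.derivative p))⁻¹ := by
    field_simp
    linear_combination -h1
  rw [h3]
  refine mul_mem (neg_mem (sum_mem fun i _ ↦ mul_mem ?_ (pow_mem hxA i))) (inv_mem ?_)
  · exact AC.algebraMap_mem ⟨DD ((p.coeff i : K) : MG), hK _ (p.coeff i).2⟩
  · rw [Polynomial.aeval_eq_sum_range]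
    refine sum_mem fun i _ ↦ ?_
    rw [Algebra.smul_def]
    exact mul_mem (AC.algebraMap_mem _) (pow_mem hxA i)

end H32.T4
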