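import Pool.Agent.H32.T4.A21

/-!
# The theorem of Ax-Lindemann type for several algebraic germs
-/

set_option linter.unusedSimpArgs false

open UpperHalfPlane hiding I
open Complex EisensteinSeries ModularForm MatrixGroups Manifold
open scoped Real Topology
open MvPolynomial Filter

namespace H32.T4

lemma ev_ne_const (φ : Gm) (hnc : ∀ a : ℂ, φ.z ≠ algebraMap ℂ MG a) :
    ∀ᶠ ζ in NE, φ.f ζ ≠ φ.f 0 := by
  have h1 : AnalyticAt ℂ (fun ζ ↦ φ.f ζ - φ.f 0) 0 := φ.an.fun_sub analyticAt_const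
  rcases h1.eventually_eq_zero_or_eventually_ne_zero with h | h
  · exfalso
    apply hnc (φ.f 0)
    rw [algebraMap_MG, Gm.z, mk_eq_mk]
    filter_upwards [h.filter_mono nhdsWithin_le_nhds] with ζ hζ
    linear_combination hζ
  · filter_upwards [h] with ζ hζ h0
    exact hζ (by rw [h0, sub_self])

lemma zv_indep (φ : Gm) (hnc : ∀ a : ℂ, φ.z ≠ algebraMap ℂ MG a) :
    AlgebraicIndependent ℂ (Sum.elim φ.v (fun _ : Unit ↦ φ.z)) := by
  rw [AlgebraicIndependent, injective_iff_map_eq_zero]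
  intro P hP
  set f : Fin 3 ⊕ Unit → ℂ → ℂ := Sum.elim (fun l ζ ↦ ee (φ.f ζ) l) (fun _ ζ ↦ φ.f ζ) with hf
  have hfm : ∀ i, MeromorphicAt (f i) 0 := by
    rintro (l | _)
    · exact (φ.an_ee l).meromorphicAt
    · exact φ.an.meromorphicAt
  have hfk : (fun i ↦ mk (f i) (hfm i)) = Sum.elim φ.v (fun _ : Unit ↦ φ.z) := by
    ext i
    rcases i with l | _
    · rfl
    · rfl
  rw [← hfk, aeval_mk_zero] at hP
  set g : ℂ → ℂ := fun w ↦ aeval (Sum.elim (ee w) (fun _ : Unit ↦ w)) P with hg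
  have hgan : AnalyticAt ℂ g (φ.f 0) := by
    refine AnalyticAt.aeval_mvPolynomial (fun i ↦ ?_) _
    rcases i with l | _
    · exact analytic_ee φ.pos l
    · exact analyticAt_id
  have hPg : ∀ᶠ ζ in NE, g (φ.f ζ) = 0 := by
    filter_upwards [hP] with ζ hζ
    have e0 : (fun i ↦ f i ζ) = Sum.elim (ee (φ.f ζ)) (fun _ : Unit ↦ φ.f ζ) := by
      ext i
      rcases i with l | _
      · rfl
      · rfl
    rw [e0] at hζ
    exact hζ
  have hg0 : ∀ᶠ w in 𝓝 (φ.f 0), g w = 0 := by
    rcases hgan.eventually_eq_zero_or_eventually_ne_zero with h | h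
    · exact h
    · exfalso
      have ht : Tendsto φ.f NE (𝓝[≠] (φ.f 0)) := by
        rw [tendsto_nhdsWithin_iff]
        exact ⟨φ.an.continuousAt.tendsto.mono_left nhdsWithin_le_nhds, ev_ne_const φ hnc⟩
      obtain ⟨ζ, h1, h2⟩ := ((ht.eventually h).and hPg).exists
      exact h1 h2
  set e : Fin 3 ⊕ Unit → Fin 4 := Sum.elim Fin.succ (fun _ ↦ 0) with he
  have hinj : Function.Injective e := by
    rintro (a | a) (b | b) h
    · exact congrArg Sum.inl (Fin.succ_injective _ h)
    · exact absurd h (Fin.succ_ne_zero a)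
    · exact absurd h.symm (Fin.succ_ne_zero b)
    · rfl
  have h1 : rename e P = 0 := by
    apply indep_local φ.pos
    filter_upwards [hg0] with w hw
    have e0 : (![w, e2 w, e4 w, e6 w] : Fin 4 → ℂ) ∘ e = Sum.elim (ee w) (fun _ : Unit ↦ w) := by
      ext i
      rcases i with l | _
      · fin_cases l
        · rfl
        · rfl
        · rfl
      · rfl
    rw [aeval_rename, e0]
    exact hw
  exact rename_injective e hinj (by rw [h1, map_zero])

lemma isAlg_mono {K K' : IntermediateField ℂ MG} (h : K ≤ K') {x : MG} (hx : IsAlgebraic K x) :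
    IsAlgebraic K' x := by
  obtain ⟨p, hp, hpx⟩ := hx
  set f := IntermediateField.inclusion h with hf
  refine ⟨p.map f.toRingHom, ?_, ?_⟩
  · rw [Polynomial.map_ne_zero_iff f.injective]
    exact hp
  · rw [← hpx, Polynomial.aeval_def, Polynomial.eval₂_map, Polynomial.aeval_def]
    rfl

lemma algInd_mono {K K' : IntermediateField ℂ MG} (h : K ≤ K') {ι : Type} {v : ι → MG}
    (hv : AlgebraicIndependent K' v) : AlgebraicIndependent K v := by
  let f := IntermediateField.inclusion h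
  let _ : Algebra K K' := f.toRingHom.toAlgebra
  have : IsScalarTower K K' MG := IsScalarTower.of_algebraMap_eq fun _ ↦ rfl
  exact hv.restrictScalars (R := K) f.injective

/-- Exchange. -/
lemma exchange {x y : MG} (hy : AlgebraicIndependent ℂ (fun _ : Unit ↦ y))
    (h : IsAlgebraic (IntermediateField.adjoin ℂ {x}) y) :
    IsAlgebraic (IntermediateField.adjoin ℂ {y}) x := by
  by_contra hcon
  have h1 : AlgebraicIndependent (IntermediateField.adjoin ℂ {y}) (fun _ : Unit ↦ x) :=
    algebraicIndependent_unique_type_iff.mpr hcon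
  rw [IntermediateField.algebraicIndependent_adjoin_iff] at h1
  have e1 : ({y} : Set MG) = Set.range (fun _ : Unit ↦ y) := by simp
  rw [e1] at h1
  have h2 := hy.sumElim h1
  have h3 := h2.comp Sum.swap (Sum.swap_leftInverse.injective)
  have e2 : Sum.elim (fun _ : Unit ↦ x) (fun _ : Unit ↦ y) ∘ Sum.swap =
      Sum.elim (fun _ : Unit ↦ y) (fun _ : Unit ↦ x) := by
    ext i
    rcases i with i | i
    · rfl
    · rfl
  rw [e2] at h3
  have h4 := (AlgebraicIndependent.sumElim_iff.mp h3).2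
  have e3 : Set.range (fun _ : Unit ↦ x) = ({x} : Set MG) := by simp
  rw [e3, ← IntermediateField.algebraicIndependent_adjoin_iff] at h4
  exact (algebraicIndependent_unique_type_iff.mp h4) h

lemma z_transc (φ : Gm) (hnc : ∀ a : ℂ, φ.z ≠ algebraMap ℂ MG a) :
    AlgebraicIndependent ℂ (fun _ : Unit ↦ φ.z) :=
  (AlgebraicIndependent.sumElim_iff.mp (zv_indep φ hnc)).1

theorem single_F0 (φ : Gm) (hnc : ∀ a : ℂ, φ.z ≠ algebraMap ℂ MG a) (halg : IsAlgebraic EX φ.z) :
    AlgebraicIndependent F0 φ.v := by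
  set K1 : IntermediateField ℂ MG := IntermediateField.adjoin ℂ {φ.z} with hK1
  have hX : IsAlgebraic K1 XX := exchange (z_transc φ hnc) halg
  have h1 : AlgebraicIndependent K1 φ.v := by
    have h2 := (AlgebraicIndependent.sumElim_iff.mp (zv_indep φ hnc)).2
    have e3 : Set.range (fun _ : Unit ↦ φ.z) = ({φ.z} : Set MG) := by simp
    rw [e3, ← IntermediateField.algebraicIndependent_adjoin_iff] at h2
    exact h2
  have h2 : AlgebraicIndependent ((algebraicClosure K1 MG).restrictScalars ℂ) φ.v :=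
    h1.algebraicClosure
  refine algInd_mono ?_ h2
  intro x hx
  have hx' : x ∈ algebraicClosure EX MG := hx
  rw [mem_algebraicClosure_iff] at hx'
  change x ∈ algebraicClosure K1 MG
  rw [mem_algebraicClosure_iff]
  have hle : EX ≤ (algebraicClosure K1 MG).restrictScalars ℂ := by
    rw [EX, IntermediateField.adjoin_le_iff, Set.singleton_subset_iff]
    change XX ∈ algebraicClosure K1 MG
    rw [mem_algebraicClosure_iff]
    exact hX
  have h3 := isAlg_mono hle hx'
  have h4 : IsAlgebraic (algebraicClosure K1 MG) x := h3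
  exact h4.restrictScalars K1

/-- The theorem of Ax-Lindemann type, with derivatives. -/
theorem AL {n : ℕ} (φ : Fin n → Gm) (halg : ∀ i, IsAlgebraic EX (φ i).z)
    (hnc : ∀ i, ∀ a : ℂ, (φ i).z ≠ algebraMap ℂ MG a)
    (hrel : ∀ i j, i ≠ j → ¬ GRel (φ i) (φ j)) (P : MvPolynomial (Unit ⊕ Fin n × Fin 3) ℂ)
    (h : ∀ᶠ ζ in 𝓝 (0 : ℂ), aeval (Sum.elim (fun _ ↦ ζ)
      (fun p ↦ ee ((φ p.1).f ζ) p.2)) P = 0) : P = 0 := by
  have hF0 : Stab F0 := stab_algClosure stab_EX
  have h1 := AL_general n F0 hF0 φ (fun i ↦ by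
    change (φ i).z ∈ algebraicClosure EX MG
    rw [mem_algebraicClosure_iff]
    exact halg i) hnc hrel (fun i ↦ single_F0 (φ i) (hnc i) (halg i))
  have hle : EX ≤ F0 := fun x hx ↦ (algebraicClosure EX MG).algebraMap_mem ⟨x, hx⟩
  have h2 : AlgebraicIndependent EX (fun p : Fin n × Fin 3 ↦ (φ p.1).v p.2) := algInd_mono hle h1
  rw [EX, IntermediateField.algebraicIndependent_adjoin_iff] at h2
  have e1 : ({XX} : Set MG) = Set.range (fun _ : Unit ↦ XX) := by simp
  rw [e1] at h2
  have h3 := XX_transc.sumElim h2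
  have h4 := h3.comp Sum.swap (Sum.swap_leftInverse.injective)
  set f : Unit ⊕ Fin n × Fin 3 → ℂ → ℂ :=
    Sum.elim (fun _ ζ ↦ ζ) (fun p ζ ↦ ee ((φ p.1).f ζ) p.2) with hf
  have hfm : ∀ i, MeromorphicAt (f i) 0 := by
    rintro (_ | p)
    · exact analyticAt_id.meromorphicAt
    · exact ((φ p.1).an_ee p.2).meromorphicAt
  have hfk : Sum.elim (fun p : Fin n × Fin 3 ↦ (φ p.1).v p.2) (fun _ : Unit ↦ XX) ∘ Sum.swap =
      fun i ↦ mk (f i) (hfm i) := by
    ext i
    rcases i with _ | p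
    · rfl
    · rfl
  rw [hfk, AlgebraicIndependent, injective_iff_map_eq_zero] at h4
  apply h4
  rw [aeval_mk_zero]
  filter_upwards [h.filter_mono nhdsWithin_le_nhds] with ζ hζ
  rw [← hζ]
  congr 2
  ext i
  rcases i with _ | p
  · rfl
  · rfl

end H32.T4
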