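import Pool.Agent.H32.T4.A2

/-!
# Extension of derivations
-/

open scoped TensorProduct KaehlerDifferential

namespace H32.T4

variable {K E : Type} [Field K] [Field E] [Algebra K E] [CharZero K]

/-- The derivation of a polynomial subalgebra with given values. -/
noncomputable def polyDer {ι : Type} [Fintype ι] [DecidableEq ι] {L : Type} [Field L] [Algebra K L]
    [Algebra L E] [IsScalarTower K L E] {v : ι → L} (hv : AlgebraicIndependent K v) (x : ι → E) :
    Derivation K (Algebra.adjoin K (Set.range v)) E where
  toFun s := ∑ i, algebraMap L E (MvPolynomial.aeval v (MvPolynomial.pderiv i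
    (hv.aevalEquiv.symm s))) * x i
  map_add' s t := by
    rw [← Finset.sum_add_distrib]
    refine Finset.sum_congr rfl fun i _ ↦ ?_
    rw [map_add, map_add, map_add, map_add]
    ring
  map_smul' c s := by
    rw [RingHom.id_apply, Finset.smul_sum]
    refine Finset.sum_congr rfl fun i _ ↦ ?_
    rw [map_smul, Derivation.map_smul, map_smul, Algebra.smul_def, map_mul, Algebra.smul_def,
      ← IsScalarTower.algebraMap_apply]
    ring
  map_one_eq_zero' := by
    refine Finset.sum_eq_zero fun i _ ↦ ?_
    change algebraMap L E (MvPolynomial.aeval v (MvPolynomial.pderiv i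
      (hv.aevalEquiv.symm 1))) * x i = 0
    rw [map_one, MvPolynomial.pderiv_one, map_zero, map_zero, zero_mul]
  leibniz' s t := by
    change ∑ i, algebraMap L E (MvPolynomial.aeval v (MvPolynomial.pderiv i
      (hv.aevalEquiv.symm (s * t)))) * x i = s • (∑ i, algebraMap L E (MvPolynomial.aeval v
        (MvPolynomial.pderiv i (hv.aevalEquiv.symm t))) * x i) + t • ∑ i, algebraMap L E
        (MvPolynomial.aeval v (MvPolynomial.pderiv i (hv.aevalEquiv.symm s))) * x i
    have hs : ∀ s : Algebra.adjoin K (Set.range v), MvPolynomial.aeval v (hv.aevalEquiv.symm s) =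
        (s : L) := by
      intro s
      have h1 := hv.algebraMap_aevalEquiv (hv.aevalEquiv.symm s)
      rw [AlgEquiv.apply_symm_apply] at h1
      exact h1.symm
    rw [Finset.smul_sum, Finset.smul_sum, ← Finset.sum_add_distrib]
    refine Finset.sum_congr rfl fun i _ ↦ ?_
    rw [map_mul, Derivation.leibniz, smul_eq_mul, smul_eq_mul, map_add, map_mul, map_mul, map_add,
      map_mul, map_mul, hs, hs, Algebra.smul_def, Algebra.smul_def]
    have e : ∀ s : Algebra.adjoin K (Set.range v), algebraMap (Algebra.adjoin K (Set.range v)) E s =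
        algebraMap L E s := fun s ↦ rfl
    rw [e, e]
    ring

open scoped IntermediateField.algebraAdjoinAdjoin in
lemma smooth_poly {ι : Type} (L : IntermediateField K E)
    (hL : L.FG) {v : ι → L} (_hv : AlgebraicIndependent K v) :
    Algebra.FormallySmooth (Algebra.adjoin K (Set.range v)) L := by
  have i1 : Algebra.EssFiniteType K L := IntermediateField.essFiniteType_iff.mpr hL
  have h1 : Algebra.FormallySmooth (Algebra.adjoin K (Set.range v))
      (IntermediateField.adjoin K (Set.range v)) :=
    .of_isLocalization (nonZeroDivisors _)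
  have h2 : Algebra.EssFiniteType (IntermediateField.adjoin K (Set.range v)) L :=
    Algebra.EssFiniteType.of_comp K _ L
  have h3 : Algebra.FormallySmooth (IntermediateField.adjoin K (Set.range v)) L := inferInstance
  exact .comp _ (IntermediateField.adjoin K (Set.range v)) _

/-- Extension of derivations with given values. -/
theorem exists_der_ext {ι : Type} [Fintype ι] [DecidableEq ι] (L : IntermediateField K E)
    (hL : L.FG) {v : ι → L} (hv : AlgebraicIndependent K v) (x : ι → E) :
    ∃ δ : Derivation K L E, ∀ i, δ (v i) = x i := by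
  set S := Algebra.adjoin K (Set.range v) with hS
  have i2 : Algebra.FormallySmooth S L := smooth_poly L hL hv
  have hinj : Function.Injective (KaehlerDifferential.mapBaseChange K S L) := by
    rw [injective_iff_map_eq_zero]
    intro y hy
    obtain ⟨z, rfl⟩ := (Algebra.H1Cotangent.exact_δ_mapBaseChange K S L y).mp hy
    have : Subsingleton (Algebra.H1Cotangent S L) := Algebra.FormallySmooth.subsingleton_h1Cotangent
    rw [Subsingleton.elim z 0, map_zero]
  obtain ⟨g, hg⟩ := (KaehlerDifferential.mapBaseChange K S L).exists_leftInverse_of_injective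
    (LinearMap.ker_eq_bot.mpr hinj)
  set d := polyDer hv x with hd
  set h : L ⊗[S] Ω[S⁄K] →ₗ[L] E := LinearMap.liftBaseChange L d.liftKaehlerDifferential with hh
  refine ⟨(h.comp g).compDer (KaehlerDifferential.D K L), fun i ↦ ?_⟩
  have hvi : v i ∈ Algebra.adjoin K (Set.range v) := Algebra.subset_adjoin ⟨i, rfl⟩
  set s : S := ⟨v i, hvi⟩ with hs
  have e1 : KaehlerDifferential.D K L (v i) =
      KaehlerDifferential.mapBaseChange K S L (1 ⊗ₜ KaehlerDifferential.D K S s) := by
    rw [KaehlerDifferential.mapBaseChange_tmul, one_smul, KaehlerDifferential.map_D]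
    rfl
  change h (g (KaehlerDifferential.D K L (v i))) = x i
  rw [e1]
  have e2 := LinearMap.congr_fun hg (1 ⊗ₜ KaehlerDifferential.D K S s)
  rw [LinearMap.comp_apply, LinearMap.id_apply] at e2
  rw [e2, hh, LinearMap.liftBaseChange_tmul, one_smul, Derivation.liftKaehlerDifferential_comp_D]
  have e3 : hv.aevalEquiv.symm s = MvPolynomial.X i := by
    rw [AlgEquiv.symm_apply_eq]
    apply Subtype.ext
    have h1 := hv.algebraMap_aevalEquiv (MvPolynomial.X i)
    rw [MvPolynomial.aeval_X] at h1
    exact h1.symm
  change ∑ j, algebraMap L E (MvPolynomial.aeval v (MvPolynomial.pderiv j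
    (hv.aevalEquiv.symm s))) * x j = x i
  rw [e3, Finset.sum_eq_single i]
  · simp
  · intro j _ hj
    rw [MvPolynomial.pderiv_X_of_ne (Ne.symm hj)]
    simp
  · intro hi
    exact absurd (Finset.mem_univ i) hi

end H32.T4
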