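import Pool.Agent.H32.T4.A1
import Pool.Agent.H32.T4.A3

/-!
# Frames
-/

set_option linter.unusedSimpArgs false

open Filter
open scoped Topology Real

namespace H32.T4

section frame

variable {E : Type} [CommRing E] [Algebra ℂ E]

/-- pi i / 6 -/
noncomputable def cA (E : Type) [CommRing E] [Algebra ℂ E] : E :=
  algebraMap ℂ E (π * Complex.I / 6)

/-- 6 i / pi -/
noncomputable def cK (E : Type) [CommRing E] [Algebra ℂ E] : E :=
  algebraMap ℂ E (6 * Complex.I / π)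

lemma pi_ne : (π : ℂ) ≠ 0 := by exact_mod_cast Real.pi_ne_zero

lemma cA_mul_cK : cA E * cK E = -1 := by
  unfold cA cK
  rw [← map_mul]
  have : (π * Complex.I / 6) * (6 * Complex.I / π) = (-1 : ℂ) := by
    have h := pi_ne
    field_simp
    linear_combination Complex.I_sq
  rw [this, map_neg, map_one]

lemma cA_ne [Nontrivial E] : cA E ≠ 0 := by
  intro h
  have := cA_mul_cK (E := E)
  rw [h, zero_mul] at this
  exact one_ne_zero (by linear_combination this : (1 : E) = 0)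

lemma cK_ne [Nontrivial E] : cK E ≠ 0 := by
  intro h
  have := cA_mul_cK (E := E)
  rw [h, mul_zero] at this
  exact one_ne_zero (by linear_combination this : (1 : E) = 0)

/-- The Ramanujan vector field. -/
noncomputable def Rm (X : Fin 3 → E) : Fin 3 → E :=
  ![cA E * (X 0 ^ 2 - X 1), 4 * cA E * (X 0 * X 1 - X 2), 6 * cA E * (X 0 * X 2 - X 1 ^ 2)]

/-- Its differential. -/
noncomputable def JR (X Y : Fin 3 → E) : Fin 3 → E :=
  ![cA E * (2 * X 0 * Y 0 - Y 1), 4 * cA E * (Y 0 * X 1 + X 0 * Y 1 - Y 2),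
    6 * cA E * (Y 0 * X 2 + X 0 * Y 2 - 2 * X 1 * Y 1)]

/-- The frame. -/
noncomputable def fr (z : E) (X τ : Fin 3 → E) : Fin 3 → E :=
  ![(τ 1 + 2 * τ 0 * z - τ 2 * z ^ 2) * Rm X 0 + 2 * (τ 0 - τ 2 * z) * X 0 + τ 2 * cK E,
    (τ 1 + 2 * τ 0 * z - τ 2 * z ^ 2) * Rm X 1 + 4 * (τ 0 - τ 2 * z) * X 1,
    (τ 1 + 2 * τ 0 * z - τ 2 * z ^ 2) * Rm X 2 + 6 * (τ 0 - τ 2 * z) * X 2]

/-- The bracket. -/
def br (τ σ : Fin 3 → E) : Fin 3 → E :=
  ![τ 1 * σ 2 - σ 1 * τ 2, 2 * (τ 0 * σ 1 - σ 0 * τ 1), 2 * (τ 2 * σ 0 - τ 0 * σ 2)]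

lemma fr_add (z : E) (X τ σ : Fin 3 → E) (l : Fin 3) :
    fr z X (τ + σ) l = fr z X τ l + fr z X σ l := by
  fin_cases l
  · simp [fr]; ring
  · simp [fr]; ring
  · simp [fr]; ring

lemma fr_smul (z a : E) (X τ : Fin 3 → E) (l : Fin 3) :
    fr z X (a • τ) l = a * fr z X τ l := by
  fin_cases l
  · simp [fr]; ring
  · simp [fr]; ring
  · simp [fr]; ring

lemma fr_zero (z : E) (X : Fin 3 → E) (l : Fin 3) : fr z X 0 l = 0 := by
  have := fr_smul z 0 X 0 l
  simpa using this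

/-- The differential of the frame. -/
noncomputable def Jf (z : E) (X τ Y : Fin 3 → E) : Fin 3 → E :=
  ![(τ 1 + 2 * τ 0 * z - τ 2 * z ^ 2) * JR X Y 0 + 2 * (τ 0 - τ 2 * z) * Y 0,
    (τ 1 + 2 * τ 0 * z - τ 2 * z ^ 2) * JR X Y 1 + 4 * (τ 0 - τ 2 * z) * Y 1,
    (τ 1 + 2 * τ 0 * z - τ 2 * z ^ 2) * JR X Y 2 + 6 * (τ 0 - τ 2 * z) * Y 2]

lemma Jf_bracket (z : E) (X τ σ : Fin 3 → E) (l : Fin 3) :
    Jf z X σ (fr z X τ) l - Jf z X τ (fr z X σ) l = fr z X (br τ σ) l := by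
  have hAK := cA_mul_cK (E := E)
  fin_cases l
  · simp only [Jf, fr, Rm, JR, br, Matrix.cons_val_zero, Matrix.cons_val_one, Matrix.cons_val,
      Fin.zero_eta]
    linear_combination (2 * X 0 * ((σ 1 + 2 * σ 0 * z - σ 2 * z ^ 2) * τ 2 -
      (τ 1 + 2 * τ 0 * z - τ 2 * z ^ 2) * σ 2)) * hAK
  · simp only [Jf, fr, Rm, JR, br, Matrix.cons_val_zero, Matrix.cons_val_one, Matrix.cons_val,
      Fin.mk_one]
    linear_combination (4 * X 1 * ((σ 1 + 2 * σ 0 * z - σ 2 * z ^ 2) * τ 2 -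
      (τ 1 + 2 * τ 0 * z - τ 2 * z ^ 2) * σ 2)) * hAK
  · simp only [Jf, fr, Rm, JR, br, Matrix.cons_val_zero, Matrix.cons_val_one, Matrix.cons_val,
      Fin.reduceFinMk]
    linear_combination (6 * X 2 * ((σ 1 + 2 * σ 0 * z - σ 2 * z ^ 2) * τ 2 -
      (τ 1 + 2 * τ 0 * z - τ 2 * z ^ 2) * σ 2)) * hAK

/-- The derivation along the flow commutes with the frame. -/
lemma fr_deriv (D : Derivation ℂ E E) {z z' : E} {X τ : Fin 3 → E} (hz : D z = z')
    (hX : ∀ l, D (X l) = z' * Rm X l) (l : Fin 3) :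
    D (fr z X τ l) = z' * JR X (fr z X τ) l + fr z X (fun i ↦ D (τ i)) l := by
  have hA : D (cA E) = 0 := D.map_algebraMap _
  have hK : D (cK E) = 0 := D.map_algebraMap _
  have hAK := cA_mul_cK (E := E)
  have hn : ∀ n : ℕ, D (n : E) = 0 := fun n ↦ D.map_natCast n
  have hx0 := hX 0
  have hx1 := hX 1
  have hx2 := hX 2
  have h2 : D (2 : E) = 0 := by exact_mod_cast hn 2
  have h4 : D (4 : E) = 0 := by exact_mod_cast hn 4
  have h6 : D (6 : E) = 0 := by exact_mod_cast hn 6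
  fin_cases l
  · simp only [fr, Rm, JR, Matrix.cons_val_zero, Matrix.cons_val_one, Matrix.cons_val,
      Fin.zero_eta, map_add, map_sub, Derivation.leibniz, smul_eq_mul, pow_two, hx0, hx1, h2,
      hA, hK, hz]
    linear_combination (-2 * z' * τ 2 * X 0) * hAK
  · simp only [fr, Rm, JR, Matrix.cons_val_zero, Matrix.cons_val_one, Matrix.cons_val,
      Fin.mk_one, map_add, map_sub, Derivation.leibniz, smul_eq_mul, pow_two, hx0, hx1, hx2, h2,
      h4, hA, hz]
    linear_combination (-4 * z' * τ 2 * X 1) * hAK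
  · simp only [fr, Rm, JR, Matrix.cons_val_zero, Matrix.cons_val_one, Matrix.cons_val,
      Fin.reduceFinMk, map_add, map_sub, Derivation.leibniz, smul_eq_mul, pow_two, hx0, hx1, hx2,
      h2, h6, hA, hz]
    linear_combination (-6 * z' * τ 2 * X 2) * hAK

section maps

variable {A B : Type} [CommRing A] [Algebra ℂ A] [CommRing B] [Algebra ℂ B]

lemma map_cA (f : A →ₐ[ℂ] B) : f (cA A) = cA B := f.commutes _

lemma map_cK (f : A →ₐ[ℂ] B) : f (cK A) = cK B := f.commutes _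

lemma map_Rm (f : A →ₐ[ℂ] B) (X : Fin 3 → A) (l : Fin 3) :
    f (Rm X l) = Rm (fun i ↦ f (X i)) l := by
  fin_cases l
  · simp [Rm, map_cA]
  · simp [Rm, map_cA, map_ofNat f 4]
  · simp [Rm, map_cA, map_ofNat f 6]

lemma map_fr (f : A →ₐ[ℂ] B) (z : A) (X τ : Fin 3 → A) (l : Fin 3) :
    f (fr z X τ l) = fr (f z) (fun i ↦ f (X i)) (fun i ↦ f (τ i)) l := by
  fin_cases l
  · simp [fr, map_Rm, map_cK, map_ofNat f 2]
  · simp [fr, map_Rm, map_ofNat f 4, map_ofNat f 2]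
  · simp [fr, map_Rm, map_ofNat f 6, map_ofNat f 2]

variable {L : Type} [CommRing L] [Algebra ℂ L] [Algebra L E] [IsScalarTower ℂ L E]

lemma der_Rm (δ : Derivation ℂ L E) (X : Fin 3 → L) (l : Fin 3) :
    δ (Rm X l) = JR (fun i ↦ algebraMap L E (X i)) (fun i ↦ δ (X i)) l := by
  have hA : δ (cA L) = 0 := δ.map_algebraMap _
  have hn : ∀ n : ℕ, δ (n : L) = 0 := fun n ↦ δ.map_natCast n
  have h4 : δ (4 : L) = 0 := by exact_mod_cast hn 4
  have h6 : δ (6 : L) = 0 := by exact_mod_cast hn 6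
  have hm : algebraMap L E (cA L) = cA E := map_cA (IsScalarTower.toAlgHom ℂ L E)
  fin_cases l
  · simp only [Rm, JR, Matrix.cons_val_zero, Matrix.cons_val_one, Matrix.cons_val,
      Fin.zero_eta, map_add, map_sub, map_mul, Derivation.leibniz, Algebra.smul_def, pow_two, hA,
      hm]
    ring
  · simp only [Rm, JR, Matrix.cons_val_zero, Matrix.cons_val_one, Matrix.cons_val,
      Fin.mk_one, map_add, map_sub, map_mul, Derivation.leibniz, Algebra.smul_def, hA, h4,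
      hm]
    simp only [map_ofNat]
    ring
  · simp only [Rm, JR, Matrix.cons_val_zero, Matrix.cons_val_one, Matrix.cons_val,
      Fin.reduceFinMk, map_add, map_sub, map_mul, Derivation.leibniz, Algebra.smul_def, pow_two, hA,
      h6, hm]
    simp only [map_ofNat]
    ring

lemma der_fr (δ : Derivation ℂ L E) (z : L) (X τ : Fin 3 → L) (hz : δ z = 0)
    (hτ : ∀ i, δ (τ i) = 0) (l : Fin 3) :
    δ (fr z X τ l) = Jf (algebraMap L E z) (fun i ↦ algebraMap L E (X i))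
      (fun i ↦ algebraMap L E (τ i)) (fun i ↦ δ (X i)) l := by
  have hK : δ (cK L) = 0 := δ.map_algebraMap _
  have hn : ∀ n : ℕ, δ (n : L) = 0 := fun n ↦ δ.map_natCast n
  have h2 : δ (2 : L) = 0 := by exact_mod_cast hn 2
  have h4 : δ (4 : L) = 0 := by exact_mod_cast hn 4
  have h6 : δ (6 : L) = 0 := by exact_mod_cast hn 6
  have hR := der_Rm δ X
  have h0 := hτ 0
  have h1 := hτ 1
  have h2' := hτ 2
  fin_cases l
  · simp only [fr, Jf, Matrix.cons_val_zero, Matrix.cons_val_one, Matrix.cons_val,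
      Fin.zero_eta, map_add, map_sub, map_mul, Derivation.leibniz, Algebra.smul_def, pow_two, hK,
      h2, h0, h1, h2', hz, hR, map_ofNat]
    ring
  · simp only [fr, Jf, Matrix.cons_val_zero, Matrix.cons_val_one, Matrix.cons_val,
      Fin.mk_one, map_add, map_sub, map_mul, Derivation.leibniz, Algebra.smul_def, pow_two,
      h2, h4, h0, h1, h2', hz, hR, map_ofNat]
    ring
  · simp only [fr, Jf, Matrix.cons_val_zero, Matrix.cons_val_one, Matrix.cons_val,
      Fin.reduceFinMk, map_add, map_sub, map_mul, Derivation.leibniz, Algebra.smul_def, pow_two,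
      h2, h6, h0, h1, h2', hz, hR, map_ofNat]
    ring

end maps

end frame

section field

variable {E : Type} [Field E] [Algebra ℂ E]

lemma fr_surj [CharZero E] (z : E) {X : Fin 3 → E} (hX : X 1 ^ 3 - X 2 ^ 2 ≠ 0) (Y : Fin 3 → E) :
    ∃ τ, ∀ l, fr z X τ l = Y l := by
  set d := 24 * cA E * (X 1 ^ 3 - X 2 ^ 2) with hd
  have hd0 : d ≠ 0 := mul_ne_zero (mul_ne_zero (by norm_num) cA_ne) hX
  have hK := cK_ne (E := E)
  set β := (6 * Y 1 * X 2 - 4 * X 1 * Y 2) / d with hβ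
  set s := (Rm X 1 * Y 2 - Rm X 2 * Y 1) / d with hs
  set r := (Y 0 - β * Rm X 0 - 2 * s * X 0) / cK E with hr
  have e1 : β * Rm X 1 + 4 * s * X 1 = Y 1 := by
    rw [hβ, hs]
    field_simp
    rw [hd, Rm]
    simp only [Matrix.cons_val_one, Matrix.cons_val]
    ring
  have e2 : β * Rm X 2 + 6 * s * X 2 = Y 2 := by
    rw [hβ, hs]
    field_simp
    rw [hd, Rm]
    simp only [Matrix.cons_val_one, Matrix.cons_val]
    ring
  have e0 : β * Rm X 0 + 2 * s * X 0 + r * cK E = Y 0 := by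
    rw [hr]
    field_simp
    ring
  refine ⟨![s + r * z, β - 2 * (s + r * z) * z + r * z ^ 2, r], fun l ↦ ?_⟩
  fin_cases l
  · simp only [fr, Matrix.cons_val_zero, Matrix.cons_val_one, Matrix.cons_val, Fin.zero_eta]
    rw [← e0]
    ring
  · simp only [fr, Matrix.cons_val_zero, Matrix.cons_val_one, Matrix.cons_val, Fin.mk_one]
    rw [← e1]
    ring
  · simp only [fr, Matrix.cons_val_zero, Matrix.cons_val_one, Matrix.cons_val, Fin.reduceFinMk]
    rw [← e2]
    ring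

lemma fr_inj [CharZero E] {z : E} {X τ : Fin 3 → E} (hX : X 1 ^ 3 - X 2 ^ 2 ≠ 0)
    (h : ∀ l, fr z X τ l = 0) : τ = 0 := by
  have h0 := h 0
  have h1 := h 1
  have h2 := h 2
  simp only [fr, Matrix.cons_val_zero, Matrix.cons_val_one, Matrix.cons_val] at h0 h1 h2
  set β := τ 1 + 2 * τ 0 * z - τ 2 * z ^ 2 with hβ
  set s := τ 0 - τ 2 * z with hs
  have hd0 : 24 * cA E * (X 1 ^ 3 - X 2 ^ 2) ≠ 0 := mul_ne_zero (mul_ne_zero (by norm_num) cA_ne) hX
  have b0 : β = 0 := by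
    apply (mul_eq_zero.mp (?_ : 24 * cA E * (X 1 ^ 3 - X 2 ^ 2) * β = 0)).resolve_left hd0
    rw [Rm] at h1 h2
    simp only [Matrix.cons_val_one, Matrix.cons_val] at h1 h2
    linear_combination 6 * X 2 * h1 - 4 * X 1 * h2
  have s0 : s = 0 := by
    apply (mul_eq_zero.mp (?_ : 24 * cA E * (X 1 ^ 3 - X 2 ^ 2) * s = 0)).resolve_left hd0
    rw [b0] at h1 h2
    rw [zero_mul, zero_add] at h1 h2
    linear_combination 6 * cA E * X 1 ^ 2 * h1 - 4 * cA E * X 2 * h2
  rw [b0, s0] at h0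
  have r0 : τ 2 = 0 := by
    apply (mul_eq_zero.mp (?_ : τ 2 * cK E = 0)).resolve_right cK_ne
    linear_combination h0
  have p0 : τ 0 = 0 := by
    rw [hs, r0] at s0
    linear_combination s0
  have q0 : τ 1 = 0 := by
    rw [hβ, r0, p0] at b0
    linear_combination b0
  ext l
  fin_cases l
  · exact p0
  · exact q0
  · exact r0

end field

end H32.T4
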