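import Pool.Agent.H32.T4.A4

/-!
# Derivations of the field generated by a solution: constant frames
-/

set_option linter.unusedSimpArgs false

open Filter
open scoped Topology Real

namespace H32.T4

instance tower (K : IntermediateField ℂ MG) (L : IntermediateField K MG) :
    IsScalarTower ℂ L MG :=
  IsScalarTower.of_algebraMap_eq fun _ ↦ rfl

/-- Stability under the derivation. -/
def Stab (K : IntermediateField ℂ MG) : Prop := ∀ x ∈ K, DD x ∈ K

lemma stab_adjoin {K : IntermediateField ℂ MG} (hK : Stab K) {S : Set MG}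
    (L : IntermediateField K MG) (hL : L = IntermediateField.adjoin K S)
    (hS : ∀ x ∈ S, DD x ∈ L) : ∀ x ∈ L, DD x ∈ L := by
  intro x hx
  rw [hL] at hx
  induction hx using IntermediateField.adjoin_induction with
  | mem x hx => exact hS x hx
  | algebraMap x =>
    have h1 : DD (x : MG) ∈ K := hK _ x.2
    exact L.algebraMap_mem ⟨DD (x : MG), h1⟩
  | add x y _ _ h1 h2 =>
    rw [map_add]
    exact add_mem h1 h2
  | inv x hx h1 =>
    rw [Derivation.leibniz_inv, smul_eq_mul]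
    have hx' : x ∈ L := by rw [hL]; exact hx
    exact mul_mem (neg_mem (pow_mem (inv_mem hx') 2)) h1
  | mul x y hx hy h1 h2 =>
    rw [Derivation.leibniz, smul_eq_mul, smul_eq_mul]
    have hx' : x ∈ L := by rw [hL]; exact hx
    have hy' : y ∈ L := by rw [hL]; exact hy
    exact add_mem (mul_mem hx' h2) (mul_mem hy' h1)

/-- The commutator with the derivation. -/
noncomputable def cmt {K : IntermediateField ℂ MG} (hK : Stab K) {L : IntermediateField K MG}
    (hL : ∀ x ∈ L, DD x ∈ L) (δ : Derivation K L MG) : Derivation K L MG :=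
  Derivation.mk' (R := K) (A := L) (M := MG)
    { toFun := fun x ↦ DD (δ x) - δ ⟨DD (x : MG), hL _ x.2⟩
      map_add' := fun x y ↦ by
        have e : (⟨DD ((x + y : L) : MG), hL _ (x + y).2⟩ : L) =
            ⟨DD (x : MG), hL _ x.2⟩ + ⟨DD (y : MG), hL _ y.2⟩ := by
          apply Subtype.ext
          change DD ((x : MG) + (y : MG)) = _
          rw [map_add]
          rfl
        rw [e, map_add, map_add, map_add]
        ring
      map_smul' := fun c x ↦ by
        have hc : DD (c : MG) ∈ K := hK _ c.2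
        have e : (⟨DD ((c • x : L) : MG), hL _ (c • x).2⟩ : L) =
            (⟨DD (c : MG), hc⟩ : K) • x + c • ⟨DD (x : MG), hL _ x.2⟩ := by
          apply Subtype.ext
          change DD ((c : MG) * (x : MG)) = DD (c : MG) * (x : MG) + (c : MG) * DD (x : MG)
          rw [Derivation.leibniz, smul_eq_mul, smul_eq_mul]
          ring
        rw [e, map_add, Derivation.map_smul, Derivation.map_smul, Derivation.map_smul]
        rw [RingHom.id_apply]
        change DD ((c : MG) * δ x) - (DD (c : MG) * δ x + (c : MG) * _) = (c : MG) * _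
        rw [Derivation.leibniz, smul_eq_mul, smul_eq_mul]
        ring }
    (fun x y ↦ by
      change DD (δ (x * y)) - δ ⟨DD ((x * y : L) : MG), hL _ (x * y).2⟩ =
        (x : MG) * (DD (δ y) - δ ⟨DD (y : MG), hL _ y.2⟩) +
        (y : MG) * (DD (δ x) - δ ⟨DD (x : MG), hL _ x.2⟩)
      have e : (⟨DD ((x * y : L) : MG), hL _ (x * y).2⟩ : L) =
          x * ⟨DD (y : MG), hL _ y.2⟩ + y * ⟨DD (x : MG), hL _ x.2⟩ := by
        apply Subtype.ext
        change DD ((x : MG) * (y : MG)) = (x : MG) * DD (y : MG) + (y : MG) * DD (x : MG)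
        rw [Derivation.leibniz, smul_eq_mul, smul_eq_mul]
      rw [e, map_add, Derivation.leibniz, Derivation.leibniz, Derivation.leibniz]
      change DD ((x : MG) * δ y + (y : MG) * δ x) - ((x : MG) * δ ⟨DD (y : MG), _⟩ +
        DD (y : MG) * δ x + ((y : MG) * δ ⟨DD (x : MG), _⟩ + DD (x : MG) * δ y)) = _
      rw [map_add, Derivation.leibniz, Derivation.leibniz, smul_eq_mul, smul_eq_mul, smul_eq_mul,
        smul_eq_mul]
      ring)

lemma cmt_apply {K : IntermediateField ℂ MG} (hK : Stab K) {L : IntermediateField K MG}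
    (hL : ∀ x ∈ L, DD x ∈ L) (δ : Derivation K L MG) (x : L) :
    cmt hK hL δ x = DD (δ x) - δ ⟨DD (x : MG), hL _ x.2⟩ := rfl

/-- The commutator in terms of the frame. -/
lemma cmt_fr {K : IntermediateField ℂ MG} (hK : Stab K) {L : IntermediateField K MG}
    (hL : ∀ x ∈ L, DD x ∈ L) (δ : Derivation K L MG) {z : MG} (hz : z ∈ K) (v : Fin 3 → L)
    (hv : ∀ l, DD (v l : MG) = DD z * Rm (fun i ↦ (v i : MG)) l) (ξ : Fin 3 → MG)
    (h : ∀ l, δ (v l) = fr z (fun i ↦ (v i : MG)) ξ l) (l : Fin 3) :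
    cmt hK hL δ (v l) = fr z (fun i ↦ (v i : MG)) (fun i ↦ DD (ξ i)) l := by
  have hz' : DD z ∈ K := hK _ hz
  have e : (⟨DD (v l : MG), hL _ (v l).2⟩ : L) = (⟨DD z, hz'⟩ : K) • Rm v l := by
    apply Subtype.ext
    change DD (v l : MG) = DD z * ((Rm v l : L) : MG)
    rw [hv]
    have h1 := map_Rm (IsScalarTower.toAlgHom ℂ L MG) v l
    change ((Rm v l : L) : MG) = Rm (fun i ↦ (v i : MG)) l at h1
    rw [h1]
  rw [cmt_apply, e, Derivation.map_smul]
  have h2 := der_Rm (δ.restrictScalars ℂ) v l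
  change δ (Rm v l) = JR (fun i ↦ (v i : MG)) (fun i ↦ δ (v i)) l at h2
  rw [h2, h]
  change _ - DD z * _ = _
  have h3 := fr_deriv DD (z := z) (z' := DD z) (X := fun i ↦ (v i : MG)) (τ := ξ) rfl hv l
  rw [h3]
  have h4 : (fun i ↦ δ (v i)) = fr z (fun i ↦ (v i : MG)) ξ := funext h
  rw [h4]
  ring

/-- The vectors of frame coordinates of derivations. -/
noncomputable def Tsub (K : IntermediateField ℂ MG) (L : IntermediateField K MG) (z : MG)
    (v : Fin 3 → L) : Submodule MG (Fin 3 → MG) where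
  carrier := {ξ | ∃ δ : Derivation K L MG, ∀ l, δ (v l) = fr z (fun i ↦ (v i : MG)) ξ l}
  add_mem' := by
    rintro ξ η ⟨δ, hδ⟩ ⟨ε, hε⟩
    refine ⟨δ + ε, fun l ↦ ?_⟩
    rw [fr_add, Derivation.add_apply, hδ, hε]
  zero_mem' := ⟨0, fun l ↦ by rw [fr_zero]; rfl⟩
  smul_mem' := by
    rintro a ξ ⟨δ, hδ⟩
    refine ⟨a • δ, fun l ↦ ?_⟩
    rw [fr_smul, Derivation.smul_apply, hδ, smul_eq_mul]

/-- A nonzero subspace stable under the derivation contains a nonzero constant vector. -/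
theorem exists_const_vec (T : Submodule MG (Fin 3 → MG)) (hT : T ≠ ⊥)
    (hD : ∀ ξ ∈ T, (fun i ↦ DD (ξ i)) ∈ T) :
    ∃ c : Fin 3 → ℂ, c ≠ 0 ∧ (fun i ↦ algebraMap ℂ MG (c i)) ∈ T := by
  classical
  obtain ⟨ξ₀, hξ₀, hne₀⟩ := Submodule.exists_mem_ne_zero_of_ne_bot hT
  -- minimal support
  set sup : (Fin 3 → MG) → ℕ := fun ξ ↦ (Finset.univ.filter (fun i ↦ ξ i ≠ 0)).card with hsup
  have hex : ∃ n, ∃ ξ ∈ T, ξ ≠ 0 ∧ sup ξ = n := ⟨_, ξ₀, hξ₀, hne₀, rfl⟩
  obtain ⟨ξ, hξ, hne, hn⟩ := Nat.find_spec hex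
  have hmin := fun m hm ↦ Nat.find_min hex (m := m) hm
  obtain ⟨i₀, hi₀⟩ : ∃ i, ξ i ≠ 0 := by
    by_contra hcon
    push Not at hcon
    exact hne (funext hcon)
  set η : Fin 3 → MG := (ξ i₀)⁻¹ • ξ with hη
  have hηT : η ∈ T := T.smul_mem _ hξ
  have hηi : η i₀ = 1 := by
    rw [hη, Pi.smul_apply, smul_eq_mul, inv_mul_cancel₀ hi₀]
  have hη0 : ∀ i, η i = 0 ↔ ξ i = 0 := by
    intro i
    rw [hη, Pi.smul_apply, smul_eq_mul, mul_eq_zero]
    simp [hi₀]
  have hDη : (fun i ↦ DD (η i)) = 0 := by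
    by_contra hcon
    have hlt : sup (fun i ↦ DD (η i)) < Nat.find hex := by
      rw [← hn, hsup]
      apply Finset.card_lt_card
      rw [Finset.ssubset_iff_of_subset]
      · refine ⟨i₀, by simp [hi₀], ?_⟩
        rw [Finset.mem_filter, not_and, not_not]
        intro _
        beta_reduce
        rw [hηi, Derivation.map_one_eq_zero]
      · intro i hi
        rw [Finset.mem_filter] at hi ⊢
        refine ⟨hi.1, fun h0 ↦ hi.2 ?_⟩
        beta_reduce
        rw [(hη0 i).mpr h0, map_zero]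
    exact hmin _ hlt ⟨_, hD η hηT, hcon, rfl⟩
  have hc : ∀ i, ∃ c : ℂ, η i = algebraMap ℂ MG c := fun i ↦ const_of_DD (congrFun hDη i)
  choose c hc using hc
  refine ⟨c, fun h0 ↦ ?_, ?_⟩
  · have h1 := hc i₀
    rw [hηi, h0] at h1
    simp at h1
  · have : (fun i ↦ algebraMap ℂ MG (c i)) = η := funext fun i ↦ (hc i).symm
    rw [this]
    exact hηT

/-- Either the solution is algebraic, or there is a derivation which is constant in the frame. -/
theorem single_alg (K : IntermediateField ℂ MG) (hK : Stab K) {z : MG} (hz : z ∈ K)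
    (v : Fin 3 → MG) (hv : ∀ l, DD (v l) = DD z * Rm v l) (hΔ : v 1 ^ 3 - v 2 ^ 2 ≠ 0) :
    (∀ l, IsAlgebraic K (v l)) ∨ ∃ c : Fin 3 → ℂ, c ≠ 0 ∧
      ∃ δ : Derivation K (IntermediateField.adjoin K (Set.range v)) MG,
        ∀ l, δ ⟨v l, IntermediateField.subset_adjoin _ _ ⟨l, rfl⟩⟩ =
          fr z v (fun i ↦ algebraMap ℂ MG (c i)) l := by
  set L := IntermediateField.adjoin K (Set.range v) with hLdef
  set w : Fin 3 → L := fun l ↦ ⟨v l, IntermediateField.subset_adjoin _ _ ⟨l, rfl⟩⟩ with hw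
  have hFG : L.FG := IntermediateField.fg_adjoin_of_finite (Set.finite_range v)
  have hL : ∀ x ∈ L, DD x ∈ L := by
    refine stab_adjoin hK L hLdef ?_
    rintro _ ⟨l, rfl⟩
    rw [hv]
    have h1 := map_Rm (IsScalarTower.toAlgHom ℂ L MG) w l
    change ((Rm w l : L) : MG) = Rm v l at h1
    rw [← h1]
    exact mul_mem (L.algebraMap_mem ⟨DD z, hK _ hz⟩) (Rm w l).2
  by_cases hT : Tsub K L z w = ⊥
  · left
    have halg : Algebra.IsAlgebraic K L := by
      refine alg_of_no_der L hFG fun δ ↦ ?_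
      refine der_ext hLdef δ ?_
      rintro ⟨x, hx⟩ ⟨l, rfl⟩
      obtain ⟨ξ, hξ⟩ := fr_surj z hΔ (fun l ↦ δ (w l))
      have h1 : ξ ∈ Tsub K L z w := ⟨δ, fun l ↦ (hξ l).symm⟩
      rw [hT, Submodule.mem_bot] at h1
      have h2 := hξ l
      rw [h1, fr_zero] at h2
      exact h2.symm
    intro l
    have h1 := halg.isAlgebraic (w l)
    exact h1.algebraMap
  · right
    obtain ⟨c, hc, δ, hδ⟩ := exists_const_vec _ hT (by
      rintro ξ ⟨δ, hδ⟩
      exact ⟨cmt hK hL δ, cmt_fr hK hL δ hz w hv ξ hδ⟩)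
    exact ⟨c, hc, δ, hδ⟩

end H32.T4
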