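import Pool.Agent.H32.JDeriv
import Pool.Agent.H32.Indep3

/-!
# The derivative of E2
-/

open UpperHalfPlane hiding I
open Complex EisensteinSeries ModularForm MatrixGroups Manifold
open scoped Real Topology
open Derivative

namespace H32.T4

lemma two_pi_I_ne : (2 * π * I : ℂ) ≠ 0 := by
  have : (π : ℂ) ≠ 0 := by exact_mod_cast Real.pi_ne_zero
  simp [this]

lemma hasDeriv_E2' (τ : ℍ) : HasDerivAt (fun w ↦ E2 (ofComplex w))
    (2 * π * I * normalizedDerivOfComplex E2 τ) τ := by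
  have hm : MDiff E2 := IntQ_E2.mdiff
  rw [UpperHalfPlane.mdifferentiable_iff] at hm
  have h2 := (hm τ τ.im_pos).differentiableAt (isOpen_upperHalfPlaneSet.mem_nhds τ.im_pos)
  have h3 : 2 * π * I * normalizedDerivOfComplex E2 τ = deriv (E2 ∘ ofComplex) τ := by
    unfold normalizedDerivOfComplex
    rw [← mul_assoc, mul_inv_cancel₀ two_pi_I_ne, one_mul]
  rw [h3]
  exact h2.hasDerivAt

lemma D_E2_smul (γ : SL(2, ℤ)) (τ : ℍ) :
    normalizedDerivOfComplex E2 (γ • τ) = denom γ τ ^ 4 * normalizedDerivOfComplex E2 τ +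
      (2 * π * I)⁻¹ * (2 * (γ 1 0 : ℂ) * denom γ τ ^ 3 * E2 τ -
        6 * I / π * (γ 1 0 : ℂ) ^ 2 * denom γ τ ^ 2) := by
  have hdet : 0 < (γ : GL (Fin 2) ℝ).val.det := by
    rw [← Matrix.GeneralLinearGroup.val_det_apply]; simp
  have hdet1 : (γ : GL (Fin 2) ℝ).val.det = 1 := by
    rw [← Matrix.GeneralLinearGroup.val_det_apply]; simp
  have hd : denom (γ : GL (Fin 2) ℝ) τ ≠ 0 := denom_ne_zero _ τ
  have h1 : HasDerivAt (fun w ↦ (((γ : GL (Fin 2) ℝ) • ofComplex w : ℍ) : ℂ))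
      ((((γ : GL (Fin 2) ℝ).val.det : ℝ) : ℂ) / denom γ τ ^ 2) ↑τ :=
    (hasStrictDerivAt_smul hdet τ).hasDerivAt
  rw [hdet1] at h1
  have h2 : HasDerivAt (fun w ↦ E2 (ofComplex w)) (2 * π * I * normalizedDerivOfComplex E2 (γ • τ))
      (((γ : GL (Fin 2) ℝ) • ofComplex (τ : ℂ) : ℍ) : ℂ) := by
    rw [ofComplex_apply]
    exact hasDeriv_E2' (γ • τ)
  have h3 := h2.comp (τ : ℂ) h1
  have h4 : HasDerivAt (fun w : ℂ ↦ ((γ 1 0 : ℂ) * w + (γ 1 1 : ℂ)) ^ 2 * E2 (ofComplex w) -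
      6 * I / π * (γ 1 0 : ℂ) * ((γ 1 0 : ℂ) * w + (γ 1 1 : ℂ)))
      (2 * ((γ 1 0 : ℂ) * τ + (γ 1 1 : ℂ)) ^ 1 * (γ 1 0 : ℂ) * E2 (ofComplex τ) +
      ((γ 1 0 : ℂ) * τ + (γ 1 1 : ℂ)) ^ 2 * (2 * π * I * normalizedDerivOfComplex E2 τ) -
      6 * I / π * (γ 1 0 : ℂ) * (γ 1 0 : ℂ)) (τ : ℂ) := by
    have h5 : HasDerivAt (fun w : ℂ ↦ (γ 1 0 : ℂ) * w + (γ 1 1 : ℂ)) (γ 1 0 : ℂ) (τ : ℂ) := by
      simpa using ((hasDerivAt_id (τ : ℂ)).const_mul (γ 1 0 : ℂ)).add_const (γ 1 1 : ℂ)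
    have h6 := ((h5.pow 2).mul (hasDeriv_E2' τ)).sub (h5.const_mul (6 * I / π * (γ 1 0 : ℂ)))
    exact h6
  have h5 : ((fun w ↦ E2 (ofComplex w)) ∘ fun w ↦ (((γ : GL (Fin 2) ℝ) • ofComplex w : ℍ) : ℂ))
      =ᶠ[𝓝 (τ : ℂ)] (fun w : ℂ ↦ ((γ 1 0 : ℂ) * w + (γ 1 1 : ℂ)) ^ 2 * E2 (ofComplex w) -
      6 * I / π * (γ 1 0 : ℂ) * ((γ 1 0 : ℂ) * w + (γ 1 1 : ℂ))) := by
    filter_upwards [isOpen_upperHalfPlaneSet.mem_nhds τ.im_pos] with w hw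
    have hw' : 0 < w.im := hw
    have h6 := E2_smul γ (ofComplex w)
    rw [ModularGroup.denom_apply] at h6
    rw [Function.comp_apply, ofComplex_apply]
    rw [ofComplex_apply_of_im_pos hw'] at h6 ⊢
    exact h6
  have h6 := h3.unique (h4.congr_of_eventuallyEq h5)
  rw [ofComplex_apply] at h6
  rw [ModularGroup.denom_apply] at h6 hd ⊢
  have hpi := two_pi_I_ne
  push_cast at h6
  field_simp at h6 ⊢
  linear_combination h6

lemma D_E2 (τ : ℍ) : normalizedDerivOfComplex E2 τ = (E2 τ ^ 2 - E₄ τ) / 12 := by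
  have h1 : IntQv (12 * 0 + (-1 * (1 * 1) + 1)) (fun τ ↦ ((12 : ℤ) : ℂ) *
      normalizedDerivOfComplex E2 τ + (((-1 : ℤ) : ℂ) * (E2 τ * E2 τ) + E₄ τ)) :=
    ((IntQv_E2.intQ.D).const_mul 12).add (((IntQv_E2.mul IntQv_E2).const_mul (-1)).add IntQv_E4)
  have h2 : WInv (fun τ ↦ ((12 : ℤ) : ℂ) *
      normalizedDerivOfComplex E2 τ + (((-1 : ℤ) : ℂ) * (E2 τ * E2 τ) + E₄ τ)) 4 := by
    intro γ τ
    have h3 := WInv_E4 γ τ
    simp only at h3 ⊢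
    rw [h3, D_E2_smul, E2_smul]
    have hpi : (π : ℂ) ≠ 0 := by exact_mod_cast Real.pi_ne_zero
    have hI : (2 * π * I : ℂ)⁻¹ = -I / (2 * π) := by
      field_simp
      linear_combination I_sq
    rw [hI]
    push_cast
    field_simp
    linear_combination (0 : ℂ) * I_sq
  have h3 := eq_zero_of_low_weight (by simpa using h1) h2 (by norm_num) τ
  push_cast at h3
  linear_combination h3 / 12

end H32.T4
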