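import Pool.Agent.H32.T4.A5
import Pool.Agent.H32.T4.A6

/-!
# The flow of a constant frame
-/

set_option linter.unusedSimpArgs false

open UpperHalfPlane hiding I
open Complex EisensteinSeries ModularForm MatrixGroups Manifold
open scoped Real Topology
open MvPolynomial Filter

namespace H32.T4

/-- The three Eisenstein series. -/
noncomputable def ee (w : ℂ) : Fin 3 → ℂ := ![e2 w, e4 w, e6 w]

lemma analytic_ee {w : ℂ} (hw : 0 < w.im) (l : Fin 3) : AnalyticAt ℂ (fun w ↦ ee w l) w := by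
  fin_cases l
  · exact analytic_E2 w hw
  · exact analytic_E4 w hw
  · exact analytic_E6 w hw

lemma disc_ee (w : ℂ) : ee w 1 ^ 3 - ee w 2 ^ 2 ≠ 0 := disc_ne

lemma hasDeriv_ee {w : ℂ} (hw : 0 < w.im) (l : Fin 3) :
    HasDerivAt (fun w ↦ ee w l) (Rm (ee w) l) w := by
  have hA : cA ℂ = π * I / 6 := rfl
  fin_cases l
  · have h1 := hasDeriv_E2' ⟨w, hw⟩
    have h2 := D_E2 ⟨w, hw⟩
    rw [h2] at h1
    have h3 : ofComplex w = ⟨w, hw⟩ := ofComplex_apply_of_im_pos hw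
    refine h1.congr_deriv ?_
    simp only [Rm, ee, hA, Matrix.cons_val_zero, Matrix.cons_val_one, Fin.zero_eta, e2, e4, h3]
    ring
  · refine (hasDeriv_e4 hw).congr_deriv ?_
    simp only [Rm, ee, hA, Matrix.cons_val_zero, Matrix.cons_val_one, Matrix.cons_val, Fin.mk_one]
    ring
  · refine (hasDeriv_e6 hw).congr_deriv ?_
    simp only [Rm, ee, hA, Matrix.cons_val_zero, Matrix.cons_val_one, Matrix.cons_val,
      Fin.reduceFinMk]
    ring

lemma indep_local {w0 : ℂ} (hw0 : 0 < w0.im) (P : MvPolynomial (Fin 4) ℂ)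
    (h : ∀ᶠ w in 𝓝 w0, aeval ![w, e2 w, e4 w, e6 w] P = 0) : P = 0 := by
  apply indep_H
  have hana : AnalyticOnNhd ℂ (fun w ↦ aeval (![w, e2 w, e4 w, e6 w] : Fin 4 → ℂ) P)
      upperHalfPlaneSet := by
    intro w hw
    refine AnalyticAt.aeval_mvPolynomial (fun i ↦ ?_) _
    fin_cases i
    · exact analyticAt_id
    · exact analytic_E2 w hw
    · exact analytic_E4 w hw
    · exact analytic_E6 w hw
  have h0 := hana.eqOn_zero_of_preconnected_of_eventuallyEq_zero preconnected_H hw0 h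
  intro τ
  have := h0 τ.im_pos
  simpa [ofComplex_apply, e2, e4, e6] using this

/-- The order argument. -/
lemma flow_zero {f : ℕ → ℂ → ℂ} {b : ℂ → ℂ} {w0 : ℂ} (hf : ∀ n, AnalyticAt ℂ (f n) w0)
    (hb : AnalyticAt ℂ b w0) (hb0 : b w0 ≠ 0)
    (hd : ∀ n, ∀ᶠ w in 𝓝 w0, f (n + 1) w = b w * deriv (f n) w) (h0 : ∀ n, f n w0 = 0) :
    ∀ᶠ w in 𝓝 w0, f 0 w = 0 := by
  have key : ∀ k : ℕ, ∀ n, analyticOrderAt (f n) w0 ≠ k := by
    intro k
    induction k with
    | zero =>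
      intro n h
      rw [Nat.cast_zero, (hf n).analyticOrderAt_eq_zero] at h
      exact h (h0 n)
    | succ k ih =>
      intro n h
      apply ih (n + 1)
      have h1 : analyticOrderAt (f (n + 1)) w0 = analyticOrderAt (b * deriv (f n)) w0 :=
        analyticOrderAt_congr (hd n)
      have h2 : analyticOrderAt b w0 = 0 := hb.analyticOrderAt_eq_zero.mpr hb0
      have h3 := (hf n).analyticOrderAt_deriv_add_one
      have h4 : (fun w ↦ f n w - f n w0) = f n := by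
        ext w
        rw [h0 n, sub_zero]
      rw [h4, h] at h3
      rw [h1, analyticOrderAt_mul hb (hf n).deriv, h2, zero_add]
      have h5 : analyticOrderAt (deriv (f n)) w0 + 1 = (k : ℕ∞) + 1 := by
        rw [h3]
        push_cast
        rfl
      exact WithTop.add_right_cancel (ENat.one_ne_top) h5
  rw [← analyticOrderAt_eq_top]
  by_contra hcon
  obtain ⟨k, hk⟩ := ENat.ne_top_iff_exists.mp hcon
  exact key k 0 hk.symm

/-- The quadratic polynomial of the vector. -/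
noncomputable def bb (c : Fin 3 → ℂ) (w : ℂ) : ℂ := c 1 + 2 * c 0 * w - c 2 * w ^ 2

/-- The flow. -/
noncomputable def Sf (w0 : ℂ) (c : Fin 3 → ℂ) (w : ℂ) : Fin 3 → ℂ :=
  ![bb c w / bb c w0 * e2 w + cK ℂ * c 2 * (w - w0) / bb c w0,
    (bb c w / bb c w0) ^ 2 * e4 w, (bb c w / bb c w0) ^ 3 * e6 w]

lemma hasDeriv_bb (c : Fin 3 → ℂ) (w : ℂ) : HasDerivAt (bb c) (2 * (c 0 - c 2 * w)) w := by
  have h := (((hasDerivAt_id w).const_mul (2 * c 0)).const_add (c 1)).sub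
    (((hasDerivAt_id w).pow 2).const_mul (c 2))
  refine h.congr_deriv ?_
  simp
  ring

lemma alg_0 {A κ B b0 i e2 e4 c2 s0 u : ℂ} (hAK : A * κ = -1) (hi : b0 * i = 1)
    (hB : B * b0 = b0 + 2 * s0 * u - c2 * u ^ 2) :
    (2 * (s0 - c2 * u) * i * e2 + B * (A * (e2 ^ 2 - e4)) + κ * c2 * i) * (B * b0) =
    b0 * (A * ((B * e2 + κ * c2 * u * i) ^ 2 - B ^ 2 * e4)) + 2 * s0 * (B * e2 + κ * c2 * u * i) +
      c2 * κ := by
  linear_combination (2 * B * e2 * (s0 - c2 * u - A * κ * c2 * u) +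
    κ * c2 * (1 - A * κ * c2 * u ^ 2 * i)) * hi +
    (-2 * B * e2 * c2 * u - κ * c2 * (c2 * u ^ 2 * i)) * hAK + κ * c2 * i * hB

lemma alg_1 {A κ B b0 i e2 e4 e6 c2 s0 u : ℂ} (hAK : A * κ = -1) (hi : b0 * i = 1) :
    (2 * B * (2 * (s0 - c2 * u) * i) * e4 + B ^ 2 * (4 * A * (e2 * e4 - e6))) * (B * b0) =
    b0 * (4 * A * ((B * e2 + κ * c2 * u * i) * (B ^ 2 * e4) - B ^ 3 * e6)) +
      4 * s0 * (B ^ 2 * e4) := by
  linear_combination (4 * B ^ 2 * e4 * (s0 - c2 * u - A * κ * c2 * u)) * hi +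
    (-4 * B ^ 2 * e4 * c2 * u) * hAK

lemma alg_2 {A κ B b0 i e2 e4 e6 c2 s0 u : ℂ} (hAK : A * κ = -1) (hi : b0 * i = 1) :
    (3 * B ^ 2 * (2 * (s0 - c2 * u) * i) * e6 + B ^ 3 * (6 * A * (e2 * e6 - e4 ^ 2))) * (B * b0) =
    b0 * (6 * A * ((B * e2 + κ * c2 * u * i) * (B ^ 3 * e6) - (B ^ 2 * e4) ^ 2)) +
      6 * s0 * (B ^ 3 * e6) := by
  linear_combination (6 * B ^ 3 * e6 * (s0 - c2 * u - A * κ * c2 * u)) * hi +
    (-6 * B ^ 3 * e6 * c2 * u) * hAK

lemma hasDeriv_Sf {w0 w : ℂ} {c : Fin 3 → ℂ} (hw : 0 < w.im) (h0 : bb c w0 ≠ 0)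
    (h1 : bb c w ≠ 0) (l : Fin 3) :
    HasDerivAt (fun w ↦ Sf w0 c w l) (fr w0 (Sf w0 c w) c l / bb c w) w := by
  have hb : HasDerivAt (fun w ↦ bb c w / bb c w0) (2 * (c 0 - c 2 * w) / bb c w0) w :=
    (hasDeriv_bb c w).div_const _
  have hAK : cA ℂ * cK ℂ = -1 := cA_mul_cK
  have hb0 : c 1 + 2 * c 0 * w0 - c 2 * w0 ^ 2 = bb c w0 := rfl
  have hi : bb c w0 * (bb c w0)⁻¹ = 1 := mul_inv_cancel₀ h0
  have hBb : bb c w / bb c w0 * bb c w0 = bb c w := div_mul_cancel₀ _ h0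
  have hB : bb c w / bb c w0 * bb c w0 =
      bb c w0 + 2 * (c 0 - c 2 * w0) * (w - w0) - c 2 * (w - w0) ^ 2 := by
    rw [hBb]
    unfold bb
    ring
  have hs : c 0 - c 2 * w = (c 0 - c 2 * w0) - c 2 * (w - w0) := by ring
  fin_cases l
  · have h2 := hasDeriv_ee hw 0
    have h3 : HasDerivAt (fun w ↦ cK ℂ * c 2 * (w - w0) / bb c w0) (cK ℂ * c 2 / bb c w0) w := by
      have := (((hasDerivAt_id w).sub_const w0).const_mul (cK ℂ * c 2)).div_const (bb c w0)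
      simpa using this
    have h4 := (hb.mul h2).add h3
    refine h4.congr_deriv ?_
    rw [eq_div_iff h1, hs]
    have := alg_0 (e2 := e2 w) (e4 := e4 w) hAK hi hB
    rw [hBb] at this
    simp only [fr, Rm, ee, Sf, Matrix.cons_val_zero, Matrix.cons_val_one, Matrix.cons_val,
      Fin.zero_eta, hb0, div_eq_mul_inv] at this ⊢
    exact this
  · have h2 := hasDeriv_ee hw 1
    have h4 := (hb.pow 2).mul h2
    refine h4.congr_deriv ?_
    rw [eq_div_iff h1, hs]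
    have := alg_1 (e2 := e2 w) (e4 := e4 w) (e6 := e6 w) (B := bb c w / bb c w0)
      (c2 := c 2) (s0 := c 0 - c 2 * w0) (u := w - w0) hAK hi
    rw [hBb] at this
    simp only [fr, Rm, ee, Sf, Matrix.cons_val_zero, Matrix.cons_val_one, Matrix.cons_val,
      Fin.mk_one, hb0, div_eq_mul_inv, Pi.pow_apply, Nat.cast_ofNat, Nat.add_one_sub_one,
      pow_one] at this ⊢
    exact this
  · have h2 := hasDeriv_ee hw 2
    have h4 := (hb.pow 3).mul h2
    refine h4.congr_deriv ?_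
    rw [eq_div_iff h1, hs]
    have := alg_2 (e2 := e2 w) (e4 := e4 w) (e6 := e6 w) (B := bb c w / bb c w0)
      (c2 := c 2) (s0 := c 0 - c 2 * w0) (u := w - w0) hAK hi
    rw [hBb] at this
    simp only [fr, Rm, ee, Sf, Matrix.cons_val_zero, Matrix.cons_val_one, Matrix.cons_val,
      Fin.reduceFinMk, hb0, div_eq_mul_inv, Pi.pow_apply, Nat.cast_ofNat,
      Nat.add_one_sub_one] at this ⊢
    exact this

/-- The derivation of polynomials. -/
noncomputable def pd (w0 : ℂ) (c : Fin 3 → ℂ) :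
    Derivation ℂ (MvPolynomial (Fin 3) ℂ) (MvPolynomial (Fin 3) ℂ) :=
  mkDerivation ℂ (fun l ↦ fr (C w0) X (fun i ↦ C (c i)) l)

lemma aeval_pd_X (w0 : ℂ) (c : Fin 3 → ℂ) (x : Fin 3 → ℂ) (l : Fin 3) :
    aeval x (pd w0 c (X l)) = fr w0 x c l := by
  rw [pd, mkDerivation_X]
  have h := map_fr (aeval x : MvPolynomial (Fin 3) ℂ →ₐ[ℂ] ℂ) (C w0) X (fun i ↦ C (c i)) l
  rw [h]
  simp

lemma hasDeriv_pd {w0 w : ℂ} {c : Fin 3 → ℂ} (hw : 0 < w.im) (h0 : bb c w0 ≠ 0)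
    (h1 : bb c w ≠ 0) (P : MvPolynomial (Fin 3) ℂ) :
    HasDerivAt (fun w ↦ aeval (Sf w0 c w) P) (aeval (Sf w0 c w) (pd w0 c P) / bb c w) w := by
  induction P using MvPolynomial.induction_on with
  | C a =>
    have e : pd w0 c (C a) = 0 := (pd w0 c).map_algebraMap a
    simp only [aeval_C, e, map_zero, zero_div]
    exact hasDerivAt_const _ _
  | add p q hp hq =>
    simp only [map_add, add_div]
    exact hp.add hq
  | mul_X p i hp =>
    simp only [map_mul, aeval_X, Derivation.leibniz, smul_eq_mul, map_add, aeval_pd_X]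
    refine (hp.mul (hasDeriv_Sf hw h0 h1 i)).congr_deriv ?_
    ring

lemma Sf_self {w0 : ℂ} {c : Fin 3 → ℂ} (h0 : bb c w0 ≠ 0) : Sf w0 c w0 = ee w0 := by
  ext l
  fin_cases l
  · simp [Sf, ee, h0]
  · simp [Sf, ee, h0]
  · simp [Sf, ee, h0]

lemma analytic_Sf {w0 : ℂ} {c : Fin 3 → ℂ} (hw : 0 < w0.im) (l : Fin 3) :
    AnalyticAt ℂ (fun w ↦ Sf w0 c w l) w0 := by
  have hb : AnalyticAt ℂ (fun w ↦ bb c w / bb c w0) w0 := by
    unfold bb
    simp only [div_eq_mul_inv]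
    fun_prop
  have h2 : AnalyticAt ℂ e2 w0 := analytic_ee hw 0
  have h4 : AnalyticAt ℂ e4 w0 := analytic_ee hw 1
  have h6 : AnalyticAt ℂ e6 w0 := analytic_ee hw 2
  fin_cases l
  · refine (hb.mul h2).add ?_
    simp only [div_eq_mul_inv]
    fun_prop
  · exact (hb.pow 2).mul h4
  · exact (hb.pow 3).mul h6

/-- If all derivatives along the flow vanish, the polynomial vanishes. -/
theorem flow_poly {w0 : ℂ} {c : Fin 3 → ℂ} (hw : 0 < w0.im) (h0 : bb c w0 ≠ 0)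
    (P : MvPolynomial (Fin 3) ℂ) (h : ∀ n, aeval (ee w0) ((pd w0 c)^[n] P) = 0) : P = 0 := by
  have hbc : AnalyticAt ℂ (bb c) w0 := by
    unfold bb
    fun_prop
  have hne : ∀ᶠ w in 𝓝 w0, bb c w ≠ 0 := hbc.continuousAt.eventually_ne h0
  have him : ∀ᶠ w in 𝓝 w0, 0 < w.im :=
    (isOpen_upperHalfPlaneSet.mem_nhds hw)
  have hz := flow_zero (f := fun n w ↦ aeval (Sf w0 c w) ((pd w0 c)^[n] P)) (b := bb c) (w0 := w0)
    (fun n ↦ AnalyticAt.aeval_mvPolynomial (fun i ↦ analytic_Sf hw i) _) hbc h0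
    (fun n ↦ by
      filter_upwards [hne, him] with w h1 h2
      rw [(hasDeriv_pd h2 h0 h1 ((pd w0 c)^[n] P)).deriv, Function.iterate_succ_apply']
      field_simp)
    (fun n ↦ by
      beta_reduce
      rw [Sf_self h0]
      exact h n)
  -- the polynomial in four variables
  set Bp : MvPolynomial (Fin 4) ℂ :=
    C (bb c w0)⁻¹ * (C (c 1) + C (2 * c 0) * X 0 - C (c 2) * X 0 ^ 2) with hBp
  set g : Fin 3 → MvPolynomial (Fin 4) ℂ := ![Bp * X 1 + C (cK ℂ * c 2 / bb c w0) * (X 0 - C w0),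
    Bp ^ 2 * X 2, Bp ^ 3 * X 3] with hg
  set T : MvPolynomial (Fin 4) ℂ := aeval g P with hT
  have hev : ∀ w y0 y1 y2 : ℂ, aeval ![w, y0, y1, y2] T =
      aeval ![bb c w / bb c w0 * y0 + cK ℂ * c 2 * (w - w0) / bb c w0,
        (bb c w / bb c w0) ^ 2 * y1, (bb c w / bb c w0) ^ 3 * y2] P := by
    intro w y0 y1 y2
    have h1 : (aeval ![w, y0, y1, y2] : MvPolynomial (Fin 4) ℂ →ₐ[ℂ] ℂ).comp (aeval g) =
        aeval ![bb c w / bb c w0 * y0 + cK ℂ * c 2 * (w - w0) / bb c w0,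
        (bb c w / bb c w0) ^ 2 * y1, (bb c w / bb c w0) ^ 3 * y2] := by
      apply MvPolynomial.algHom_ext
      intro i
      fin_cases i
      · simp [hg, hBp, bb]; ring
      · simp [hg, hBp, bb]; ring_nf; simp
      · simp [hg, hBp, bb]; ring_nf; simp
    exact congrArg (fun f ↦ f P) h1
  have hT0 : T = 0 := by
    apply indep_local hw
    filter_upwards [hz] with w hw1
    rw [hev]
    exact hw1
  have hfin : ∀ y : Fin 3 → ℂ, eval y P = 0 := by
    intro y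
    have h1 := hev w0 (y 0) (y 1) (y 2)
    rw [hT0, map_zero, div_self h0] at h1
    simp only [one_mul, sub_self, mul_zero, zero_div, add_zero, one_pow] at h1
    have e : ![y 0, y 1, y 2] = y := by
      ext i; fin_cases i <;> rfl
    rw [e] at h1
    simpa [aeval_eq_eval] using h1.symm
  apply MvPolynomial.funext
  intro y
  rw [hfin, map_zero]

end H32.T4
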