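import Pool.Agent.H32.T4.A7

/-!
# A single solution: algebraic or independent
-/

set_option linter.unusedSimpArgs false

open UpperHalfPlane hiding I
open Complex EisensteinSeries ModularForm MatrixGroups Manifold
open scoped Real Topology
open MvPolynomial Filter

namespace H32.T4

/-- Germs into the upper half plane. -/
structure Gm where
  /-- constructor -/
  of ::
  /-- the function -/
  f : ℂ → ℂ
  an : AnalyticAt ℂ f 0
  pos : 0 < (f 0).im

namespace Gm

variable (φ : Gm)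

/-- The germ. -/
noncomputable def z : MG := mk φ.f φ.an.meromorphicAt

lemma an_ee (l : Fin 3) : AnalyticAt ℂ (fun ζ ↦ ee (φ.f ζ) l) 0 :=
  AnalyticAt.fun_comp (g := fun w ↦ ee w l) (f := φ.f) (analytic_ee φ.pos l) φ.an

/-- The three Eisenstein germs. -/
noncomputable def v (l : Fin 3) : MG := mk (fun ζ ↦ ee (φ.f ζ) l) (φ.an_ee l).meromorphicAt

lemma ev_pos : ∀ᶠ ζ in 𝓝 (0 : ℂ), 0 < (φ.f ζ).im := by
  have h : ContinuousAt (fun ζ ↦ (φ.f ζ).im) 0 :=
    Complex.continuous_im.continuousAt.comp φ.an.continuousAt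
  exact h.eventually (lt_mem_nhds φ.pos)

lemma ev_an : ∀ᶠ ζ in 𝓝 (0 : ℂ), AnalyticAt ℂ φ.f ζ := φ.an.eventually_analyticAt

lemma aeval_v (P : MvPolynomial (Fin 3) ℂ) :
    ∃ h, aeval φ.v P = mk (fun ζ ↦ aeval (ee (φ.f ζ)) P) h := by
  obtain ⟨h, e⟩ := aeval_mk (fun l ζ ↦ ee (φ.f ζ) l) (fun l ↦ (φ.an_ee l).meromorphicAt) P
  exact ⟨h, e⟩

lemma aeval_Rm {B : Type} [CommRing B] [Algebra ℂ B] (x : Fin 3 → B) (l : Fin 3) :
    aeval x (Rm (X : Fin 3 → MvPolynomial (Fin 3) ℂ) l) = Rm x l := by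
  have h := map_Rm (aeval x : MvPolynomial (Fin 3) ℂ →ₐ[ℂ] B) X l
  rw [h]
  simp

lemma DD_v (l : Fin 3) : DD (φ.v l) = DD φ.z * Rm φ.v l := by
  obtain ⟨h, e⟩ := φ.aeval_v (Rm X l)
  rw [aeval_Rm] at e
  rw [e, z, v, DD_mk, DD_mk, mk_mul, mk_eq_mk]
  refine Eventually.filter_mono nhdsWithin_le_nhds ?_
  filter_upwards [φ.ev_pos, φ.ev_an] with ζ h1 h2
  rw [aeval_Rm]
  have h3 := (hasDeriv_ee h1 l).comp ζ h2.differentiableAt.hasDerivAt
  have h4 : deriv (fun ζ ↦ ee (φ.f ζ) l) ζ = Rm (ee (φ.f ζ)) l * deriv φ.f ζ := h3.deriv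
  rw [h4, mul_comm]

lemma disc_v : φ.v 1 ^ 3 - φ.v 2 ^ 2 ≠ 0 := by
  intro h0
  obtain ⟨h, e⟩ := φ.aeval_v (X 1 ^ 3 - X 2 ^ 2)
  simp only [map_sub, map_pow, aeval_X, h0] at e
  have h1 := mk_eq_zero.mp e.symm
  obtain ⟨ζ, hζ⟩ := h1.exists
  exact disc_ee _ hζ

end Gm

lemma const_of_alg {x : MG} (h : IsAlgebraic ℂ x) : ∃ a : ℂ, x = algebraMap ℂ MG a := by
  set L := IntermediateField.adjoin ℂ {x} with hL
  have h1 : Algebra.IsIntegral ℂ L := by
    have := IntermediateField.isAlgebraic_adjoin_simple h.isIntegral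
    exact Algebra.IsAlgebraic.isIntegral
  obtain ⟨y, hy⟩ := (IsAlgClosed.algebraMap_bijective_of_isIntegral (k := ℂ)).2
    (⟨x, IntermediateField.mem_adjoin_simple_self ℂ x⟩ : L)
  refine ⟨y, ?_⟩
  have := congrArg (fun t : L ↦ (t : MG)) hy
  exact this.symm

/-- The quadratic polynomial does not vanish identically. -/
lemma ev_bb (φ : Gm) (hnc : ∀ a : ℂ, φ.z ≠ algebraMap ℂ MG a) {c : Fin 3 → ℂ} (hc : c ≠ 0) :
    ∀ᶠ ζ in NE, bb c (φ.f ζ) ≠ 0 := by
  have hmer : MeromorphicAt (fun ζ ↦ bb c (φ.f ζ)) 0 := by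
    have h := φ.an
    have : AnalyticAt ℂ (fun ζ ↦ bb c (φ.f ζ)) 0 := by
      unfold bb
      fun_prop
    exact this.meromorphicAt
  rcases hmer.eventually_eq_zero_or_eventually_ne_zero with h | h
  · exfalso
    set p : Polynomial ℂ := Polynomial.C (c 1) + Polynomial.C (2 * c 0) * Polynomial.X -
      Polynomial.C (c 2) * Polynomial.X ^ 2 with hp
    have hp0 : p ≠ 0 := by
      intro h0
      apply hc
      have e0 : p.coeff 0 = c 1 := by simp [hp]
      have e1 : p.coeff 1 = 2 * c 0 := by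
        simp [hp, Polynomial.coeff_C, Polynomial.coeff_X]
      have e2 : p.coeff 2 = - c 2 := by
        simp [hp, Polynomial.coeff_C, Polynomial.coeff_X]
      rw [h0, Polynomial.coeff_zero] at e0 e1 e2
      ext i
      fin_cases i
      · simpa using e1.symm
      · exact e0.symm
      · simpa using e2.symm
    have halg : IsAlgebraic ℂ φ.z := by
      refine ⟨p, hp0, ?_⟩
      obtain ⟨h1, e⟩ := aeval_mk (fun (_ : Unit) ζ ↦ φ.f ζ) (fun _ ↦ φ.an.meromorphicAt)
        (C (c 1) + C (2 * c 0) * X () - C (c 2) * X () ^ 2)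
      have e2 : Polynomial.aeval φ.z p = aeval (fun _ : Unit ↦ mk φ.f φ.an.meromorphicAt)
          (C (c 1) + C (2 * c 0) * X () - C (c 2) * X () ^ 2 : MvPolynomial Unit ℂ) := by
        simp only [hp, map_add, map_sub, map_mul, map_pow, Polynomial.aeval_C, Polynomial.aeval_X,
          MvPolynomial.aeval_C, MvPolynomial.aeval_X]
        rfl
      rw [e2, e, mk_eq_zero]
      filter_upwards [h] with ζ hζ
      simp only [map_add, map_sub, map_mul, map_pow, MvPolynomial.aeval_C, MvPolynomial.aeval_X]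
      exact hζ
    obtain ⟨a, ha⟩ := const_of_alg halg
    exact hnc a ha
  · exact h

section universal

variable {ι : Type}

/-- The universal derivation. -/
noncomputable def Pd (c : Fin 3 → ℂ) (i0 : ι) :
    Derivation ℂ (MvPolynomial (ι ⊕ Fin 3) ℂ) (MvPolynomial (ι ⊕ Fin 3) ℂ) :=
  mkDerivation ℂ (Sum.elim (fun _ ↦ 0)
    (fun l ↦ fr (X (Sum.inl i0)) (fun l ↦ X (Sum.inr l)) (fun i ↦ C (c i)) l))

lemma aeval_Pd_inr {B : Type} [CommRing B] [Algebra ℂ B] (c : Fin 3 → ℂ) (i0 : ι)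
    (x : ι ⊕ Fin 3 → B) (l : Fin 3) :
    aeval x (Pd c i0 (X (Sum.inr l))) =
      fr (x (Sum.inl i0)) (fun l ↦ x (Sum.inr l)) (fun i ↦ algebraMap ℂ B (c i)) l := by
  rw [Pd, mkDerivation_X, Sum.elim_inr]
  have h := map_fr (aeval x : MvPolynomial (ι ⊕ Fin 3) ℂ →ₐ[ℂ] B) (X (Sum.inl i0))
    (fun l ↦ X (Sum.inr l)) (fun i ↦ C (c i)) l
  rw [h]
  simp

lemma Pd_inl (c : Fin 3 → ℂ) (i0 : ι) (i : ι) : Pd c i0 (X (Sum.inl i)) = 0 := by
  rw [Pd, mkDerivation_X, Sum.elim_inl]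

lemma Pd_C (c : Fin 3 → ℂ) (i0 : ι) (a : ℂ) : Pd c i0 (C a) = 0 :=
  (Pd c i0).map_algebraMap a

/-- Compatibility with a derivation of the field. -/
lemma der_Pd {K : IntermediateField ℂ MG} {L : IntermediateField K MG} (δ : Derivation K L MG)
    (c : Fin 3 → ℂ) (i0 : ι) (k : ι → K) (w : Fin 3 → L)
    (hδ : ∀ l, δ (w l) = fr (k i0 : MG) (fun i ↦ (w i : MG)) (fun i ↦ algebraMap ℂ MG (c i)) l)
    (P : MvPolynomial (ι ⊕ Fin 3) ℂ) :
    δ (aeval (Sum.elim (fun i ↦ algebraMap K L (k i)) w) P) =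
      aeval (Sum.elim (fun i ↦ (k i : MG)) (fun i ↦ (w i : MG))) (Pd c i0 P) := by
  have hcoe : ∀ P : MvPolynomial (ι ⊕ Fin 3) ℂ,
      ((aeval (Sum.elim (fun i ↦ algebraMap K L (k i)) w) P : L) : MG) =
      aeval (Sum.elim (fun i ↦ (k i : MG)) (fun i ↦ (w i : MG))) P := by
    intro P
    have h1 : (IsScalarTower.toAlgHom ℂ L MG).comp
        (aeval (Sum.elim (fun i ↦ algebraMap K L (k i)) w)) =
        aeval (Sum.elim (fun i ↦ (k i : MG)) (fun i ↦ (w i : MG))) := by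
      apply MvPolynomial.algHom_ext
      rintro (i | i)
      · simp only [AlgHom.comp_apply, aeval_X, Sum.elim_inl]
        rfl
      · simp only [AlgHom.comp_apply, aeval_X, Sum.elim_inr]
        rfl
    exact congrArg (fun f ↦ f P) h1
  induction P using MvPolynomial.induction_on with
  | C a =>
    rw [Pd_C, map_zero, aeval_C]
    have h1 : algebraMap ℂ L a = algebraMap K L (algebraMap ℂ K a) := rfl
    rw [h1, δ.map_algebraMap]
  | add p q hp hq => rw [map_add, map_add, map_add, map_add, hp, hq]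
  | mul_X p i hp =>
    rw [map_mul, Derivation.leibniz, Derivation.leibniz, map_add, hp, smul_eq_mul, smul_eq_mul,
      map_mul, map_mul]
    rw [Algebra.smul_def, Algebra.smul_def]
    change ((aeval (Sum.elim (fun i ↦ algebraMap K L (k i)) w) p : L) : MG) * _ +
      ((aeval (Sum.elim (fun i ↦ algebraMap K L (k i)) w) (X i) : L) : MG) * _ = _
    rw [hcoe, hcoe]
    rcases i with i | i
    · rw [Pd_inl, map_zero, aeval_X, Sum.elim_inl, δ.map_algebraMap]
    · rw [aeval_Pd_inr, aeval_X, Sum.elim_inr, hδ]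
      rfl

/-- Specialisation of the coefficients. -/
noncomputable def spec (x : ι → ℂ) : MvPolynomial (ι ⊕ Fin 3) ℂ →ₐ[ℂ] MvPolynomial (Fin 3) ℂ :=
  aeval (Sum.elim (fun i ↦ C (x i)) X)

lemma spec_Pd (x : ι → ℂ) (c : Fin 3 → ℂ) (i0 : ι) (P : MvPolynomial (ι ⊕ Fin 3) ℂ) :
    spec x (Pd c i0 P) = pd (x i0) c (spec x P) := by
  induction P using MvPolynomial.induction_on with
  | C a =>
    have e : pd (x i0) c (C a) = 0 := (pd (x i0) c).map_algebraMap a
    rw [Pd_C, map_zero, spec, aeval_C]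
    exact e.symm
  | add p q hp hq => rw [map_add, map_add, map_add, map_add, hp, hq]
  | mul_X p i hp =>
    rw [Derivation.leibniz, map_add, smul_eq_mul, smul_eq_mul, map_mul, map_mul, map_mul,
      Derivation.leibniz, smul_eq_mul, smul_eq_mul, hp]
    congr 1
    rcases i with i | i
    · rw [Pd_inl, map_zero]
      have e : pd (x i0) c (spec x (X (Sum.inl i))) = 0 := by
        rw [spec, aeval_X, Sum.elim_inl]
        exact (pd (x i0) c).map_algebraMap _
      rw [e]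
    · unfold spec
      rw [aeval_Pd_inr, aeval_X, Sum.elim_inr, pd, mkDerivation_X]
      rfl

lemma aeval_spec (x : ι → ℂ) (y : Fin 3 → ℂ) (P : MvPolynomial (ι ⊕ Fin 3) ℂ) :
    aeval y (spec x P) = aeval (Sum.elim x y) P := by
  have h1 : (aeval y : MvPolynomial (Fin 3) ℂ →ₐ[ℂ] ℂ).comp (spec x) = aeval (Sum.elim x y) := by
    apply MvPolynomial.algHom_ext
    rintro (i | i)
    · simp [spec]
    · simp [spec]
  exact congrArg (fun f ↦ f P) h1

end universal

end H32.T4
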