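import Pool.Agent.H32.T4.A8

/-!
# The theorem on a single solution
-/

set_option linter.unusedSimpArgs false

open UpperHalfPlane hiding I
open Complex EisensteinSeries ModularForm MatrixGroups Manifold
open scoped Real Topology
open MvPolynomial Filter

namespace H32.T4

/-- A point in the intersection of two punctured balls. -/
lemma exists_pball {r s : ℝ} (hr : 0 < r) (hs : 0 < s) :
    ∃ z, z ∈ Metric.ball (0 : ℂ) r \ {0} ∧ z ∈ Metric.ball (0 : ℂ) s \ {0} := by
  have h := inter_mem (pball_mem hr) (pball_mem hs)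
  obtain ⟨z, h1, h2⟩ := (inferInstance : NE.NeBot).nonempty_of_mem h
  exact ⟨z, h1, h2⟩

/-- The identity theorem on punctured balls. -/
lemma ident_pball {g : ℂ → ℂ} {r : ℝ} (hr : 0 < r)
    (hg : AnalyticOnNhd ℂ g (Metric.ball (0 : ℂ) r \ {0})) (h : ∀ᶠ ζ in NE, g ζ = 0) :
    ∀ ζ ∈ Metric.ball (0 : ℂ) r \ {0}, g ζ = 0 := by
  obtain ⟨s, hs, h1⟩ := ev_pball h
  obtain ⟨z0, hz1, hz2⟩ := exists_pball hr hs
  refine hg.eqOn_zero_of_preconnected_of_eventuallyEq_zero (preconn_pball r) hz1 ?_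
  filter_upwards [(open_pball s).mem_nhds hz2] with z hz
  exact h1 z hz

lemma coeff_sum_mono {S : Finset (Fin 3 →₀ ℕ)} (a : {m // m ∈ S} → ℂ) (m : {m // m ∈ S}) :
    coeff m.1 (∑ m : {m // m ∈ S}, monomial m.1 (a m)) = a m := by
  classical
  rw [coeff_sum, Finset.sum_eq_single m]
  · rw [coeff_monomial, if_pos rfl]
  · intro b _ hb
    rw [coeff_monomial, if_neg]
    intro h3
    exact hb (Subtype.ext h3)
  · intro h3
    exact absurd (Finset.mem_univ _) h3

/-- If all the iterated derivatives vanish, then so do the coefficients. -/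
lemma coef_zero {ι : Type} [Finite ι] (φ : Gm) (hnc : ∀ a : ℂ, φ.z ≠ algebraMap ℂ MG a)
    {c : Fin 3 → ℂ} (hc : c ≠ 0) (i0 : ι) (k : ι → MG) (hk0 : k i0 = φ.z)
    (U : MvPolynomial (ι ⊕ Fin 3) ℂ)
    (hrel : ∀ n, aeval (Sum.elim k φ.v) ((Pd c i0)^[n] U) = 0) :
    ∃ (g : ι → ℂ → ℂ) (hg : ∀ i, MeromorphicAt (g i) 0), (∀ i, mk (g i) (hg i) = k i) ∧
      ∀ᶠ ζ in NE, spec (fun i ↦ g i ζ) U = 0 := by
  classical
  choose g hg hgk using fun i : ι ↦ exists_rep (k i)
  refine ⟨g, hg, hgk, ?_⟩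
  set f : ι ⊕ Fin 3 → ℂ → ℂ := Sum.elim g (fun l ζ ↦ ee (φ.f ζ) l) with hf
  have hfm : ∀ i, MeromorphicAt (f i) 0 := by
    rintro (m | l)
    · exact hg m
    · exact (φ.an_ee l).meromorphicAt
  have hfk : (fun i ↦ mk (f i) (hfm i)) = Sum.elim k φ.v := by
    ext i
    rcases i with m | l
    · exact hgk m
    · rfl
  have hev : ∀ᶠ ζ in NE, ∀ i, AnalyticAt ℂ (f i) ζ := by
    rw [Filter.eventually_all]
    exact fun i ↦ (hfm i).eventually_analyticAt
  have hφg : ∀ᶠ ζ in NE, g i0 ζ = φ.f ζ := by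
    have h1 := hgk i0
    rw [hk0, Gm.z, mk_eq_mk] at h1
    exact h1
  obtain ⟨r, hr, hball⟩ := ev_pball hev
  have hzero : ∀ n, ∀ ζ ∈ Metric.ball (0 : ℂ) r \ {0},
      aeval (fun i ↦ f i ζ) ((Pd c i0)^[n] U) = 0 := by
    intro n
    refine ident_pball hr (fun ζ hζ ↦ AnalyticAt.aeval_mvPolynomial (hball ζ hζ) _) ?_
    rw [← aeval_mk_zero f hfm, hfk]
    exact hrel n
  filter_upwards [pball_mem hr, ev_bb φ hnc hc, φ.ev_pos.filter_mono nhdsWithin_le_nhds, hφg]
    with ζ h1 h2 h3 h5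
  refine flow_poly (w0 := φ.f ζ) (c := c) h3 h2 _ fun n ↦ ?_
  have h4 : (pd (φ.f ζ) c)^[n] (spec (fun i ↦ g i ζ) U) =
      spec (fun i ↦ g i ζ) ((Pd c i0)^[n] U) := by
    clear hzero hrel
    induction n with
    | zero => rfl
    | succ n ih =>
      rw [Function.iterate_succ_apply', Function.iterate_succ_apply', ih, spec_Pd, h5]
  rw [h4, aeval_spec, ← hzero n ζ h1]
  congr 2
  ext i
  rcases i with i | l
  · rfl
  · rfl

lemma spec_term {ι : Type} (x : ι → ℂ) (i : ι) (m : Fin 3 →₀ ℕ) :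
    spec x (X (Sum.inl i) * ∏ l, X (Sum.inr l) ^ (m l)) = monomial m (x i) := by
  rw [map_mul, map_prod, monomial_eq, Finsupp.prod_fintype _ _ (by simp)]
  simp only [spec, map_pow, aeval_X, Sum.elim_inr, Sum.elim_inl]

theorem single (K : IntermediateField ℂ MG) (hK : Stab K) (φ : Gm) (hz : φ.z ∈ K)
    (hnc : ∀ a : ℂ, φ.z ≠ algebraMap ℂ MG a) :
    AlgebraicIndependent K φ.v ∨ ∀ l, IsAlgebraic K (φ.v l) := by
  classical
  have hs := single_alg K hK hz φ.v φ.DD_v φ.disc_v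
  set L := IntermediateField.adjoin K (Set.range φ.v) with hL
  set w : Fin 3 → L := fun l ↦ ⟨φ.v l, IntermediateField.subset_adjoin _ _ ⟨l, rfl⟩⟩ with hw
  rcases hs with h | ⟨c, hc, δ, hδ⟩
  · exact Or.inr h
  left
  by_contra hcon
  rw [AlgebraicIndependent, injective_iff_map_eq_zero] at hcon
  push Not at hcon
  obtain ⟨Q, hQ, hQ0⟩ := hcon
  set k : Option {m // m ∈ Q.support} → K := fun i ↦ i.elim ⟨φ.z, hz⟩ (fun m ↦ Q.coeff m) with hk
  set U : MvPolynomial (Option {m // m ∈ Q.support} ⊕ Fin 3) ℂ :=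
    ∑ m : {m // m ∈ Q.support}, X (Sum.inl (some m)) * ∏ l, X (Sum.inr l) ^ (m.1 l) with hU
  -- the values
  have hrel : ∀ n, aeval (Sum.elim (fun i ↦ (k i : MG)) φ.v) ((Pd c none)^[n] U) = 0 := by
    intro n
    induction n with
    | zero =>
      have hQ2 : aeval φ.v Q = ∑ m : {m // m ∈ Q.support},
          algebraMap K MG (Q.coeff m) * ∏ l, φ.v l ^ (m.1 l) := by
        rw [aeval_def, eval₂_eq', ← Finset.sum_coe_sort Q.support]
      rw [Function.iterate_zero, id_eq, ← hQ, hU, map_sum, hQ2]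
      refine Finset.sum_congr rfl fun m _ ↦ ?_
      rw [map_mul, map_prod, aeval_X, Sum.elim_inl]
      congr 1
      refine Finset.prod_congr rfl fun l _ ↦ ?_
      rw [map_pow, aeval_X, Sum.elim_inr]
    | succ n ih =>
      rw [Function.iterate_succ_apply']
      have h1 := der_Pd δ c none k w (fun l ↦ hδ l) ((Pd c none)^[n] U)
      have h2 : aeval (Sum.elim (fun i ↦ algebraMap K L (k i)) w) ((Pd c none)^[n] U) = 0 := by
        have h3 : (IsScalarTower.toAlgHom ℂ L MG)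
            (aeval (Sum.elim (fun i ↦ algebraMap K L (k i)) w) ((Pd c none)^[n] U)) =
            aeval (Sum.elim (fun i ↦ (k i : MG)) φ.v) ((Pd c none)^[n] U) := by
          rw [← AlgHom.comp_apply]
          congr 1
          apply MvPolynomial.algHom_ext
          rintro (i | i)
          · simp only [AlgHom.comp_apply, aeval_X, Sum.elim_inl]
            rfl
          · simp only [AlgHom.comp_apply, aeval_X, Sum.elim_inr]
            rfl
        rw [ih] at h3
        exact (map_eq_zero _).mp h3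
      rw [h2, map_zero] at h1
      exact h1.symm
  obtain ⟨g, hg, hgk, hcoef⟩ := coef_zero φ hnc hc none (fun i ↦ (k i : MG)) rfl U hrel
  obtain ⟨m, hm⟩ : Q.support.Nonempty := by
    rw [Finset.nonempty_iff_ne_empty]
    intro h0
    exact hQ0 (MvPolynomial.support_eq_empty.mp h0)
  have hcm : ∀ᶠ ζ in NE, g (some ⟨m, hm⟩) ζ = 0 := by
    filter_upwards [hcoef] with ζ hζ
    have h1 : spec (fun i ↦ g i ζ) U =
        ∑ m : {m // m ∈ Q.support}, monomial m.1 (g (some m) ζ) := by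
      rw [hU, map_sum]
      exact Finset.sum_congr rfl fun m _ ↦ spec_term _ _ _
    have h2 := congrArg (coeff m) (h1.symm.trans hζ)
    rw [coeff_zero] at h2
    rw [← h2]
    exact (coeff_sum_mono (fun m ↦ g (some m) ζ) ⟨m, hm⟩).symm
  have h1 := hgk (some ⟨m, hm⟩)
  have h2 : mk (g (some ⟨m, hm⟩)) (hg (some ⟨m, hm⟩)) = 0 := mk_eq_zero.mpr hcm
  rw [h2] at h1
  rw [MvPolynomial.mem_support_iff] at hm
  apply hm
  exact Subtype.ext h1.symm

end H32.T4
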