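import Pool.Agent.H32.T4.A22

/-!
# Independence for functions of several variables
-/

open UpperHalfPlane hiding I
open Complex EisensteinSeries ModularForm MatrixGroups Manifold
open scoped Real Topology
open MvPolynomial Filter

namespace H32.T4

/-- A line. -/
def line {m : ℕ} (x v : Fin m → ℂ) (ζ : ℂ) : Fin m → ℂ := fun s ↦ x s + ζ * v s

lemma line_zero {m : ℕ} (x v : Fin m → ℂ) : line x v 0 = x := by
  ext s
  simp [line]

lemma line_an {m : ℕ} (x v : Fin m → ℂ) (ζ : ℂ) : AnalyticAt ℂ (line x v) ζ := by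
  rw [analyticAt_pi_iff]
  intro s
  unfold line
  fun_prop

lemma an_line {m : ℕ} {x v : Fin m → ℂ} {f : (Fin m → ℂ) → ℂ} (hf : AnalyticAt ℂ f x) :
    AnalyticAt ℂ (fun ζ ↦ f (line x v ζ)) 0 := by
  refine AnalyticAt.fun_comp (g := f) (f := line x v) ?_ (line_an x v 0)
  rw [line_zero]
  exact hf

/-- A nonzero polynomial specialises to a nonzero polynomial outside a hypersurface. -/
lemma exists_coeff {σ : Type} {m : ℕ} {P : MvPolynomial (σ ⊕ Fin m) ℂ} (hP : P ≠ 0) :
    ∃ p : MvPolynomial (Fin m) ℂ, p ≠ 0 ∧ ∀ x : Fin m → ℂ, eval x p ≠ 0 →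
      aeval (Sum.elim X (fun s ↦ C (x s)) : σ ⊕ Fin m → MvPolynomial σ ℂ) P ≠ 0 := by
  set Q : MvPolynomial σ (MvPolynomial (Fin m) ℂ) := sumAlgEquiv ℂ σ (Fin m) P with hQ
  have hQ0 : Q ≠ 0 := by
    rw [hQ]
    exact (map_ne_zero_iff _ (sumAlgEquiv ℂ σ (Fin m)).injective).mpr hP
  obtain ⟨μ, hμ⟩ := MvPolynomial.ne_zero_iff.mp hQ0
  refine ⟨coeff μ Q, hμ, fun x hx h0 ↦ hx ?_⟩
  have h1 : ∀ P : MvPolynomial (σ ⊕ Fin m) ℂ,
      aeval (Sum.elim X (fun s ↦ C (x s)) : σ ⊕ Fin m → MvPolynomial σ ℂ) P =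
      MvPolynomial.map (eval x) (sumAlgEquiv ℂ σ (Fin m) P) := by
    intro P
    induction P using MvPolynomial.induction_on with
    | C c =>
      rw [aeval_C]
      have : sumAlgEquiv ℂ σ (Fin m) (C c) = C (C c) := (sumAlgEquiv ℂ σ (Fin m)).commutes c
      rw [this, MvPolynomial.map_C, eval_C]
      rfl
    | add p q hp hq => rw [map_add, map_add, map_add, hp, hq]
    | mul_X p i hp =>
      rw [map_mul, map_mul, map_mul, hp, aeval_X]
      congr 1
      rcases i with i | i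
      · rw [sumAlgEquiv_X_inl, MvPolynomial.map_X, Sum.elim_inl]
      · rw [sumAlgEquiv_X_inr, MvPolynomial.map_C, eval_X, Sum.elim_inr]
  rw [h1, ← hQ] at h0
  have h2 := congrArg (coeff μ) h0
  rwa [coeff_map, coeff_zero] at h2

/-- The independence theorem for several variables. -/
theorem nonvan {m n : ℕ} (x : Fin m → ℂ) (φ : Fin n → (Fin m → ℂ) → ℂ)
    (han : ∀ i, AnalyticAt ℂ (φ i) x) (him : ∀ i, 0 < (φ i x).im)
    (halg : ∀ i v (h : AnalyticAt ℂ (fun ζ ↦ φ i (line x v ζ)) 0),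
      IsAlgebraic EX (mk (fun ζ ↦ φ i (line x v ζ)) h.meromorphicAt))
    (hnc : ∀ i, ∃ p : MvPolynomial (Fin m) ℂ, p ≠ 0 ∧ ∀ v, eval (line x v 1) p ≠ 0 →
      ¬ ∀ᶠ ζ in NE, φ i (line x v ζ) = φ i x)
    (hrel : ∀ i j, i ≠ j → ¬ ∃ a b c d : ℚ, 0 < a * d - b * c ∧
      φ j x = ((a : ℂ) * φ i x + b) / ((c : ℂ) * φ i x + d))
    (P : MvPolynomial ((Fin n × Fin 3) ⊕ Fin m) ℂ)
    (h : ∀ᶠ s in 𝓝 x, aeval (Sum.elim (fun p ↦ ee (φ p.1 s) p.2) s) P = 0) : P = 0 := by
  classical
  by_contra hP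
  obtain ⟨p, hp0, hp⟩ := exists_coeff hP
  choose q hq0 hq using hnc
  have hprod : p * ∏ i, q i ≠ 0 := mul_ne_zero hp0 (Finset.prod_ne_zero_iff.mpr fun i _ ↦ hq0 i)
  obtain ⟨y, hy⟩ : ∃ y, eval y (p * ∏ i, q i) ≠ 0 := by
    by_contra hcon
    push Not at hcon
    exact hprod (MvPolynomial.funext fun y ↦ by rw [hcon y, map_zero])
  rw [map_mul, map_prod] at hy
  set v : Fin m → ℂ := fun s ↦ y s - x s with hv
  have hl1 : line x v 1 = y := by
    ext s
    simp [line, hv]
  have hpy : eval y p ≠ 0 := left_ne_zero_of_mul hy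
  have hqy : ∀ i, eval (line x v 1) (q i) ≠ 0 := fun i ↦ by
    rw [hl1]
    exact Finset.prod_ne_zero_iff.mp (right_ne_zero_of_mul hy) i (Finset.mem_univ i)
  set γ : Fin n → Gm := fun i ↦ Gm.of (fun ζ ↦ φ i (line x v ζ)) (an_line (han i)) (by
    rw [line_zero]; exact him i) with hγ
  set Q : MvPolynomial (Unit ⊕ Fin n × Fin 3) ℂ :=
    aeval (Sum.elim (fun p ↦ X (Sum.inr p)) (fun s ↦ C (x s) + X (Sum.inl ()) * C (v s))) P with hQ
  have hQ0 : Q = 0 := by
    refine AL γ (fun i ↦ halg i v (an_line (han i))) (fun i a ha ↦ ?_) (fun i j hij hr ↦ ?_) Q ?_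
    · have h1 : ∀ᶠ ζ in NE, φ i (line x v ζ) = a := by
        have h2 : mk (fun ζ ↦ φ i (line x v ζ)) (an_line (han i)).meromorphicAt =
          mk (fun _ ↦ a) (MeromorphicAt.const _ _) := ha
        rw [mk_eq_mk] at h2
        exact h2
      have h3 : φ i x = a := by
        have hc : ContinuousAt (fun ζ ↦ φ i (line x v ζ)) 0 := (an_line (han i)).continuousAt
        have h4 : Tendsto (fun ζ ↦ φ i (line x v ζ)) NE (𝓝 (φ i (line x v 0))) :=
          hc.tendsto.mono_left nhdsWithin_le_nhds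
        rw [line_zero] at h4
        have h5 : Tendsto (fun ζ ↦ φ i (line x v ζ)) NE (𝓝 a) := by
          refine tendsto_const_nhds.congr' ?_
          filter_upwards [h1] with ζ hζ using hζ.symm
        exact tendsto_nhds_unique h4 h5
      refine hq i v (hqy i) ?_
      rw [h3]
      exact h1
    · obtain ⟨a, b, c, d, hdet, hr⟩ := hr
      have ci : Tendsto (γ i).f NE (𝓝 (φ i x)) := by
        have h4 : Tendsto (γ i).f (𝓝 0) (𝓝 (φ i (line x v 0))) := (γ i).an.continuousAt.tendsto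
        rw [line_zero] at h4
        exact h4.mono_left nhdsWithin_le_nhds
      have cj : Tendsto (γ j).f NE (𝓝 (φ j x)) := by
        have h4 : Tendsto (γ j).f (𝓝 0) (𝓝 (φ j (line x v 0))) := (γ j).an.continuousAt.tendsto
        rw [line_zero] at h4
        exact h4.mono_left nhdsWithin_le_nhds
      have h1 : Tendsto (fun ζ ↦ (γ j).f ζ * ((c : ℂ) * (γ i).f ζ + d)) NE
          (𝓝 (φ j x * ((c : ℂ) * φ i x + d))) := cj.mul ((ci.const_mul _).add_const _)
      have h2 : Tendsto (fun ζ ↦ (a : ℂ) * (γ i).f ζ + b) NE (𝓝 ((a : ℂ) * φ i x + b)) :=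
        (ci.const_mul _).add_const _
      have h3 : φ j x * ((c : ℂ) * φ i x + d) = (a : ℂ) * φ i x + b :=
        tendsto_nhds_unique (h1.congr' hr) h2
      have hcd : ((c : ℂ) * φ i x + d) ≠ 0 := by
        intro h0
        have e1 : ((c : ℝ) : ℂ) * φ i x + ((d : ℝ) : ℂ) = 0 := by
          push_cast
          exact h0
        have e2 : ((a : ℝ) : ℂ) * φ i x + ((b : ℝ) : ℂ) = 0 := by
          push_cast
          rw [← h3, h0, mul_zero]
        have him1 := congrArg Complex.im e1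
        have him2 := congrArg Complex.im e2
        simp only [Complex.add_im, Complex.re_ofReal_mul, Complex.im_ofReal_mul, Complex.ofReal_im,
          add_zero, Complex.zero_im] at him1 him2
        have hc0 : (c : ℝ) = 0 := (mul_eq_zero.mp him1).resolve_right (him i).ne'
        have ha0 : (a : ℝ) = 0 := (mul_eq_zero.mp him2).resolve_right (him i).ne'
        have hc0' : c = 0 := by exact_mod_cast hc0
        have ha0' : a = 0 := by exact_mod_cast ha0
        exact hdet (by rw [hc0', ha0']; ring)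
      have h5 : φ j x = ((a : ℂ) * φ i x + b) / ((c : ℂ) * φ i x + d) := by
        rw [eq_div_iff hcd, h3]
      refine hrel i j hij ⟨a, b, c, d, ?_, h5⟩
      have h6 : (φ j x).im = (a * d - b * c) * (φ i x).im /
          Complex.normSq ((c : ℂ) * φ i x + d) := by
        rw [h5, Complex.div_im]
        have hn : Complex.normSq ((c : ℂ) * φ i x + d) ≠ 0 := by
          rwa [Ne, Complex.normSq_eq_zero]
        have r1 : ((a : ℂ) * φ i x + b).im = a * (φ i x).im := by
          have : (a : ℂ) * φ i x + b = ((a : ℝ) : ℂ) * φ i x + ((b : ℝ) : ℂ) := by push_cast; rfl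
          rw [this]
          simp
        have r2 : ((a : ℂ) * φ i x + b).re = a * (φ i x).re + b := by
          have : (a : ℂ) * φ i x + b = ((a : ℝ) : ℂ) * φ i x + ((b : ℝ) : ℂ) := by push_cast; rfl
          rw [this]
          simp
        have r3 : ((c : ℂ) * φ i x + d).im = c * (φ i x).im := by
          have : (c : ℂ) * φ i x + d = ((c : ℝ) : ℂ) * φ i x + ((d : ℝ) : ℂ) := by push_cast; rfl
          rw [this]
          simp
        have r4 : ((c : ℂ) * φ i x + d).re = c * (φ i x).re + d := by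
          have : (c : ℂ) * φ i x + d = ((c : ℝ) : ℂ) * φ i x + ((d : ℝ) : ℂ) := by push_cast; rfl
          rw [this]
          simp
        rw [r1, r2, r3, r4]
        field_simp
        ring
      have h7 := him j
      rw [h6] at h7
      have hn : 0 < Complex.normSq ((c : ℂ) * φ i x + d) := Complex.normSq_pos.mpr hcd
      have h8 : 0 < (a * d - b * c : ℝ) * (φ i x).im := by
        by_contra hle
        exact absurd h7 (not_lt.mpr (div_nonpos_of_nonpos_of_nonneg (not_lt.mp hle) hn.le))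
      have h9 : 0 < (a * d - b * c : ℝ) := by
        by_contra hle
        exact absurd h8 (not_lt.mpr (mul_nonpos_of_nonpos_of_nonneg (not_lt.mp hle) (him i).le))
      exact_mod_cast h9
    · have hl : Tendsto (line x v) (𝓝 0) (𝓝 x) := by
        have h4 : Tendsto (line x v) (𝓝 0) (𝓝 (line x v 0)) := (line_an x v 0).continuousAt.tendsto
        rwa [line_zero] at h4
      filter_upwards [hl.eventually h] with ζ hζ
      rw [← hζ, hQ]
      have e1 := MvPolynomial.comp_aeval_apply (R := ℂ) (Sum.elim (fun p ↦ X (Sum.inr p))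
        (fun s ↦ C (x s) + X (Sum.inl ()) * C (v s)) :
          (Fin n × Fin 3) ⊕ Fin m → MvPolynomial (Unit ⊕ Fin n × Fin 3) ℂ)
        (aeval (Sum.elim (fun _ ↦ ζ) (fun p ↦ ee ((γ p.1).f ζ) p.2)) :
          MvPolynomial (Unit ⊕ Fin n × Fin 3) ℂ →ₐ[ℂ] ℂ) P
      rw [e1]
      congr 2
      ext s
      rcases s with s | s
      · simp only [Sum.elim_inl, aeval_X, Sum.elim_inr]
        rfl
      · simp only [Sum.elim_inr, map_add, map_mul, aeval_X, Sum.elim_inl, aeval_C]
        rfl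
  refine hp y hpy ?_
  have e1 := MvPolynomial.comp_aeval_apply (R := ℂ) (Sum.elim (fun p ↦ X (Sum.inr p))
    (fun s ↦ C (x s) + X (Sum.inl ()) * C (v s)) :
      (Fin n × Fin 3) ⊕ Fin m → MvPolynomial (Unit ⊕ Fin n × Fin 3) ℂ)
    (aeval (Sum.elim (fun _ ↦ 1) X) :
      MvPolynomial (Unit ⊕ Fin n × Fin 3) ℂ →ₐ[ℂ] MvPolynomial (Fin n × Fin 3) ℂ) P
  rw [← hQ, hQ0, map_zero] at e1
  rw [e1]
  congr 2
  ext s : 1
  rcases s with s | s
  · simp only [Sum.elim_inl, aeval_X, Sum.elim_inr]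
  · simp only [Sum.elim_inr, map_add, map_mul, aeval_X, Sum.elim_inl, aeval_C, one_mul]
    rw [← hl1]
    simp only [line, one_mul, map_add]
    rfl

end H32.T4
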