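import Pool.Agent.H32.T4.B1
import Pool.Agent.H32.MultiVar
import Pool.Agent.H32.T3.D9

/-!
# Quadratic points over a real field: functional independence
-/

open UpperHalfPlane hiding I
open Complex EisensteinSeries ModularForm MatrixGroups Manifold
open scoped Real Topology
open MvPolynomial Filter

namespace H32.T4

/-- The principal square root. -/
noncomputable def sq (x : ℂ) : ℂ := x ^ (((2 : ℕ) : ℂ)⁻¹)

lemma sq_sq (x : ℂ) : sq x ^ 2 = x := Complex.cpow_nat_inv_pow x two_ne_zero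

lemma an_sq {x : ℂ} (hx : x ∈ Complex.slitPlane) : AnalyticAt ℂ sq x :=
  AnalyticAt.cpow analyticAt_id analyticAt_const hx

lemma sq_ofReal {x : ℝ} (hx : 0 ≤ x) : sq (x : ℂ) = (Real.sqrt x : ℝ) := by
  rw [sq, Real.sqrt_eq_rpow, Complex.ofReal_cpow hx]
  congr 1
  push_cast
  norm_num

/-- The data describing a tuple of quadratic points. -/
structure Dat (m n b : ℕ) where
  /-- constructor -/
  of ::
  /-- the parameters -/
  t : Fin m → ℝ
  /-- rational parts -/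
  pA : Fin n → MvPolynomial (Fin m) ℤ
  /-- coefficients of the roots -/
  pB : Fin n → MvPolynomial (Fin m) ℤ
  /-- denominators -/
  pW : Fin n → MvPolynomial (Fin m) ℤ
  /-- radicands -/
  pD : Fin (b + 1) → MvPolynomial (Fin m) ℤ
  /-- classes -/
  c : Fin n → Fin (b + 1)
  hpB : ∀ i, 0 < aeval t (pB i)
  hpW : ∀ i, 0 < aeval t (pW i)
  hpD : ∀ i, 0 < aeval t (pD i)

/-- integral polynomials at real points -/
lemma aeval_ofReal {m : ℕ} (t : Fin m → ℝ) (p : MvPolynomial (Fin m) ℤ) :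
    aeval (fun s ↦ (t s : ℂ)) p = ((aeval t p : ℝ) : ℂ) := by
  have h := MvPolynomial.comp_aeval_apply (R := ℤ) t (Complex.ofRealHom.toIntAlgHom) p
  exact h.symm

lemma an_aeval {m : ℕ} (p : MvPolynomial (Fin m) ℤ) (s : Fin m → ℂ) :
    AnalyticAt ℂ (fun s : Fin m → ℂ ↦ aeval s p) s :=
  AnalyticAt.aeval_mvPolynomial (𝕜 := ℂ) (f := fun s : Fin m → ℂ ↦ s)
    (fun i ↦ (ContinuousLinearMap.proj (R := ℂ) (φ := fun _ : Fin m ↦ ℂ) i).analyticAt s) p

namespace Dat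

variable {m n b : ℕ} (S : Dat m n b)

/-- The complex parameters. -/
noncomputable def x : Fin m → ℂ := fun s ↦ (S.t s : ℂ)

/-- The functions. -/
noncomputable def φ (i : Fin n) (s : Fin m → ℂ) : ℂ :=
  (aeval s (S.pA i) + aeval s (S.pB i) * (sq (aeval s (S.pD (S.c i))) * Complex.I)) / aeval s (S.pW i)

lemma x_aeval (p : MvPolynomial (Fin m) ℤ) : aeval S.x p = ((aeval S.t p : ℝ) : ℂ) :=
  aeval_ofReal S.t p

lemma an_φ (i : Fin n) : AnalyticAt ℂ (S.φ i) S.x := by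
  have h1 : AnalyticAt ℂ (fun s : Fin m → ℂ ↦ sq (aeval s (S.pD (S.c i)))) S.x := by
    refine AnalyticAt.fun_comp (g := sq) (f := fun s : Fin m → ℂ ↦ aeval s (S.pD (S.c i))) ?_
      (an_aeval _ _)
    apply an_sq
    rw [x_aeval]
    exact Complex.ofReal_mem_slitPlane.mpr (S.hpD _)
  refine AnalyticAt.fun_div ((an_aeval _ _).fun_add ((an_aeval _ _).fun_mul
    (h1.fun_mul analyticAt_const))) (an_aeval _ _) ?_
  rw [x_aeval]
  exact_mod_cast (S.hpW i).ne'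

/-- Values at real points. -/
lemma φ_real (i : Fin n) {y : Fin m → ℝ} (hy : 0 ≤ aeval y (S.pD (S.c i))) :
    S.φ i (fun s ↦ (y s : ℂ)) = ((aeval y (S.pA i) : ℝ) + (aeval y (S.pB i) : ℝ) *
      ((Real.sqrt (aeval y (S.pD (S.c i))) : ℝ) * Complex.I)) / (aeval y (S.pW i) : ℝ) := by
  rw [φ, aeval_ofReal, aeval_ofReal, aeval_ofReal, aeval_ofReal, sq_ofReal hy]

lemma im_φ (i : Fin n) : 0 < (S.φ i S.x).im := by
  have h := S.φ_real i (S.hpD (S.c i)).le
  have e : S.φ i S.x = (((aeval S.t (S.pA i) : ℝ) / (aeval S.t (S.pW i) : ℝ) : ℝ) : ℂ) +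
      (((aeval S.t (S.pB i) : ℝ) * (Real.sqrt (aeval S.t (S.pD (S.c i))) : ℝ) /
        (aeval S.t (S.pW i) : ℝ) : ℝ) : ℂ) * Complex.I := by
    have h1 : ((aeval S.t (S.pW i) : ℝ) : ℂ) ≠ 0 := by exact_mod_cast (S.hpW i).ne'
    refine h.trans ?_
    push_cast
    field_simp
  rw [e]
  have h2 := S.hpB i
  have h3 := S.hpW i
  have h4 := Real.sqrt_pos.mpr (S.hpD (S.c i))
  simp only [Complex.add_im, Complex.ofReal_im, Complex.mul_im, Complex.ofReal_re, Complex.I_im,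
    mul_one, Complex.I_re, mul_zero, add_zero, zero_add]
  positivity

end Dat

lemma mem_EX {m : ℕ} (p : MvPolynomial (Fin m) ℤ) (x v : Fin m → ℂ)
    (h : MeromorphicAt (fun ζ ↦ aeval (line x v ζ) p) 0) :
    mk (fun ζ ↦ aeval (line x v ζ) p) h ∈ EX := by
  induction p using MvPolynomial.induction_on with
  | C c =>
    have e : mk (fun ζ ↦ aeval (line x v ζ) (C c : MvPolynomial (Fin m) ℤ)) h =
        algebraMap ℂ MG (c : ℂ) := by
      rw [algebraMap_MG, mk_eq_mk]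
      refine Eventually.of_forall fun ζ ↦ ?_
      simp
    rw [e]
    exact EX.algebraMap_mem _
  | add p q hp hq =>
    have hp' : MeromorphicAt (fun ζ ↦ aeval (line x v ζ) p) 0 := (an_line (an_aeval p x)).meromorphicAt
    have hq' : MeromorphicAt (fun ζ ↦ aeval (line x v ζ) q) 0 := (an_line (an_aeval q x)).meromorphicAt
    have e : mk (fun ζ ↦ aeval (line x v ζ) (p + q)) h = mk _ hp' + mk _ hq' := by
      rw [mk_add, mk_eq_mk]
      refine Eventually.of_forall fun ζ ↦ ?_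
      simp
    rw [e]
    exact EX.add_mem (hp hp') (hq hq')
  | mul_X p i hp =>
    have hp' : MeromorphicAt (fun ζ ↦ aeval (line x v ζ) p) 0 := (an_line (an_aeval p x)).meromorphicAt
    have e : mk (fun ζ ↦ aeval (line x v ζ) (p * X i)) h =
        mk _ hp' * (algebraMap ℂ MG (x i) + XX * algebraMap ℂ MG (v i)) := by
      rw [algebraMap_MG, algebraMap_MG, XX, mk_mul, mk_add, mk_mul, mk_eq_mk]
      refine Eventually.of_forall fun ζ ↦ ?_
      simp [line]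
    rw [e]
    refine EX.mul_mem (hp hp') (EX.add_mem (EX.algebraMap_mem _) (EX.mul_mem ?_ (EX.algebraMap_mem _)))
    exact IntermediateField.mem_adjoin_simple_self ℂ XX

lemma alg_EX {x : MG} (h : x ∈ EX) : IsAlgebraic EX x := isAlgebraic_algebraMap (⟨x, h⟩ : EX)

namespace Dat

variable {m n b : ℕ} (S : Dat m n b)

lemma alg_φ (i : Fin n) (v : Fin m → ℂ) (h : AnalyticAt ℂ (fun ζ : ℂ ↦ S.φ i (line S.x v ζ)) 0) :
    IsAlgebraic EX (mk (fun ζ : ℂ ↦ S.φ i (line S.x v ζ)) h.meromorphicAt) := by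
  have hp : ∀ p : MvPolynomial (Fin m) ℤ, MeromorphicAt (fun ζ ↦ aeval (line S.x v ζ) p) 0 :=
    fun p ↦ (an_line (an_aeval p S.x)).meromorphicAt
  have hσ : AnalyticAt ℂ (fun ζ ↦ sq (aeval (line S.x v ζ) (S.pD (S.c i)))) 0 := by
    refine an_line (f := fun s ↦ sq (aeval s (S.pD (S.c i)))) ?_
    refine AnalyticAt.fun_comp (g := sq) (f := fun s : Fin m → ℂ ↦ aeval s (S.pD (S.c i))) ?_
      (an_aeval _ _)
    apply an_sq
    rw [x_aeval]
    exact Complex.ofReal_mem_slitPlane.mpr (S.hpD _)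
  have aσ : IsAlgebraic EX (mk _ hσ.meromorphicAt) := by
    refine IsAlgebraic.of_pow (n := 2) two_pos ?_
    have e : mk _ hσ.meromorphicAt ^ 2 = mk _ (hp (S.pD (S.c i))) := by
      rw [pow_two, mk_mul, mk_eq_mk]
      refine Eventually.of_forall fun ζ ↦ ?_
      change _ * _ = _
      rw [← pow_two, sq_sq]
    rw [e]
    exact alg_EX (mem_EX _ _ _ _)
  have aI : IsAlgebraic EX (algebraMap ℂ MG Complex.I) := alg_EX (EX.algebraMap_mem _)
  have e : mk (fun ζ ↦ S.φ i (line S.x v ζ)) h.meromorphicAt = (mk _ (hp (S.pA i)) +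
      mk _ (hp (S.pB i)) * (mk _ hσ.meromorphicAt * algebraMap ℂ MG Complex.I)) *
      (mk _ (hp (S.pW i)))⁻¹ := by
    have hpW0 : mk _ (hp (S.pW i)) ≠ 0 := by
      intro h0
      rw [mk_eq_zero] at h0
      have h1 : ContinuousAt (fun ζ ↦ aeval (line S.x v ζ) (S.pW i)) 0 :=
        (an_line (an_aeval (S.pW i) S.x)).continuousAt
      have h2 : Tendsto (fun ζ ↦ aeval (line S.x v ζ) (S.pW i)) NE
          (𝓝 (aeval (line S.x v 0) (S.pW i))) := h1.tendsto.mono_left nhdsWithin_le_nhds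
      rw [line_zero, x_aeval] at h2
      have h3 : Tendsto (fun ζ ↦ aeval (line S.x v ζ) (S.pW i)) NE (𝓝 0) := by
        refine tendsto_const_nhds.congr' ?_
        filter_upwards [h0] with ζ hζ using hζ.symm
      have h4 := tendsto_nhds_unique h2 h3
      have := S.hpW i
      have h5 : (aeval S.t (S.pW i) : ℝ) = 0 := by exact_mod_cast h4
      linarith
    rw [eq_mul_inv_iff_mul_eq₀ hpW0, algebraMap_MG, mk_mul, mk_mul, mk_mul, mk_add, mk_eq_mk]
    have hne : ∀ᶠ ζ in NE, aeval (line S.x v ζ) (S.pW i) ≠ 0 := by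
      rcases (hp (S.pW i)).eventually_eq_zero_or_eventually_ne_zero with h1 | h1
      · exact absurd (mk_eq_zero.mpr h1) hpW0
      · exact h1
    filter_upwards [hne] with ζ hζ
    rw [φ, div_mul_cancel₀ _ hζ]
  rw [e]
  exact ((alg_EX (mem_EX _ _ _ _)).add ((alg_EX (mem_EX _ _ _ _)).mul (aσ.mul aI))).mul
    (alg_EX (mem_EX _ _ _ _)).inv

/-- The polynomial detecting constancy. -/
noncomputable def pP (i : Fin n) : MvPolynomial (Fin m) ℂ :=
  (MvPolynomial.map (Int.castRingHom ℂ) (S.pW i) * C (S.φ i S.x) -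
    MvPolynomial.map (Int.castRingHom ℂ) (S.pA i)) ^ 2 +
    MvPolynomial.map (Int.castRingHom ℂ) (S.pB i) ^ 2 *
      MvPolynomial.map (Int.castRingHom ℂ) (S.pD (S.c i))

lemma eval_pP (i : Fin n) (s : Fin m → ℂ) : eval s (S.pP i) =
    (aeval s (S.pW i) * S.φ i S.x - aeval s (S.pA i)) ^ 2 +
      aeval s (S.pB i) ^ 2 * aeval s (S.pD (S.c i)) := by
  have h : ∀ p : MvPolynomial (Fin m) ℤ, eval s (MvPolynomial.map (Int.castRingHom ℂ) p) =
      aeval s p := by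
    intro p
    rw [eval_map, aeval_def]
    rfl
  rw [pP]
  simp only [map_add, map_sub, map_mul, map_pow, eval_C, h]

lemma pP_ne (hCM : ∀ i, ¬ ∃ a b c : ℤ, a ≠ 0 ∧ (a : ℂ) * S.φ i S.x ^ 2 + (b : ℂ) * S.φ i S.x +
    (c : ℂ) = 0) (i : Fin n) : S.pP i ≠ 0 := by
  intro h0
  have hpW0 : S.pW i ≠ 0 := by
    intro h1
    have := S.hpW i
    rw [h1, map_zero] at this
    exact lt_irrefl _ this
  obtain ⟨y, hy⟩ : ∃ y : Fin m → ℤ, eval y (S.pW i) ≠ 0 := by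
    by_contra hcon
    push Not at hcon
    exact hpW0 (MvPolynomial.funext fun y ↦ by rw [hcon y, map_zero])
  have hcast : ∀ p : MvPolynomial (Fin m) ℤ, aeval (fun s ↦ ((y s : ℤ) : ℂ)) p =
      ((eval y p : ℤ) : ℂ) := by
    intro p
    have h := MvPolynomial.comp_aeval_apply (R := ℤ) y ((Int.castRingHom ℂ).toIntAlgHom) p
    exact h.symm
  have h1 := S.eval_pP i (fun s ↦ ((y s : ℤ) : ℂ))
  rw [h0, map_zero, hcast, hcast, hcast, hcast] at h1
  refine hCM i ⟨eval y (S.pW i) ^ 2, -2 * eval y (S.pW i) * eval y (S.pA i),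
    eval y (S.pA i) ^ 2 + eval y (S.pB i) ^ 2 * eval y (S.pD (S.c i)), pow_ne_zero 2 hy, ?_⟩
  push_cast
  linear_combination -h1

lemma nc_φ (hCM : ∀ i, ¬ ∃ a b c : ℤ, a ≠ 0 ∧ (a : ℂ) * S.φ i S.x ^ 2 + (b : ℂ) * S.φ i S.x +
    (c : ℂ) = 0) (i : Fin n) : ∃ p : MvPolynomial (Fin m) ℂ, p ≠ 0 ∧ ∀ v, eval (line S.x v 1) p ≠ 0 →
      ¬ ∀ᶠ ζ in NE, S.φ i (line S.x v ζ) = S.φ i S.x := by
  refine ⟨S.pP i, S.pP_ne hCM i, fun v hv hcon ↦ hv ?_⟩
  -- the restriction to the line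
  have han : AnalyticOnNhd ℂ (fun ζ ↦ eval (line S.x v ζ) (S.pP i)) Set.univ := by
    intro ζ _
    have h1 : AnalyticAt ℂ (fun s : Fin m → ℂ ↦ aeval s (S.pP i)) (line S.x v ζ) :=
      AnalyticAt.aeval_mvPolynomial (𝕜 := ℂ) (f := fun s : Fin m → ℂ ↦ s)
        (fun i ↦ (ContinuousLinearMap.proj (R := ℂ) (φ := fun _ : Fin m ↦ ℂ) i).analyticAt _) _
    have h2 := AnalyticAt.fun_comp (g := fun s : Fin m → ℂ ↦ aeval s (S.pP i)) (f := line S.x v)
      h1 (line_an _ _ _)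
    exact h2
  have hev : ∃ᶠ ζ in 𝓝[≠] (0 : ℂ), eval (line S.x v ζ) (S.pP i) = 0 := by
    refine Eventually.frequently ?_
    have hpW : ∀ᶠ ζ in NE, aeval (line S.x v ζ) (S.pW i) ≠ 0 := by
      have h1 : ContinuousAt (fun ζ ↦ aeval (line S.x v ζ) (S.pW i)) 0 :=
        (an_line (an_aeval (S.pW i) S.x)).continuousAt
      have h2 : aeval (line S.x v 0) (S.pW i) ≠ 0 := by
        rw [line_zero, x_aeval]
        exact_mod_cast (S.hpW i).ne'
      exact (h1.eventually_ne h2).filter_mono nhdsWithin_le_nhds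
    filter_upwards [hcon, hpW] with ζ h1 h2
    rw [eval_pP, ← h1, φ]
    rw [mul_div_cancel₀ _ h2, add_sub_cancel_left, mul_pow, mul_pow, sq_sq, Complex.I_sq]
    ring
  have h3 := han.eqOn_zero_of_preconnected_of_frequently_eq_zero isPreconnected_univ
    (Set.mem_univ 0) hev (Set.mem_univ 1)
  exact h3

/-- Functional independence. -/
theorem nonvan_φ (hCM : ∀ i, ¬ ∃ a b c : ℤ, a ≠ 0 ∧ (a : ℂ) * S.φ i S.x ^ 2 + (b : ℂ) * S.φ i S.x +
    (c : ℂ) = 0) (hrel : ∀ i j, i ≠ j → ¬ ∃ a b c d : ℚ, 0 < a * d - b * c ∧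
      S.φ j S.x = ((a : ℂ) * S.φ i S.x + b) / ((c : ℂ) * S.φ i S.x + d))
    (P : MvPolynomial ((Fin n × Fin 3) ⊕ Fin m) ℂ)
    (h : ∀ᶠ s in 𝓝 S.x, aeval (Sum.elim (fun p ↦ ee (S.φ p.1 s) p.2) s) P = 0) : P = 0 :=
  nonvan S.x S.φ S.an_φ S.im_φ S.alg_φ (S.nc_φ hCM) hrel P h

end Dat

open H32.T3 in
/-- Independence along hierarchical sequences. -/
theorem ult_ind {m n : ℕ} (x : Fin m → ℂ) (φ : Fin n → (Fin m → ℂ) → ℂ)
    (han : ∀ i, AnalyticAt ℂ (φ i) x) (him : ∀ i, 0 < (φ i x).im)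
    (hnv : ∀ P : MvPolynomial ((Fin n × Fin 3) ⊕ Fin m) ℂ,
      (∀ᶠ s in 𝓝 x, aeval (Sum.elim (fun p ↦ ee (φ p.1 s) p.2) s) P = 0) → P = 0)
    (r : ℕ → Fin m → ℂ) (hr : Tendsto r atTop (𝓝 x)) (σ : Equiv.Perm (Fin m))
    (hpos : ∀ᶠ k in atTop, ∀ s, 0 < ‖r k s - x s‖)
    (hier : ∀ C : ℕ, ∀ᶠ k in atTop, ∀ p q, p < q →
      ‖r k (σ p) - x (σ p)‖ ≤ ‖r k (σ q) - x (σ q)‖ ^ C) :
    AlgebraicIndependent ℂ (Sum.elim (fun p : Fin n × Fin 3 ↦ mkU (fun k ↦ ee (φ p.1 (r k)) p.2))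
      (fun s : Fin m ↦ mkU (fun k ↦ r k s))) := by
  rw [algebraicIndependent_iff]
  intro P hP
  by_contra hne
  set F : (Fin m → ℂ) → ℂ := fun s ↦ aeval (Sum.elim (fun p ↦ ee (φ p.1 s) p.2) s) P with hF
  have hFan : AnalyticAt ℂ F x := by
    refine AnalyticAt.aeval_mvPolynomial (𝕜 := ℂ)
      (f := fun s : Fin m → ℂ ↦ Sum.elim (fun p : Fin n × Fin 3 ↦ ee (φ p.1 s) p.2) s) ?_ P
    rintro (⟨i, l⟩ | s)
    · exact AnalyticAt.fun_comp (g := fun w ↦ ee w l) (f := φ i) (analytic_ee (him i) l) (han i)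
    · exact (ContinuousLinearMap.proj (R := ℂ) (φ := fun _ : Fin m ↦ ℂ) s).analyticAt _
  set G : (Fin m → ℂ) → ℂ := fun y ↦ F (fun s ↦ y (σ.symm s)) with hG
  have hyx : (fun s ↦ (fun s ↦ x (σ s)) (σ.symm s)) = x := by
    ext s
    simp
  have hGan : AnalyticAt ℂ G (fun s ↦ x (σ s)) := by
    refine AnalyticAt.fun_comp (g := F) (f := fun (y : Fin m → ℂ) s ↦ y (σ.symm s)) ?_ ?_
    · rw [hyx]
      exact hFan
    · rw [analyticAt_pi_iff]
      intro s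
      exact (ContinuousLinearMap.proj (R := ℂ) (φ := fun _ : Fin m ↦ ℂ) (σ.symm s)).analyticAt _
  obtain ⟨c, hc, M, hM⟩ := H32.nonvanish_multi (l := atTop) m G (fun s ↦ x (σ s))
    (fun k s ↦ r k (σ s)) hGan
    (fun h ↦ hne (hnv P (by
      have h1 : Tendsto (fun (y : Fin m → ℂ) s ↦ y (σ s)) (𝓝 x) (𝓝 (fun s ↦ x (σ s))) := by
        rw [tendsto_pi_nhds]
        intro s
        exact (continuous_apply (σ s)).tendsto x
      filter_upwards [h1.eventually h] with y hy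
      rw [hG] at hy
      simp only [Equiv.apply_symm_apply] at hy
      exact hy)))
    (by
      rw [tendsto_pi_nhds]
      intro s
      exact (tendsto_pi_nhds.mp hr) (σ s)) hier
  have e1 : (Sum.elim (fun p : Fin n × Fin 3 ↦ mkU (fun k ↦ ee (φ p.1 (r k)) p.2))
      (fun s : Fin m ↦ mkU (fun k ↦ r k s))) =
      fun y ↦ mkU ((Sum.elim (fun (p : Fin n × Fin 3) (k : ℕ) ↦ ee (φ p.1 (r k)) p.2)
        (fun (s : Fin m) (k : ℕ) ↦ r k s) : (Fin n × Fin 3) ⊕ Fin m → ℕ → ℂ) y) := by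
    ext y
    rcases y with y | y <;> rfl
  rw [e1, aeval_mkU'] at hP
  obtain ⟨k, h1, h2, h3⟩ := ((freq_of_mkU_zero hP).and_eventually (hM.and hpos)).exists
  have h5 : G (fun s ↦ r k (σ s)) = 0 := by
    rw [← h1, hG, hF]
    simp only [Equiv.apply_symm_apply]
    congr 2
    ext y
    rcases y with y | y <;> rfl
  rw [h5, norm_zero] at h2
  have h4 : 0 < c * (∏ p, ‖r k (σ p) - x (σ p)‖) ^ M :=
    mul_pos hc (pow_pos (Finset.prod_pos fun p _ ↦ h3 (σ p)) _)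
  linarith

end H32.T4
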