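import Pool.Agent.H32.T4.B2

/-!
# Quadratic points over a real field: approximation by CM points
-/

open UpperHalfPlane hiding I
open Complex EisensteinSeries ModularForm MatrixGroups Manifold
open scoped Real Topology
open MvPolynomial Filter

namespace H32.T4

open H32.T3

lemma hom_int {m : ℕ} (P : MvPolynomial (Fin m) ℤ) {D : ℕ} (hD : P.totalDegree ≤ D) {q : ℕ}
    (hq : 1 ≤ q) (p : Fin m → ℤ) :
    ∃ a : ℤ, (a : ℝ) = (q : ℝ) ^ D * aeval (fun s ↦ (p s : ℝ) / q) P := by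
  refine ⟨∑ μ ∈ P.support, P.coeff μ * ((q : ℤ) ^ (D - ∑ s, μ s) * ∏ s, p s ^ μ s), ?_⟩
  rw [aeval_def, eval₂_eq', Finset.mul_sum]
  push_cast
  refine Finset.sum_congr rfl fun μ hμ ↦ ?_
  have h1 : ∑ s, μ s ≤ D := by
    have h2 := (le_totalDegree hμ).trans hD
    rwa [Finsupp.sum_fintype _ _ (fun _ ↦ rfl)] at h2
  have hq0 : (q : ℝ) ≠ 0 := by
    have : q ≠ 0 := by omega
    exact_mod_cast this
  have h3 : (q : ℝ) ^ D = (q : ℝ) ^ (D - ∑ s, μ s) * ∏ s, (q : ℝ) ^ μ s := by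
    rw [Finset.prod_pow_eq_pow_sum, ← pow_add, Nat.sub_add_cancel h1]
  have h4 : ∏ s, ((p s : ℝ) / q) ^ μ s * (q : ℝ) ^ μ s = ∏ s, (p s : ℝ) ^ μ s := by
    refine Finset.prod_congr rfl fun s _ ↦ ?_
    rw [← mul_pow, div_mul_cancel₀ _ hq0]
  rw [Finset.prod_mul_distrib] at h4
  rw [h3, ← h4]
  have h5 : algebraMap ℤ ℝ (coeff μ P) = ((coeff μ P : ℤ) : ℝ) := rfl
  rw [h5]
  ring

lemma exp_cmp {L : ℝ} (hL : 0 ≤ L) {C E κ q : ℕ} (hC : 1 ≤ C) (hq : (C : ℝ) ^ κ + L + 1 ≤ q) :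
    L * Real.exp (-(q : ℝ) ^ (E * κ + 1)) < Real.exp (-((C * q ^ E : ℕ) : ℝ) ^ κ) := by
  have h1 : L < Real.exp L := by
    have := Real.add_one_le_exp L
    linarith
  have hCp : (1 : ℝ) ≤ (C : ℝ) ^ κ := one_le_pow₀ (by exact_mod_cast hC)
  have hq1 : (1 : ℝ) ≤ q := by linarith
  have hqE : (1 : ℝ) ≤ (q : ℝ) ^ (E * κ) := one_le_pow₀ hq1
  calc L * Real.exp (-(q : ℝ) ^ (E * κ + 1)) < Real.exp L * Real.exp (-(q : ℝ) ^ (E * κ + 1)) := by
        have := Real.exp_pos (-(q : ℝ) ^ (E * κ + 1))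
        gcongr
    _ = Real.exp (L + -(q : ℝ) ^ (E * κ + 1)) := (Real.exp_add _ _).symm
    _ ≤ _ := by
        apply Real.exp_le_exp.mpr
        push_cast
        rw [mul_pow, ← pow_mul, pow_succ]
        nlinarith

/-- The extended tuple. -/
noncomputable def ext {m n : ℕ} (w : Fin n → ℂ) (y : Fin m → ℂ) : Fin (n + m) → ℂ :=
  Fin.append w (fun s ↦ y s + Complex.I)

/-- The extended class map. -/
def exr {n : ℕ} (m : ℕ) (r : Fin n → Fin n) : Fin (n + m) → Fin (n + m) :=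
  Fin.append (fun i ↦ Fin.castAdd m (r i)) (fun s ↦ Fin.natAdd n s)

namespace Dat

variable {m n b : ℕ} (S : Dat m n b)

lemma aeval_cont (P : MvPolynomial (Fin m) ℤ) :
    Continuous (fun y : Fin m → ℝ ↦ (aeval y P : ℝ)) := by
  induction P using MvPolynomial.induction_on with
  | C c =>
    simp only [aeval_C]
    exact continuous_const
  | add p q hp hq =>
    simp only [map_add]
    exact hp.add hq
  | mul_X p i hp =>
    simp only [map_mul, aeval_X]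
    exact hp.mul (continuous_apply i)

/-- Bounds near the parameters. -/
lemma near : ∃ (C : ℕ) (L ε : ℝ), 2 ≤ C ∧ 0 ≤ L ∧ 0 < ε ∧ ∀ y : Fin m → ℝ,
    (∀ s, |S.t s - y s| < ε) →
    (∀ i, 0 < aeval y (S.pB i) ∧ 0 < aeval y (S.pW i) ∧ |aeval y (S.pA i)| ≤ (C : ℝ) ∧
      aeval y (S.pB i) ≤ (C : ℝ) ∧ aeval y (S.pW i) ≤ (C : ℝ)) ∧
    (∀ c, 0 < aeval y (S.pD c) ∧ aeval y (S.pD c) ≤ (C : ℝ)) ∧ (∀ s, |y s| ≤ (C : ℝ)) ∧
    ∀ i, ‖S.φ i S.x - S.φ i (fun s ↦ (y s : ℂ))‖ ≤ L * ‖S.t - y‖ := by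
  classical
  -- a common bound
  obtain ⟨C, hC⟩ := exists_nat_gt (2 + (∑ i, (|(aeval S.t (S.pA i) : ℝ)| + |(aeval S.t (S.pB i) : ℝ)| +
    |(aeval S.t (S.pW i) : ℝ)|)) + (∑ c, |(aeval S.t (S.pD c) : ℝ)|) + ∑ s, |S.t s|)
  have hA0 : 0 ≤ ∑ i, (|(aeval S.t (S.pA i) : ℝ)| + |(aeval S.t (S.pB i) : ℝ)| +
    |(aeval S.t (S.pW i) : ℝ)|) := Finset.sum_nonneg fun _ _ ↦ by positivity
  have hD0 : 0 ≤ ∑ c, |(aeval S.t (S.pD c) : ℝ)| := Finset.sum_nonneg fun _ _ ↦ abs_nonneg _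
  have hT0 : 0 ≤ ∑ s, |S.t s| := Finset.sum_nonneg fun _ _ ↦ abs_nonneg _
  have hAi : ∀ i, |(aeval S.t (S.pA i) : ℝ)| + |(aeval S.t (S.pB i) : ℝ)| +
      |(aeval S.t (S.pW i) : ℝ)| < C := fun i ↦ by
    have := Finset.single_le_sum (f := fun i ↦ |(aeval S.t (S.pA i) : ℝ)| +
      |(aeval S.t (S.pB i) : ℝ)| + |(aeval S.t (S.pW i) : ℝ)|) (fun _ _ ↦ by positivity)
      (Finset.mem_univ i)
    linarith
  have hDi : ∀ c, |(aeval S.t (S.pD c) : ℝ)| < C := fun c ↦ by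
    have := Finset.single_le_sum (f := fun c ↦ |(aeval S.t (S.pD c) : ℝ)|)
      (fun _ _ ↦ abs_nonneg _) (Finset.mem_univ c)
    linarith
  have hTi : ∀ s, |S.t s| < C := fun s ↦ by
    have := Finset.single_le_sum (f := fun s ↦ |S.t s|) (fun _ _ ↦ abs_nonneg _) (Finset.mem_univ s)
    linarith
  have hpos : ∀ P : MvPolynomial (Fin m) ℤ, 0 < (aeval S.t P : ℝ) →
      ∀ᶠ y in 𝓝 S.t, 0 < (aeval y P : ℝ) := fun P hP ↦
    (aeval_cont P).continuousAt.eventually (lt_mem_nhds hP)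
  have hle : ∀ P : MvPolynomial (Fin m) ℤ, |(aeval S.t P : ℝ)| < C →
      ∀ᶠ y in 𝓝 S.t, |(aeval y P : ℝ)| < C := fun P hP ↦
    (aeval_cont P).abs.continuousAt.eventually (gt_mem_nhds hP)
  -- the Lipschitz bound
  have hLip : ∀ i, ∃ L : ℝ, 0 < L ∧ ∀ᶠ y in 𝓝 S.t,
      ‖S.φ i (fun s ↦ ((y s : ℝ) : ℂ)) - S.φ i S.x‖ ≤ L * ‖y - S.t‖ := by
    intro i
    have h1 := (S.an_φ i).differentiableAt.isBigO_sub
    obtain ⟨L, hL, h2⟩ := h1.exists_pos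
    refine ⟨L, hL, ?_⟩
    rw [Asymptotics.IsBigOWith] at h2
    have h3 : Tendsto (fun (y : Fin m → ℝ) (s : Fin m) ↦ ((y s : ℝ) : ℂ)) (𝓝 S.t) (𝓝 S.x) := by
      rw [tendsto_pi_nhds]
      intro s
      exact (Complex.continuous_ofReal.comp (continuous_apply s)).tendsto S.t
    filter_upwards [h3.eventually h2] with y hy
    refine hy.trans (le_of_eq ?_)
    congr 1
    rw [Pi.norm_def, Pi.norm_def]
    congr 2
    ext s
    simp only [Pi.sub_apply, x]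
    rw [← Complex.ofReal_sub, nnnorm_real]
  choose Lf hLf hLf2 using hLip
  have hall : ∀ᶠ y in 𝓝 S.t,
      (∀ i, 0 < (aeval y (S.pB i) : ℝ) ∧ 0 < (aeval y (S.pW i) : ℝ) ∧
        |(aeval y (S.pA i) : ℝ)| < (C : ℝ) ∧ |(aeval y (S.pB i) : ℝ)| < (C : ℝ) ∧
        |(aeval y (S.pW i) : ℝ)| < (C : ℝ)) ∧
      (∀ c, 0 < (aeval y (S.pD c) : ℝ) ∧ |(aeval y (S.pD c) : ℝ)| < (C : ℝ)) ∧
      (∀ s, |y s| < (C : ℝ)) ∧
      ∀ i, ‖S.φ i (fun s ↦ ((y s : ℝ) : ℂ)) - S.φ i S.x‖ ≤ Lf i * ‖y - S.t‖ := by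
    refine Eventually.and ?_ (Eventually.and ?_ (Eventually.and ?_ ?_))
    · rw [eventually_all]
      intro i
      have := hAi i
      have a1 := abs_nonneg (aeval S.t (S.pA i) : ℝ)
      have a2 := abs_nonneg (aeval S.t (S.pB i) : ℝ)
      have a3 := abs_nonneg (aeval S.t (S.pW i) : ℝ)
      exact (hpos _ (S.hpB i)).and ((hpos _ (S.hpW i)).and ((hle _ (by linarith)).and
        ((hle _ (by linarith)).and (hle _ (by linarith)))))
    · rw [eventually_all]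
      intro c
      exact (hpos _ (S.hpD c)).and (hle _ (hDi c))
    · rw [eventually_all]
      intro s
      exact (continuous_apply s).abs.continuousAt.eventually (gt_mem_nhds (hTi s))
    · rw [eventually_all]
      exact hLf2
  obtain ⟨ε, hε, hball⟩ := Metric.eventually_nhds_iff_ball.mp hall
  refine ⟨C, ∑ i, Lf i, ε, ?_, Finset.sum_nonneg fun i _ ↦ (hLf i).le, hε, fun y hy ↦ ?_⟩
  · have : (2 : ℝ) < C := by linarith
    exact_mod_cast this.le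
  · have hyb : y ∈ Metric.ball S.t ε := by
      rw [Metric.mem_ball, dist_pi_lt_iff hε]
      intro s
      rw [dist_comm, Real.dist_eq]
      exact hy s
    obtain ⟨h1, h2, h3, h4⟩ := hball y hyb
    refine ⟨fun i ↦ ?_, fun c ↦ ⟨(h2 c).1, ((le_abs_self _).trans_lt (h2 c).2).le⟩,
      fun s ↦ (h3 s).le, fun i ↦ ?_⟩
    · obtain ⟨g1, g2, g3, g4, g5⟩ := h1 i
      exact ⟨g1, g2, g3.le, ((le_abs_self _).trans_lt g4).le, ((le_abs_self _).trans_lt g5).le⟩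
    · rw [norm_sub_rev, norm_sub_rev S.t]
      refine (h4 i).trans ?_
      have := Finset.single_le_sum (f := Lf) (fun i _ ↦ (hLf i).le) (Finset.mem_univ i)
      gcongr

end Dat

end H32.T4
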