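import Pool.Agent.H32.T4.B4

/-!
# Quadratic points over a real field: rank computation
-/

open UpperHalfPlane hiding I
open Complex EisensteinSeries ModularForm MatrixGroups Manifold
open scoped Real Topology
open Filter

namespace H32.T4

open H32.T3

/-- The functions of the transfer argument. -/
noncomputable def VV {n m : ℕ} (r : Fin n → Fin n) (a : Fin n) (w : Fin n → ℂ) (y : Fin m → ℂ) :
    (Fin n × Fin 5) ⊕ Fin m → ℂ :=
  Sum.elim (H32.T3.UU r a w) (fun s ↦ y s + Complex.I)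

/-- The selection. -/
def sel {n m : ℕ} : (Fin n × Fin 5) ⊕ Fin m → Fin (n + m) × Fin 5 :=
  Sum.elim (fun x ↦ (Fin.castAdd m x.1, x.2)) (fun s ↦ (Fin.natAdd n s, 0))

lemma UU_ext {n m : ℕ} (r : Fin n → Fin n) (a : Fin n) (w : Fin n → ℂ) (y : Fin m → ℂ)
    (u : (Fin n × Fin 5) ⊕ Fin m) :
    H32.T3.UU (exr m r) (Fin.castAdd m a) (ext w y) (sel u) = VV r a w y u := by
  rcases u with ⟨i, l⟩ | s
  · have e1 : ext w y (Fin.castAdd m i) = w i := Fin.append_left _ _ _
    have e2 : exr m r (Fin.castAdd m i) = Fin.castAdd m (r i) := Fin.append_left _ _ _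
    have e3 : ext w y (Fin.castAdd m (r i)) = w (r i) := Fin.append_left _ _ _
    change H32.T3.UU (exr m r) (Fin.castAdd m a) (ext w y) (Fin.castAdd m i, l) = H32.T3.UU r a w (i, l)
    rw [H32.T3.UU, H32.T3.UU]
    simp only [e1, e2, e3]
    by_cases hi : r i = a
    · rw [if_pos hi, if_pos (by rw [hi])]
    · rw [if_neg hi, if_neg (fun h ↦ hi (Fin.castAdd_injective n m h))]
  · have e1 : ext w y (Fin.natAdd n s) = y s + Complex.I := Fin.append_right _ _ _
    change H32.T3.UU (exr m r) (Fin.castAdd m a) (ext w y) (Fin.natAdd n s, 0) = y s + Complex.I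
    rw [H32.T3.UU]
    simp only [e1]
    split_ifs <;> rfl

theorem rank_V {n m : ℕ} (t : ℕ → Fin n → ℂ) (y : ℕ → Fin m → ℂ) (hG : ∀ᶠ k in atTop, Gd (t k))
    (r : Fin n → Fin n) (a : Fin n) (hr : ∀ i, r (r i) = r i)
    (hX : AlgebraicIndependent ℂ (Sum.elim (fun p : Fin n × Fin 3 ↦ mkU (fun k ↦ ee (t k p.1) p.2))
      (fun s : Fin m ↦ mkU (fun k ↦ y k s)))) :
    ∃ f : Fin (3 * n + m - ((Finset.univ.image r).erase a).card) → (Fin n × Fin 5) ⊕ Fin m,
      AlgebraicIndependent ℂ (fun j ↦ mkU (fun k ↦ VV r a (t k) (y k) (f j))) := by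
  classical
  set M := AlgebraicIndependent.matroid ℂ Ult with hM
  -- the sequences
  set w : Fin n → Ult := fun i ↦ mkU (fun k ↦ t k i) with hw
  set x : Fin n → Ult := fun i ↦ mkU (fun k ↦ (starRingEnd ℂ) (t k i)) with hx
  set J : Fin n → Ult := fun i ↦ mkU (fun k ↦ jc (t k i)) with hJ
  set φ : Fin n → Ult := fun i ↦ mkU (fun k ↦ ph (t k i)) with hφ
  set ψ : Fin n → Ult := fun i ↦ mkU (fun k ↦ ps (t k i)) with hψ
  set W : Fin n → Ult := fun i ↦ mkU (fun k ↦ Wf (t k i)) with hW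
  set g2 : Fin n → Ult := fun i ↦ mkU (fun k ↦ e2 (t k i)) with hg2
  set g4 : Fin n → Ult := fun i ↦ mkU (fun k ↦ e4 (t k i)) with hg4
  set g6 : Fin n → Ult := fun i ↦ mkU (fun k ↦ e6 (t k i)) with hg6
  have r1 : ∀ i, (φ i - ψ i) * ((w i - x i) * W i) = algebraMap ℂ Ult 12 := by
    intro i
    rw [algebraMap_Ult, hφ, hψ, hw, hx, hW]
    simp only
    rw [← map_sub, ← map_sub, ← map_mul, ← map_mul, ← sub_eq_zero, ← map_sub]
    refine mkU_zero_of_ev (hG.mono fun k hk ↦ ?_)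
    obtain ⟨h0, h4, h6⟩ := hk i
    have h := ps_eq' h0 h4 h6
    simp only [Pi.sub_apply, Pi.mul_apply]
    linear_combination -h
  have r2 : ∀ i, W i * g4 i = algebraMap ℂ Ult (2 * π * I) * g6 i := by
    intro i
    rw [algebraMap_Ult, hW, hg4, hg6]
    simp only
    rw [← map_mul, ← map_mul, ← sub_eq_zero, ← map_sub]
    refine mkU_zero_of_ev (hG.mono fun k hk ↦ ?_)
    obtain ⟨h0, h4, h6⟩ := hk i
    simp only [Pi.sub_apply, Pi.mul_apply]
    rw [Wf, div_mul_cancel₀ _ h4, sub_self]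
  have r3 : ∀ i, J i * (g4 i ^ 3 - g6 i ^ 2) = algebraMap ℂ Ult 1728 * g4 i ^ 3 := by
    intro i
    rw [algebraMap_Ult, hJ, hg4, hg6]
    simp only
    rw [← map_pow, ← map_pow, ← map_sub, ← map_mul, ← map_mul, ← sub_eq_zero, ← map_sub]
    refine mkU_zero_of_ev (Eventually.of_forall fun k ↦ ?_)
    simp only [Pi.sub_apply, Pi.mul_apply, Pi.pow_apply]
    rw [jc, div_mul_cancel₀ _ disc_ne, sub_self]
  have r4 : ∀ i, ψ i * g6 i = g2 i * g4 i := by
    intro i
    rw [hψ, hg2, hg4, hg6]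
    simp only
    rw [← map_mul, ← map_mul, ← sub_eq_zero, ← map_sub]
    refine mkU_zero_of_ev (hG.mono fun k hk ↦ ?_)
    obtain ⟨h0, h4, h6⟩ := hk i
    simp only [Pi.sub_apply, Pi.mul_apply]
    rw [ps, div_mul_cancel₀ _ h6, sub_self]
  have n4 : ∀ i, g4 i ≠ 0 := by
    intro i h0
    obtain ⟨k, h1, h2⟩ := ((freq_of_mkU_zero h0).and_eventually hG).exists
    exact (h2 i).2.1 h1
  have n6 : ∀ i, g6 i ≠ 0 := by
    intro i h0
    obtain ⟨k, h1, h2⟩ := ((freq_of_mkU_zero h0).and_eventually hG).exists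
    exact (h2 i).2.2 h1
  -- the sets
  set R : Finset (Fin n) := (Finset.univ.image r).erase a with hR
  set S : (Fin n × Fin 5) ⊕ Fin m → Ult := fun v ↦ mkU (fun k ↦ VV r a (t k) (y k) v) with hS
  have hSl : ∀ v, S (Sum.inl v) = mkU (fun k ↦ H32.T3.UU r a (t k) v) := fun v ↦ rfl
  set T : Set Ult := ψ '' (R : Set (Fin n)) with hT
  have hpiI : (2 * π * I : ℂ) ≠ 0 := by
    have hpi : (π : ℂ) ≠ 0 := by exact_mod_cast Real.pi_ne_zero
    exact mul_ne_zero (mul_ne_zero two_ne_zero hpi) Complex.I_ne_zero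
  set D : Subalgebra ℂ Ult := Algebra.adjoin ℂ (Set.range S ∪ T) with hD
  have hgen : ∀ v ∈ Set.range S ∪ T, IsAlgebraic D v := by
    intro v hv
    exact isAlgebraic_algebraMap (⟨v, Algebra.subset_adjoin hv⟩ : D)
  have aR : ∀ r : ℂ, IsAlgebraic D (algebraMap ℂ Ult r) := fun r ↦ by
    rw [IsScalarTower.algebraMap_apply ℂ D Ult]
    exact isAlgebraic_algebraMap _
  have aw : ∀ i, IsAlgebraic D (w i) := by
    intro i
    refine hgen _ (Or.inl ⟨Sum.inl (i, 0), ?_⟩)
    rw [hSl, hw]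
    refine congrArg mkU (funext fun k ↦ ?_)
    by_cases hi : r i = a
    · rw [H32.T3.UU, if_pos hi]; rfl
    · rw [H32.T3.UU, if_neg hi]; rfl
  have aJ : ∀ i, IsAlgebraic D (J i) := by
    intro i
    refine hgen _ (Or.inl ⟨Sum.inl (i, 1), ?_⟩)
    rw [hSl, hJ]
    refine congrArg mkU (funext fun k ↦ ?_)
    by_cases hi : r i = a
    · rw [H32.T3.UU, if_pos hi]; rfl
    · rw [H32.T3.UU, if_neg hi]; rfl
  have ax : ∀ i, r i ≠ a → IsAlgebraic D (x i) := by
    intro i hi
    refine hgen _ (Or.inl ⟨Sum.inl (i, 3), ?_⟩)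
    rw [hSl, hx]
    refine congrArg mkU (funext fun k ↦ ?_)
    rw [H32.T3.UU, if_neg hi]
    rfl
  have aφ : ∀ i, r i ≠ a → IsAlgebraic D (φ i) := by
    intro i hi
    refine hgen _ (Or.inl ⟨Sum.inl (i, 2), ?_⟩)
    rw [hSl, hφ]
    refine congrArg mkU (funext fun k ↦ ?_)
    rw [H32.T3.UU, if_neg hi]
    rfl
  have h12 : algebraMap ℂ Ult 12 ≠ 0 := (map_ne_zero _).mpr (by norm_num)
  -- the representatives
  have aWr : ∀ i, r i = i → i ≠ a → IsAlgebraic D (W i) := by
    intro i hri hia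
    have hi : r i ≠ a := by rw [hri]; exact hia
    have aψi : IsAlgebraic D (ψ i) := by
      refine hgen _ (Or.inr ⟨i, ?_, rfl⟩)
      rw [hR, Finset.mem_coe, Finset.mem_erase, Finset.mem_image]
      exact ⟨hia, i, Finset.mem_univ _, hri⟩
    have h1 := r1 i
    have hprod : (φ i - ψ i) * (w i - x i) ≠ 0 := by
      intro h0
      apply h12
      rw [← h1, ← mul_assoc, h0, zero_mul]
    have e1 : W i = algebraMap ℂ Ult 12 * ((φ i - ψ i) * (w i - x i))⁻¹ := by
      rw [eq_mul_inv_iff_mul_eq₀ hprod, ← h1]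
      ring
    rw [e1]
    exact (aR 12).mul (((aφ i hi).sub aψi).mul ((aw i).sub (ax i hi))).inv
  have aW : ∀ i, IsAlgebraic D (W i) := by
    intro i
    by_cases hi : r i = a
    · refine hgen _ (Or.inl ⟨Sum.inl (i, 2), ?_⟩)
      rw [hSl, hW]
      refine congrArg mkU (funext fun k ↦ ?_)
      rw [H32.T3.UU, if_pos hi]
      rfl
    · set Q : Ult := mkU (fun k ↦ Wf (t k i) / Wf (t k (r i))) with hQ
      have aq : IsAlgebraic D Q := by
        refine hgen _ (Or.inl ⟨Sum.inl (i, 4), ?_⟩)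
        rw [hSl, hQ]
        refine congrArg mkU (funext fun k ↦ ?_)
        rw [H32.T3.UU, if_neg hi]
        rfl
      have e1 : W i = Q * W (r i) := by
        rw [hW, hQ]
        simp only
        rw [← map_mul, ← sub_eq_zero, ← map_sub]
        refine mkU_zero_of_ev (hG.mono fun k hk ↦ ?_)
        simp only [Pi.sub_apply, Pi.mul_apply]
        have := Wf_ne (hk (r i)).2.1 (hk (r i)).2.2
        field_simp
        ring
      rw [e1]
      exact aq.mul (aWr (r i) (hr i) hi)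
  have aψ : ∀ i, IsAlgebraic D (ψ i) := by
    intro i
    by_cases hi : r i = a
    · refine hgen _ (Or.inl ⟨Sum.inl (i, 3), ?_⟩)
      rw [hSl, hψ]
      refine congrArg mkU (funext fun k ↦ ?_)
      rw [H32.T3.UU, if_pos hi]
      rfl
    · have h1 := r1 i
      have hprod : (w i - x i) * W i ≠ 0 := by
        intro h0
        apply h12
        rw [← h1, h0, mul_zero]
      have e1 : ψ i = φ i - algebraMap ℂ Ult 12 * ((w i - x i) * W i)⁻¹ := by
        rw [← h1, mul_inv_cancel_right₀ hprod]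
        ring
      rw [e1]
      exact (aφ i hi).sub ((aR 12).mul (((aw i).sub (ax i hi)).mul (aW i)).inv)
  have key : ∀ i, IsAlgebraic D (g2 i) ∧ IsAlgebraic D (g4 i) ∧ IsAlgebraic D (g6 i) := fun i ↦
    alg_gen D (c := 2 * π * I) hpiI (by norm_num) (n4 i) (n6 i) (r2 i) (r3 i) (r4 i)
      (aJ i) (aW i) (aψ i)
  set et : (Fin n × Fin 3) ⊕ Fin m → Ult :=
    Sum.elim (fun p : Fin n × Fin 3 ↦ mkU (fun k ↦ ee (t k p.1) p.2))
      (fun s : Fin m ↦ mkU (fun k ↦ y k s)) with het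
  have hind : M.Indep (Set.range et) := by
    rw [hM, AlgebraicIndependent.matroid_indep_iff]
    exact hX.to_subtype_range
  have hcard : (Set.range et).encard = ((3 * n + m : ℕ) : ℕ∞) := by
    rw [← Set.image_univ, hX.injective.encard_image, Set.encard_univ, ENat.card_eq_coe_fintype_card]
    rw [Fintype.card_sum, Fintype.card_prod, Fintype.card_fin, Fintype.card_fin, Fintype.card_fin,
      mul_comm n 3]
  have hsub : Set.range et ⊆ M.closure (Set.range S ∪ T) := by
    rw [hM, AlgebraicIndependent.matroid_closure_eq]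
    rintro _ ⟨u, rfl⟩
    change IsAlgebraic D (et u)
    rcases u with ⟨i, l⟩ | s
    · fin_cases l
      · exact (key i).1
      · exact (key i).2.1
      · exact (key i).2.2
    · have e1 : et (Sum.inr s) = S (Sum.inr s) - algebraMap ℂ Ult Complex.I := by
        rw [algebraMap_Ult, hS]
        simp only
        rw [← map_sub]
        refine congrArg mkU (funext fun k ↦ ?_)
        change y k s = y k s + Complex.I - Complex.I
        ring
      rw [e1]
      exact (hgen _ (Or.inl ⟨Sum.inr s, rfl⟩)).sub (aR _)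
  obtain ⟨B, hB'⟩ := M.exists_isBasis (Set.range S)
  have h1 : ((3 * n + m : ℕ) : ℕ∞) ≤ M.eRk (Set.range S ∪ T) := by
    rw [← M.eRk_closure_eq, ← hcard]
    exact hind.encard_le_eRk_of_subset hsub
  have hTc : M.eRk T ≤ ((R.card : ℕ) : ℕ∞) := by
    refine (M.eRk_le_encard T).trans ?_
    refine (Set.encard_image_le _ _).trans ?_
    rw [Set.encard_coe_eq_coe_finsetCard]
  have h2 : ((3 * n + m : ℕ) : ℕ∞) ≤ B.encard + ((R.card : ℕ) : ℕ∞) := by
    refine h1.trans ((M.eRk_union_le_eRk_add_eRk _ _).trans ?_)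
    rw [← hB'.eRk_eq_encard]
    gcongr
  have hRn : R.card ≤ 3 * n + m := by
    have := Finset.card_le_univ R
    rw [Fintype.card_fin] at this
    omega
  have h3 : ((3 * n + m - R.card : ℕ) : ℕ∞) ≤ B.encard := by
    have h5 : ((3 * n + m - R.card : ℕ) : ℕ∞) + ((R.card : ℕ) : ℕ∞) ≤
        B.encard + ((R.card : ℕ) : ℕ∞) := by
      refine le_trans (le_of_eq ?_) h2
      rw [← Nat.cast_add, Nat.sub_add_cancel hRn]
    exact (ENat.add_le_add_iff_right (ENat.natCast_ne_top _)).mp h5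
  refine extract_indep' S (B := B) ?_ hB'.subset h3
  have := hB'.indep
  rw [hM, AlgebraicIndependent.matroid_indep_iff] at this
  exact this

end H32.T4
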