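import Pool.Agent.H32.T4.B7
import Pool.Agent.H32.Hier

/-!
# Quadratic points over a real field: the main theorem
-/

open UpperHalfPlane hiding I
open Complex EisensteinSeries ModularForm MatrixGroups Manifold
open scoped Real Topology
open Filter MvPolynomial

namespace H32.T4

open H32.T3

/-- Elements of the field are quotients of integral polynomials. -/
lemma mem_field {m : ℕ} {t : Fin m → ℝ} {a : ℝ}
    (ha : a ∈ IntermediateField.adjoin ℚ (Set.range t)) :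
    ∃ P Q : MvPolynomial (Fin m) ℤ, 0 < (aeval t Q : ℝ) ∧ a = (aeval t P : ℝ) / (aeval t Q : ℝ) := by
  induction ha using IntermediateField.adjoin_induction with
  | mem x hx =>
    obtain ⟨s, rfl⟩ := hx
    exact ⟨X s, 1, by simp, by simp⟩
  | algebraMap x =>
    refine ⟨C x.num, C (x.den : ℤ), ?_, ?_⟩
    · rw [aeval_C]
      have : (0 : ℝ) < x.den := by exact_mod_cast x.den_pos
      simpa using this
    · rw [aeval_C, aeval_C]
      have := Rat.cast_def (K := ℝ) x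
      simpa using this
  | add x y _ _ hx hy =>
    obtain ⟨P, Q, hQ, rfl⟩ := hx
    obtain ⟨P', Q', hQ', rfl⟩ := hy
    refine ⟨P * Q' + P' * Q, Q * Q', by rw [map_mul]; positivity, ?_⟩
    rw [map_add, map_mul, map_mul, map_mul]
    field_simp
  | mul x y _ _ hx hy =>
    obtain ⟨P, Q, hQ, rfl⟩ := hx
    obtain ⟨P', Q', hQ', rfl⟩ := hy
    refine ⟨P * P', Q * Q', by rw [map_mul]; positivity, ?_⟩
    rw [map_mul, map_mul]
    field_simp
  | inv x _ hx =>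
    obtain ⟨P, Q, hQ, rfl⟩ := hx
    rcases lt_trichotomy (aeval t P : ℝ) 0 with h | h | h
    · refine ⟨-Q, -P, by rw [map_neg]; linarith, ?_⟩
      rw [map_neg, map_neg, inv_div, neg_div_neg_eq]
    · refine ⟨0, 1, by simp, ?_⟩
      rw [h]
      simp
    · exact ⟨Q, P, h, by rw [inv_div]⟩

lemma shier_of {m : ℕ} {t : Fin m → ℝ} (h : ∀ κ : ℝ, ∀ K : ℕ, ∃ q : ℕ, K ≤ q ∧ ∃ p : Fin m → ℤ,
    (∀ s, 0 < |t s - p s / q| ∧ |t s - p s / q| < Real.exp (-(q : ℝ) ^ κ)) ∧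
    ∀ r s, r ≠ s → |t r - p r / q| < |t s - p s / q| ^ K ∨
      |t s - p s / q| < |t r - p r / q| ^ K) : SHier t := by
  intro κ
  obtain ⟨σ, hσ⟩ := H32.hier_sort (h (κ : ℝ))
  refine ⟨σ, fun K ↦ ?_⟩
  obtain ⟨q, hq, p, h1, h2⟩ := hσ K
  refine ⟨q, hq, fun s ↦ p (σ.symm s), fun s ↦ ?_, fun a b hab ↦ ?_⟩
  · have h3 := h1 (σ.symm s)
    rw [Equiv.apply_symm_apply, Real.rpow_natCast] at h3
    exact h3
  · simp only [Equiv.symm_apply_apply]
    exact h2 a b hab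

lemma exists_dat {m n b : ℕ} {t : Fin m → ℝ} {d : Fin (b + 1) → ℝ}
    (hd : ∀ c, d c ∈ IntermediateField.adjoin ℚ (Set.range t) ∧ 0 < d c)
    (c : Fin n → Fin (b + 1)) (z : Fin n → ℂ) (him : ∀ i, 0 < (z i).im)
    (hz : ∀ i, ∃ A ∈ IntermediateField.adjoin ℚ (Set.range t),
      ∃ B ∈ IntermediateField.adjoin ℚ (Set.range t),
        z i = (A : ℂ) + (B : ℂ) * ((Real.sqrt (d (c i)) : ℝ) : ℂ) * Complex.I) :
    ∃ S : Dat m n b, S.t = t ∧ S.c = c ∧ ∀ i, S.φ i S.x = z i := by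
  choose A hA B hB hz using hz
  choose P Q hQ hPQ using fun i ↦ mem_field (hA i)
  choose P' Q' hQ' hPQ' using fun i ↦ mem_field (hB i)
  choose R R' hR' hRR' using fun c ↦ mem_field (hd c).1
  have hR : ∀ c, 0 < (aeval t (R c) : ℝ) := by
    intro c
    have h1 := (hd c).2
    rw [hRR'] at h1
    by_contra hle
    exact absurd h1 (not_lt.mpr (div_nonpos_of_nonpos_of_nonneg (not_lt.mp hle) (hR' c).le))
  have hBpos : ∀ i, 0 < B i := by
    intro i
    have h1 := him i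
    have h2 : (z i).im = B i * Real.sqrt (d (c i)) := by
      rw [hz i]
      simp
    rw [h2] at h1
    by_contra hle
    exact absurd h1 (not_lt.mpr (mul_nonpos_of_nonpos_of_nonneg (not_lt.mp hle) (Real.sqrt_nonneg _)))
  have hP' : ∀ i, 0 < (aeval t (P' i) : ℝ) := by
    intro i
    have h1 := hBpos i
    rw [hPQ'] at h1
    by_contra hle
    exact absurd h1 (not_lt.mpr (div_nonpos_of_nonpos_of_nonneg (not_lt.mp hle) (hQ' i).le))
  refine ⟨Dat.of t (fun i ↦ P i * Q' i * R' (c i)) (fun i ↦ P' i * Q i)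
    (fun i ↦ Q i * Q' i * R' (c i)) (fun c ↦ R c * R' c) c
    (fun i ↦ by rw [map_mul]; exact mul_pos (hP' i) (hQ i))
    (fun i ↦ by rw [map_mul, map_mul]; exact mul_pos (mul_pos (hQ i) (hQ' i)) (hR' _))
    (fun c ↦ by rw [map_mul]; exact mul_pos (hR c) (hR' c)), rfl, rfl, fun i ↦ ?_⟩
  refine (Dat.φ_real _ i ?_).trans ?_
  rotate_left
  · have hs : Real.sqrt (d (c i)) = Real.sqrt (aeval t (R (c i)) * aeval t (R' (c i))) /
        aeval t (R' (c i)) := by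
      have h0 := hR' (c i)
      rw [hRR' (c i)]
      rw [eq_div_iff h0.ne']
      have h1 : (aeval t (R (c i)) * aeval t (R' (c i)) : ℝ) =
          aeval t (R (c i)) / aeval t (R' (c i)) * (aeval t (R' (c i))) ^ 2 := by
        field_simp
      rw [h1, Real.sqrt_mul (div_nonneg (hR _).le h0.le), Real.sqrt_sq h0.le]
    rw [hz i, hs, hPQ i, hPQ' i]
    have h0 : ((aeval t (R' (c i)) : ℝ) : ℂ) ≠ 0 := by exact_mod_cast (hR' (c i)).ne'
    have h1 : ((aeval t (Q i) : ℝ) : ℂ) ≠ 0 := by exact_mod_cast (hQ i).ne'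
    have h2 : ((aeval t (Q' i) : ℝ) : ℂ) ≠ 0 := by exact_mod_cast (hQ' i).ne'
    simp only [map_mul]
    push_cast
    field_simp
  · simp only [map_mul]
    exact (mul_pos (hR _) (hR' _)).le

namespace Dat

variable {m n b : ℕ} (S : Dat m n b)

lemma alg_z (i : Fin n) : IsAlgebraic (Algebra.adjoin ℚ (Set.range S.x)) (S.φ i S.x) ∧
    IsAlgebraic (Algebra.adjoin ℚ (Set.range S.x)) ((starRingEnd ℂ) (S.φ i S.x)) := by
  set D := Algebra.adjoin ℚ (Set.range S.x) with hD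
  have aQ : ∀ q : ℚ, IsAlgebraic D (q : ℂ) := fun q ↦ by
    have : (q : ℂ) = algebraMap D ℂ (algebraMap ℚ D q) := by
      rw [← IsScalarTower.algebraMap_apply]; rfl
    rw [this]
    exact isAlgebraic_algebraMap _
  have aI : IsAlgebraic D Complex.I := by
    refine IsAlgebraic.of_pow (n := 2) two_pos ?_
    rw [Complex.I_sq]
    have := aQ (-1)
    push_cast at this
    exact this
  have aP : ∀ p : MvPolynomial (Fin m) ℤ, IsAlgebraic D ((aeval S.t p : ℝ) : ℂ) := by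
    intro p
    rw [← S.x_aeval]
    induction p using MvPolynomial.induction_on with
    | C c =>
      rw [aeval_C]
      have := aQ (c : ℚ)
      simpa using this
    | add p q hp hq =>
      rw [map_add]
      exact hp.add hq
    | mul_X p s hp =>
      rw [map_mul, aeval_X]
      exact hp.mul (isAlgebraic_algebraMap (⟨S.x s, Algebra.subset_adjoin ⟨s, rfl⟩⟩ : D))
  have aS : IsAlgebraic D ((Real.sqrt (aeval S.t (S.pD (S.c i))) : ℝ) : ℂ) := by
    refine IsAlgebraic.of_pow (n := 2) two_pos ?_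
    rw [← Complex.ofReal_pow, Real.sq_sqrt (S.hpD _).le]
    exact aP _
  have e1 := S.φ_real i (S.hpD (S.c i)).le
  have e2 : (starRingEnd ℂ) (S.φ i S.x) = ((aeval S.t (S.pA i) : ℝ) - (aeval S.t (S.pB i) : ℝ) *
      ((Real.sqrt (aeval S.t (S.pD (S.c i))) : ℝ) * Complex.I)) / (aeval S.t (S.pW i) : ℝ) := by
    have e3 : S.φ i S.x = _ := e1
    rw [e3]
    simp only [map_div₀, map_add, map_mul, Complex.conj_ofReal, Complex.conj_I]
    ring
  constructor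
  · have e3 : S.φ i S.x = _ := e1
    rw [e3, div_eq_mul_inv]
    exact ((aP _).add ((aP _).mul (aS.mul aI))).mul (aP _).inv
  · rw [e2, div_eq_mul_inv]
    exact ((aP _).sub ((aP _).mul (aS.mul aI))).mul (aP _).inv

end Dat

theorem main_Q {E4 E6 J : ℂ → ℂ}
    (h4 : ∀ τ : ℂ, E4 τ = 1 + 240 * ∑' m : ℕ, ((ArithmeticFunction.sigma 3 (m + 1) : ℕ) : ℂ) *
      Complex.exp (2 * (Real.pi : ℂ) * Complex.I * ((m : ℂ) + 1) * τ))
    (h6 : ∀ τ : ℂ, E6 τ = 1 - 504 * ∑' m : ℕ, ((ArithmeticFunction.sigma 5 (m + 1) : ℕ) : ℂ) *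
      Complex.exp (2 * (Real.pi : ℂ) * Complex.I * ((m : ℂ) + 1) * τ))
    (hJ : ∀ τ : ℂ, J τ = 1728 * E4 τ ^ 3 / (E4 τ ^ 3 - E6 τ ^ 2))
    {m n b : ℕ} (t : Fin m → ℝ) (ht : ∀ κ : ℝ, ∀ K : ℕ, ∃ q : ℕ, K ≤ q ∧ ∃ p : Fin m → ℤ,
    (∀ s, 0 < |t s - p s / q| ∧ |t s - p s / q| < Real.exp (-(q : ℝ) ^ κ)) ∧
    ∀ r s, r ≠ s → |t r - p r / q| < |t s - p s / q| ^ K ∨
      |t s - p s / q| < |t r - p r / q| ^ K)
    (d : Fin (b + 1) → ℝ) (hd : ∀ c, d c ∈ IntermediateField.adjoin ℚ (Set.range t) ∧ 0 < d c)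
    (c : Fin n → Fin (b + 1)) (z : Fin n → ℂ) (him : ∀ i, 0 < (z i).im)
    (hz : ∀ i, ∃ A ∈ IntermediateField.adjoin ℚ (Set.range t),
      ∃ B ∈ IntermediateField.adjoin ℚ (Set.range t),
        z i = (A : ℂ) + (B : ℂ) * ((Real.sqrt (d (c i)) : ℝ) : ℂ) * Complex.I)
    (hCM : ∀ i, ¬ ∃ a b c : ℤ, a ≠ 0 ∧ (a : ℂ) * z i ^ 2 + (b : ℂ) * z i + (c : ℂ) = 0)
    (hrel : ∀ i k, i ≠ k → ¬ ∃ a b c d : ℚ, 0 < a * d - b * c ∧
      z k = ((a : ℂ) * z i + (b : ℂ)) / ((c : ℂ) * z i + (d : ℂ))) :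
    (∀ i, Transcendental ℚ (z i)) ∧
    ∀ (ρ : ℕ) (g : Fin ρ → Fin n), AlgebraicIndependent ℚ (fun k ↦ z (g k)) →
      ∃ f : Fin (3 * n + ρ - b) → Fin n × Fin 4, AlgebraicIndependent ℚ (fun k ↦
        ![z (f k).1, J (z (f k).1), deriv J (z (f k).1), deriv (deriv J) (z (f k).1)] (f k).2) := by
  classical
  obtain ⟨S, rfl, rfl, hSz⟩ := exists_dat hd c z him hz
  obtain rfl : (fun i ↦ S.φ i S.x) = z := funext hSz
  have key : ∀ a : Fin n, (∀ i, Transcendental ℚ (S.φ i S.x)) ∧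
      ∀ (ρ : ℕ) (g : Fin ρ → Fin n), AlgebraicIndependent ℚ (fun k ↦ S.φ (g k) S.x) →
      ∃ f : Fin (3 * n + ρ - b) → Fin n × Fin 4, AlgebraicIndependent ℚ (fun k ↦
        ![S.φ (f k).1 S.x, J (S.φ (f k).1 S.x), deriv J (S.φ (f k).1 S.x),
          deriv (deriv J) (S.φ (f k).1 S.x)] (f k).2) := by
    intro a
    obtain ⟨r, hr1, hr2, hr3, hr4⟩ := H32.T3.exists_rep S.c a
    obtain ⟨hG, htr, f, hf⟩ := S.V_indep (shier_of ht) hCM hrel r hr1 hr2 a
    refine ⟨fun i hi ↦ htr i ((IsFractionRing.isAlgebraic_iff ℤ ℚ ℂ).mpr hi), fun ρ g hg ↦ ?_⟩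
    have halgZQ : Algebra.IsAlgebraic ℤ ℚ := IsLocalization.isAlgebraic ℚ (nonZeroDivisors ℤ)
    obtain ⟨f', hf'⟩ := final_V h4 h6 hJ r a (fun i ↦ S.φ i S.x) S.x hG (fun i ↦ (S.alg_z i).1)
      (fun i ↦ (S.alg_z i).2) f (hf.extendScalars ℚ) g hg
    have hle : 3 * n + ρ - b ≤
        3 * n + m - ((Finset.univ.image r).erase a).card + ρ - m := by
      have h1 : ((Finset.univ.image r).erase a).card ≤ n := by
        have := Finset.card_le_univ ((Finset.univ.image r).erase a)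
        rwa [Fintype.card_fin] at this
      omega
    exact ⟨f' ∘ Fin.castLE hle, hf'.comp _ (Fin.castLE_injective hle)⟩
  rcases Nat.eq_zero_or_pos n with hn | hn
  · subst hn
    refine ⟨fun i ↦ i.elim0, fun ρ g hg ↦ ?_⟩
    have hρ : ρ = 0 := by
      by_contra h
      exact (g ⟨0, Nat.pos_of_ne_zero h⟩).elim0
    subst hρ
    have h0 : 3 * 0 + 0 - b = 0 := by omega
    rw [h0]
    refine ⟨fun i ↦ i.elim0, ?_⟩
    have : IsEmpty (Fin 0) := inferInstance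
    exact algebraicIndependent_empty_type_iff.mpr (algebraMap ℚ ℂ).injective
  · exact key ⟨0, hn⟩

end H32.T4
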